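import Pool.Agent.H75.INF.Ord

/-!
# [H75 INF LIA] the geometric representation of a Coxeter group is faithful (all labels)

`rho s_i = grefl M i` (`lift_apply_simple`). `dih`: let `c = cos (π / M i j)`, `c = 1` if `M i j = 0`; `grefl_j e_i = e_i + 2 c e_j`,
`grefl_i e_i = - e_i` (`c1_grefl_apply`, `c1_self`, `c1_form`, `c1_form'`, `c1_gform_single`). Let `u 0 = 1`, `u (n+1) = 2 c u n - u (n-1)`
(`u (-1) = 0`). By induction on `n`, with `alternatingWord_succ'` (a letter is added on the left):
`rho (π (alternatingWord i j n)) e_i = u n e_i + u (n-1) e_j` for even `n` and `u (n-1) e_i + u n e_j` for odd `n`. `u n ≥ 0` if `M i j = 0`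
(`u n = n + 1`) or `n < M i j` (`sin (π / m) u n = sin ((n + 1) π / m)`, `m ≥ 2`, `0 < (n+1) π / m ≤ π`).
`pos_root`: induction on `n = ℓ(w)`. If `w = 1` clear. Otherwise `w` has a right descent `j ≠ i`. Let `J = {i, j}`, `v = mrep cs J w`,
`x = v⁻¹ w ∈ par J`, `ℓ(w) = ℓ(v) + ℓ(x)` (`length_add`, `mrep_isMin`, `mrep_mem`). `j` is a right descent of `x` and `i` is not (`length_add` for
`x s_j`, `x s_i`). `d1_word`: `x = π (alternatingWord i j (ℓ x))`, reduced. If `M i j ≠ 0`: `ℓ x ≤ M i j` (`not_isReduced_alternatingWord`), and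
`ℓ x ≠ M i j` (otherwise `x = π (braidWord i j) = π (braidWord j i)` has the right descent `i`). `dih`: `rho x e_i = α e_i + β e_j`,
`α, β ≥ 0`. `ℓ(v) < ℓ(w)` and `ℓ(v) < ℓ(v s_i), ℓ(v s_j)` (`IsMin`): by induction `rho v e_i`, `rho v e_j` are nonnegative.
`rho_inj`: let `rho w = 1`, `w ≠ 1`, `i` a right descent, `w' = w s_i`, `ℓ(w') < ℓ(w' s_i)`: `rho w' e_i ≥ 0`, but
`rho w e_i = rho w' (grefl_i e_i) = - rho w' e_i`, and the coefficient of `e_i` would be `1 ≤ 0`.
-/

set_option autoImplicit false

namespace Pool.Agent.H75.INF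

open CoxeterSystem Pool.H8.CDW

variable {B W : Type*} [Group W] {M : CoxeterMatrix B} (cs : CoxeterSystem M W)

/-- the geometric representation -/
noncomputable def rho : W →* Module.End ℝ (B →₀ ℝ) := cs.lift ⟨grefl M, grefl_liftable M⟩

theorem rho_simple (i : B) : rho cs (cs.simple i) = grefl M i := by
  unfold rho
  rw [cs.lift_apply_simple]

/-- `lv c (n + 1) = u n` -/
private def lv (c : ℝ) : ℕ → ℝ
  | 0 => 0
  | 1 => 1
  | n + 2 => 2 * c * lv c (n + 1) - lv c n

private theorem lia_word {i j : B} {c : ℝ} (h : gform M i (Finsupp.single j (1 : ℝ)) = -c)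
    (h' : gform M j (Finsupp.single i (1 : ℝ)) = -c) (n : ℕ) :
    rho cs (cs.wordProd (alternatingWord i j n)) (Finsupp.single i 1) =
      (if Even n then lv c (n + 1) else lv c n) • Finsupp.single i (1 : ℝ) +
      (if Even n then lv c n else lv c (n + 1)) • Finsupp.single j (1 : ℝ) := by
  induction n with
  | zero =>
    have h0 : alternatingWord i j 0 = [] := rfl
    rw [h0, wordProd_nil, map_one, Module.End.one_apply, if_pos (by simp), if_pos (by simp)]
    simp [lv]
  | succ n ih =>
    rw [alternatingWord_succ', wordProd_cons, map_mul, Module.End.mul_apply, ih]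
    have e2 : lv c (n + 1 + 1) = 2 * c * lv c (n + 1) - lv c n := rfl
    rcases Nat.even_or_odd n with hn | hn
    · have hn' : ¬ Even (n + 1) := Nat.not_even_iff_odd.2 hn.add_one
      rw [if_pos hn, if_pos hn, if_pos hn, if_neg hn', if_neg hn', rho_simple, map_add, map_smul,
        map_smul, c1_grefl_apply, c1_grefl_apply, h', c1_self, e2]
      module
    · have hn0 : ¬ Even n := Nat.not_even_iff_odd.2 hn
      have hn' : Even (n + 1) := hn.add_one
      rw [if_neg hn0, if_neg hn0, if_neg hn0, if_pos hn', if_pos hn', rho_simple, map_add, map_smul,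
        map_smul, c1_grefl_apply, c1_grefl_apply, h, c1_self, e2]
      module

private theorem lv_one (n : ℕ) : lv 1 n = n ∧ lv 1 (n + 1) = n + 1 := by
  induction n with
  | zero => simp [lv]
  | succ n ih =>
    obtain ⟨h1, h2⟩ := ih
    have e2 : lv 1 (n + 1 + 1) = 2 * 1 * lv 1 (n + 1) - lv 1 n := rfl
    refine ⟨by rw [h2]; push_cast; ring, ?_⟩
    rw [e2, h1, h2]
    push_cast
    ring

private theorem lv_sin (θ : ℝ) (n : ℕ) : Real.sin θ * lv (Real.cos θ) n = Real.sin (n * θ) ∧
    Real.sin θ * lv (Real.cos θ) (n + 1) = Real.sin ((n + 1 : ℕ) * θ) := by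
  induction n with
  | zero => simp [lv]
  | succ n ih =>
    obtain ⟨h1, h2⟩ := ih
    have e2 : lv (Real.cos θ) (n + 1 + 1) =
        2 * Real.cos θ * lv (Real.cos θ) (n + 1) - lv (Real.cos θ) n := rfl
    refine ⟨h2, ?_⟩
    have e3 : Real.sin θ * lv (Real.cos θ) (n + 1 + 1) =
        2 * Real.cos θ * (Real.sin θ * lv (Real.cos θ) (n + 1)) -
          Real.sin θ * lv (Real.cos θ) n := by
      rw [e2]
      ring
    rw [e3, h1, h2]
    have a1 : ((n + 1 + 1 : ℕ) : ℝ) * θ = ((n + 1 : ℕ) : ℝ) * θ + θ := by push_cast; ring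
    have a2 : ((n : ℕ) : ℝ) * θ = ((n + 1 : ℕ) : ℝ) * θ - θ := by push_cast; ring
    rw [a1, a2, Real.sin_add, Real.sin_sub]
    ring

private theorem lv_nonneg {m : ℕ} (hm : 2 ≤ m) {n : ℕ} (hn : n ≤ m) :
    0 ≤ lv (Real.cos (Real.pi / m)) n := by
  have hm' : (0 : ℝ) < m := by
    have : 0 < m := by omega
    exact_mod_cast this
  have h1 : 0 < Real.sin (Real.pi / m) := by
    apply Real.sin_pos_of_pos_of_lt_pi
    · positivity
    · rw [div_lt_iff₀ hm']
      have : (2 : ℝ) ≤ m := by exact_mod_cast hm
      nlinarith [Real.pi_pos]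
  have h2 : 0 ≤ Real.sin (n * (Real.pi / m)) := by
    apply Real.sin_nonneg_of_nonneg_of_le_pi
    · positivity
    · rw [← mul_div_assoc, div_le_iff₀ hm', mul_comm]
      have : (n : ℝ) ≤ m := by exact_mod_cast hn
      exact mul_le_mul_of_nonneg_left this Real.pi_pos.le
  rw [← (lv_sin (Real.pi / m) n).1] at h2
  by_contra hcon
  push Not at hcon
  have := mul_neg_of_pos_of_neg h1 hcon
  linarith

theorem dih {i j : B} (hij : i ≠ j) {n : ℕ} (hn : M i j = 0 ∨ n < M i j) : ∃ α β : ℝ, 0 ≤ α ∧ 0 ≤ β ∧
    rho cs (cs.wordProd (alternatingWord i j n)) (Finsupp.single i 1) =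
      α • Finsupp.single i (1 : ℝ) + β • Finsupp.single j (1 : ℝ) := by
  have key : ∃ c : ℝ, gform M i (Finsupp.single j (1 : ℝ)) = -c ∧
      gform M j (Finsupp.single i (1 : ℝ)) = -c ∧ 0 ≤ lv c n ∧ 0 ≤ lv c (n + 1) := by
    by_cases hM : M i j = 0
    · refine ⟨1, ?_, ?_, ?_, ?_⟩
      · rw [c1_gform_single, if_pos hM]
      · rw [c1_gform_single, M.symmetric j i, if_pos hM]
      · rw [(lv_one n).1]
        positivity
      · rw [(lv_one n).2]
        positivity
    · have hn' : n < M i j := by
        rcases hn with h | h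
        · exact absurd h hM
        · exact h
      have hm2 : 2 ≤ M i j := by
        have := M.off_diagonal i j hij
        omega
      exact ⟨Real.cos (Real.pi / M i j), c1_form M hM, c1_form' M hM, lv_nonneg hm2 (by omega),
        lv_nonneg hm2 (by omega)⟩
  obtain ⟨c, h, h', h1, h2⟩ := key
  refine ⟨_, _, ?_, ?_, lia_word cs h h' n⟩
  · split_ifs
    · exact h2
    · exact h1
  · split_ifs
    · exact h1
    · exact h2

private theorem pos_root_aux (n : ℕ) : ∀ (w : W) (i : B), cs.length w = n →
    cs.length w < cs.length (w * cs.simple i) → ∀ k : B,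
    0 ≤ rho cs w (Finsupp.single i 1) k := by
  induction n using Nat.strong_induction_on with
  | _ n ih =>
    intro w i hw h k
    classical
    by_cases hw1 : w = 1
    · rw [hw1, map_one, Module.End.one_apply, Finsupp.single_apply]
      split_ifs
      · exact zero_le_one
      · exact le_refl 0
    obtain ⟨j, hj⟩ := cs.exists_rightDescent_of_ne_one hw1
    have hji : i ≠ j := by
      rintro rfl
      unfold CoxeterSystem.IsRightDescent at hj
      omega
    set J : Set B := {i, j} with hJ
    have hiJ : i ∈ J := by simp [hJ]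
    have hjJ : j ∈ J := by simp [hJ]
    set v : W := mrep cs J w with hv
    have hmin : IsMin cs J v := mrep_isMin cs J w
    have hx : v⁻¹ * w ∈ par cs J := by
      have h1 := inv_mem (mrep_mem cs J w)
      rwa [mul_inv_rev, inv_inv] at h1
    set x : W := v⁻¹ * w with hxd
    have hvx : v * x = w := by rw [hxd, mul_inv_cancel_left]
    have hl : cs.length w = cs.length v + cs.length x := by
      rw [← hvx]
      exact length_add cs hmin hx
    have hlj : cs.length (w * cs.simple j) = cs.length v + cs.length (x * cs.simple j) := by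
      rw [← hvx, mul_assoc]
      exact length_add cs hmin (mul_mem hx (simple_mem_par cs hjJ))
    have hli : cs.length (w * cs.simple i) = cs.length v + cs.length (x * cs.simple i) := by
      rw [← hvx, mul_assoc]
      exact length_add cs hmin (mul_mem hx (simple_mem_par cs hiJ))
    have hxj : cs.IsRightDescent x j := by
      unfold CoxeterSystem.IsRightDescent at hj ⊢
      omega
    have hxi : ¬ cs.IsRightDescent x i := by
      unfold CoxeterSystem.IsRightDescent
      omega
    obtain ⟨hword, hred⟩ := d1_word cs hx hxj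
    have hlt : M i j = 0 ∨ cs.length x < M i j := by
      by_cases hM : M i j = 0
      · exact Or.inl hM
      · right
        have h1 : ¬ cs.length x > M i j := fun hcon => not_isReduced_alternatingWord cs i j hM hcon hred
        have h2 : cs.length x ≠ M i j := by
          intro he
          apply hxi
          have h3 : x = cs.wordProd (braidWord M i j) := by
            rw [he] at hword
            exact hword
          rw [wordProd_braidWord_eq] at h3
          have hMs : M j i = M i j := M.symmetric j i
          obtain ⟨q, hq⟩ : ∃ q, M j i = q + 1 := ⟨M j i - 1, by omega⟩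
          have h4 : braidWord M j i = (alternatingWord i j q).concat i := by
            show alternatingWord j i (M j i) = _
            rw [hq, alternatingWord_succ]
          rw [h4, wordProd_concat] at h3
          unfold CoxeterSystem.IsRightDescent
          have h5 : x * cs.simple i = cs.wordProd (alternatingWord i j q) := by
            rw [h3, simple_mul_simple_cancel_right]
          rw [h5]
          have h6 := cs.length_wordProd_le (alternatingWord i j q)
          rw [length_alternatingWord] at h6
          omega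
        omega
    obtain ⟨α, β, hα, hβ, hdih⟩ := dih cs hji hlt
    rw [← hword] at hdih
    have hxpos : 0 < cs.length x := by
      unfold CoxeterSystem.IsRightDescent at hxj
      omega
    have hvi : cs.length v < cs.length (v * cs.simple i) := by
      have h1 := hmin i hiJ
      rw [cs.not_isRightDescent_iff] at h1
      omega
    have hvj : cs.length v < cs.length (v * cs.simple j) := by
      have h1 := hmin j hjJ
      rw [cs.not_isRightDescent_iff] at h1
      omega
    have h7 := ih (cs.length v) (by omega) v i rfl hvi k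
    have h8 := ih (cs.length v) (by omega) v j rfl hvj k
    rw [← hvx, map_mul, Module.End.mul_apply, hdih, map_add, map_smul, map_smul, Finsupp.add_apply,
      Finsupp.smul_apply, Finsupp.smul_apply, smul_eq_mul, smul_eq_mul]
    exact add_nonneg (mul_nonneg hα h7) (mul_nonneg hβ h8)

theorem pos_root (w : W) (i : B) (h : cs.length w < cs.length (w * cs.simple i)) (k : B) :
    0 ≤ rho cs w (Finsupp.single i 1) k :=
  pos_root_aux cs _ w i rfl h k

theorem rho_inj : Function.Injective (rho cs) := by
  rw [injective_iff_map_eq_one]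
  intro w hw
  by_contra hw1
  obtain ⟨i, hi⟩ := cs.exists_rightDescent_of_ne_one hw1
  have h1 : cs.length (w * cs.simple i) < cs.length (w * cs.simple i * cs.simple i) := by
    rw [simple_mul_simple_cancel_right]
    exact hi
  have h2 := pos_root cs (w * cs.simple i) i h1 i
  rw [map_mul, hw, one_mul, rho_simple, c1_grefl_apply, c1_self, Finsupp.sub_apply,
    Finsupp.smul_apply, Finsupp.single_eq_same, smul_eq_mul] at h2
  norm_num at h2

end Pool.Agent.H75.INF
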