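import Pool.Agent.H75.INF.Defs

/-!
# [H75 INF ORD] the order of `s_i s_j` is `M i j`, also for `M i j = 0`

`pow_ne_one'`: as `Pool.H8.CDW.pow_ne_one` (`H8/CDW/C2.lean`): let `ρ = cs.lift ⟨grefl M, grefl_liftable M⟩`; `gform M i (single j 1) = -1`
(`c1_gform_single`, `if_pos`), and the same with `i`, `j` exchanged (`M.symmetric`), so `c1_Te`, `c1_Tf` with `c = 1` give for
`T = grefl M i * grefl M j`: `T e_i = 3 e_i + 2 e_j`, `T e_j = -2 e_i - e_j`, and by induction `(T ^ k) e_i = (2 k + 1) e_i + 2 k e_j`. If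
`(s_i s_j) ^ k = 1` then `T ^ k = 1`; compare the coefficient of `e_j`: `2 k = 0`.
`simple_inj`: if `i ≠ j` and `s_i = s_j` then `(s_i s_j) ^ 1 = 1`: for `M i j = 0` `pow_ne_one'`, otherwise `M i j ≥ 2`
(`M.off_diagonal`) and `pow_ne_one`.
`orderOf_mul`: `i = j`: `M.diagonal`, `s_i s_i = 1`. `M i j = 0`: `orderOf_eq_zero_iff'`. Otherwise `orderOf_eq_iff`,
`simple_mul_simple_pow`, `pow_ne_one`.
-/

set_option autoImplicit false

namespace Pool.Agent.H75.INF

open CoxeterSystem Pool.H8.CDW Pool.Agent.H52.PAG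

variable {B W : Type*} [Group W] {M : CoxeterMatrix B}

theorem pow_ne_one' (cs : CoxeterSystem M W) {i j : B} (hij : i ≠ j) (hM : M i j = 0) {k : ℕ} (hk : 0 < k) :
    (cs.simple i * cs.simple j) ^ k ≠ 1 := by
  intro h1
  have h2 : (grefl M i * grefl M j) ^ k = 1 := by
    have h3 := congrArg (cs.lift ⟨grefl M, grefl_liftable M⟩) h1
    rw [map_pow, map_mul, map_one, cs.lift_apply_simple, cs.lift_apply_simple] at h3
    exact h3
  have hf : gform M i (Finsupp.single j (1 : ℝ)) = -1 := by
    rw [c1_gform_single, if_pos hM]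
  have hf' : gform M j (Finsupp.single i (1 : ℝ)) = -1 := by
    rw [c1_gform_single, M.symmetric j i, if_pos hM]
  have key : ∀ n : ℕ, ((grefl M i * grefl M j) ^ n) (Finsupp.single i (1 : ℝ)) =
      (2 * (n : ℝ) + 1) • Finsupp.single i (1 : ℝ) + (2 * (n : ℝ)) • Finsupp.single j (1 : ℝ) := by
    intro n
    induction n with
    | zero => simp
    | succ n ih =>
      rw [pow_succ', Module.End.mul_apply, ih, map_add, map_smul, map_smul, c1_Te hf hf', c1_Tf hf]
      push_cast
      module
  have h3 := key k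
  rw [h2, Module.End.one_apply] at h3
  have h4 := DFunLike.congr_fun h3 j
  have e1 : (Finsupp.single i (1 : ℝ)) j = 0 := Finsupp.single_eq_of_ne hij.symm
  simp only [Finsupp.add_apply, Finsupp.smul_apply, Finsupp.single_eq_same, e1, smul_eq_mul,
    mul_zero, mul_one, zero_add] at h4
  have h5 : (0 : ℝ) < k := by exact_mod_cast hk
  linarith

theorem simple_inj (cs : CoxeterSystem M W) : Function.Injective cs.simple := by
  intro i j h
  by_contra hij
  by_cases hM : M i j = 0
  · refine pow_ne_one' cs hij hM (k := 1) one_pos ?_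
    rw [pow_one, h, cs.simple_mul_simple_self]
  · have h1 : M i j ≠ 1 := M.off_diagonal i j hij
    refine pow_ne_one cs hij (k := 1) one_pos (by omega) ?_
    rw [pow_one, h, cs.simple_mul_simple_self]

theorem orderOf_mul (cs : CoxeterSystem M W) (i j : B) : orderOf (cs.simple i * cs.simple j) = M i j := by
  by_cases hij : i = j
  · subst hij
    rw [cs.simple_mul_simple_self, orderOf_one, M.diagonal]
  by_cases hM : M i j = 0
  · rw [hM, orderOf_eq_zero_iff']
    intro k hk
    exact pow_ne_one' cs hij hM hk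
  · rw [orderOf_eq_iff (Nat.pos_of_ne_zero hM)]
    exact ⟨cs.simple_mul_simple_pow i j, fun k hk hk0 => pow_ne_one cs hij hk0 hk⟩

end Pool.Agent.H75.INF
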