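import Pool.Agent.H93.TR.Main
import Pool.Agent.H54.AR.Fin
import Pool.Agent.H52.PAG.Red
import Pool.Agent.H8.CDW.D2

/-!
# [H75 INF] Artin groups: reduction to the parabolic subgroups with finite labels. Definitions

MP_2a547c_gt. `M` is a Coxeter matrix (`M i j = 0`: no relation), `Art M` the Artin group (`H52.PAG.Defs`), `toCox M` its
homomorphism to the Coxeter group `M.Group`, `par cs K` the standard parabolic subgroup of the Coxeter group (`H8.CDW.Par`),
`ap M K` the subgroup of `Art M` generated by the `gen M k`, `k ∈ K`.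

THEOREM. `C` with `Inherits`, `Extension`, the Coxeter groups in `C` (they are: `Lib.lean`, from `GL_n(ℤ)`). If `ap M K` is in `C` for
every finite `K` with `M i j ≠ 0` for all `i j ∈ K` then `Art M` is in `C`.

PLAN. `B` finite, induction on the number of generators; `M s t = 0`. `Art M` acts on the Bass-Serre tree of
`ap {t}ᶜ *_(ap {s,t}ᶜ) ap {s}ᶜ` (`Amt`, `Upa`). By `Extension` it suffices to treat the preimages `gw M w` of the cyclic subgroups
`⟨w⟩` of the Coxeter group. By `Trc` (from `H93.TR.main`) it suffices to find for every edge `a · ap {s,t}ᶜ` a homomorphism from `gw M w`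
to a group in `C` which is injective on the stabiliser of the edge (`Sep`). It is the product of the homomorphisms
`h ↦ cy M J (b * w ^ j) h`, `J = {s,t}ᶜ`, `j ∈ ℤ`, restricted to the kernel of one more homomorphism (`Psi`) on which only finitely many
of them are not trivial (`Fin`, `Dyw`); `H93.TR.fam_ker` makes it a kernel of a homomorphism to a group in `C` (`Fam`).

THE COCYCLE. `y` in the Coxeter group is `ps y * mr y`, `ps y ∈ par K`, `mr y` the shortest element of `par K * y`. A letter `r` at
`y` is ON if `y s_r y⁻¹ ∈ par K`; then `mr (y s_r) = mr y`, `ps (y s_r) = ps y * s_k`, `k = ltr y r ∈ K`, `mr y * s_r = s_k * mr y`, and the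
letter `k` is the output. Otherwise `mr (y s_r) = mr y * s_r`, `ps (y s_r) = ps y`, no output. `IsCz M K f c`: `c y h` is the product of
`f` of the outputs when the word `h` is read from `y`.
-/

set_option autoImplicit false

namespace Pool.Agent.H75.INF

open CoxeterSystem Pool.H8.CDW Pool.Agent.H52.PAG

section cox

variable {B W : Type*} [Group W] {M : CoxeterMatrix B}

/-- the shortest element of the coset `par cs K * y` -/
noncomputable def mr (cs : CoxeterSystem M W) (K : Set B) (y : W) : W := (mrep cs K y⁻¹)⁻¹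

/-- the position of `y` in the coset: `y = ps y * mr y` -/
noncomputable def ps (cs : CoxeterSystem M W) (K : Set B) (y : W) : W := y * (mr cs K y)⁻¹

/-- the wall crossed by the letter `r` at `y` is a wall of `par cs K` -/
def On (cs : CoxeterSystem M W) (K : Set B) (y : W) (r : B) : Prop := y * cs.simple r * y⁻¹ ∈ par cs K

open Classical in
/-- the output of the letter `r` at `y` -/
noncomputable def ltr (cs : CoxeterSystem M W) (K : Set B) (y : W) (r : B) : B :=
  if h : ∃ k ∈ K, mr cs K y * cs.simple r = cs.simple k * mr cs K y then h.choose else r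

open Classical in
/-- the outputs of a word -/
noncomputable def out (cs : CoxeterSystem M W) (K : Set B) : W → List B → List B
  | _, [] => []
  | y, r :: ω => if On cs K y r then ltr cs K y r :: out cs K (y * cs.simple r) ω else out cs K (y * cs.simple r) ω

open Classical in
/-- the outputs of a word with signs -/
noncomputable def outs (cs : CoxeterSystem M W) (K : Set B) : W → List (B × Bool) → List (B × Bool)
  | _, [] => []
  | y, l :: ω => if On cs K y l.1 then (ltr cs K y l.1, l.2) :: outs cs K (y * cs.simple l.1) ω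
      else outs cs K (y * cs.simple l.1) ω

/-- the walls crossed by a word with signs, from the chamber `x` -/
def wls (cs : CoxeterSystem M W) : W → List (B × Bool) → List W
  | _, [] => []
  | x, l :: ω => (x * cs.simple l.1 * x⁻¹) :: wls cs (x * cs.simple l.1) ω

/-- the parabolic subgroup `g * par cs K * g⁻¹` -/
def pc (cs : CoxeterSystem M W) (K : Set B) (g : W) : Subgroup W where
  carrier := {x | g⁻¹ * x * g ∈ par cs K}
  mul_mem' := by
    intro a b ha hb
    have h : g⁻¹ * (a * b) * g = (g⁻¹ * a * g) * (g⁻¹ * b * g) := by group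
    show g⁻¹ * (a * b) * g ∈ par cs K
    rw [h]
    exact mul_mem ha hb
  one_mem' := by
    show g⁻¹ * 1 * g ∈ par cs K
    rw [mul_one, inv_mul_cancel]
    exact one_mem _
  inv_mem' := by
    intro a ha
    have h : g⁻¹ * a⁻¹ * g = (g⁻¹ * a * g)⁻¹ := by group
    show g⁻¹ * a⁻¹ * g ∈ par cs K
    rw [h]
    exact inv_mem ha

theorem mem_pc {cs : CoxeterSystem M W} {K : Set B} {g x : W} : x ∈ pc cs K g ↔ g⁻¹ * x * g ∈ par cs K := Iff.rfl

/-- a parabolic subgroup of minimal rank which contains the set `X` -/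
def IsPc (cs : CoxeterSystem M W) (X : Set W) (K : Set B) (g : W) : Prop :=
  X ⊆ pc cs K g ∧ ∀ (K' : Set B) (g' : W), X ⊆ pc cs K' g' → K.ncard ≤ K'.ncard

end cox

section art

variable {B : Type} (M : CoxeterMatrix B)

/-- the subgroup of the Artin group generated by the generators in `K` -/
def ap (K : Set B) : Subgroup (Art M) := Subgroup.closure (gen M '' K)

/-- the braid relations for the pairs in `K` -/
def Br (K : Set B) {N : Type*} [Group N] (f : B → N) : Prop :=
  ∀ i ∈ K, ∀ j ∈ K, M i j ≠ 0 → alt (f i) (f j) (M i j) = alt (f j) (f i) (M i j)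

theorem br_gen (K : Set B) : Br M K (gen M) := fun _ _ _ _ h => gen_rel h

/-- the value of a word with signs -/
def wv {N : Type*} [Group N] (f : B → N) (ω : List (B × Bool)) : N :=
  (ω.map fun x => if x.2 then f x.1 else (f x.1)⁻¹).prod

/-- the cocycle with outputs in `K` and the values `f` -/
structure IsCz (K : Set B) {N : Type*} [Group N] (f : B → N) (c : M.Group → Art M → N) : Prop where
  one : ∀ y, c y 1 = 1
  mul : ∀ y a b, c y (a * b) = c y a * c (y * toCox M a) b
  on : ∀ y r, On M.toCoxeterSystem K y r → c y (gen M r) = f (ltr M.toCoxeterSystem K y r)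
  off : ∀ y r, ¬ On M.toCoxeterSystem K y r → c y (gen M r) = 1

/-- the preimage of the cyclic subgroup generated by `w` -/
def gw (w : M.Group) : Subgroup (Art M) := (Subgroup.zpowers w).comap (toCox M)

variable {M}

theorem gen_mem_ap {K : Set B} {k : B} (h : k ∈ K) : gen M k ∈ ap M K := Subgroup.subset_closure ⟨k, h, rfl⟩

theorem ap_mono {K L : Set B} (h : K ⊆ L) : ap M K ≤ ap M L := Subgroup.closure_mono (Set.image_mono h)

theorem ap_univ : ap M Set.univ = ⊤ := by
  unfold ap
  rw [Set.image_univ]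
  exact art_closure M

theorem toCox_gen' (r : B) : toCox M (gen M r) = M.toCoxeterSystem.simple r := toCox_gen r

theorem mem_gw {w : M.Group} {h : Art M} : h ∈ gw M w ↔ ∃ j : ℤ, w ^ j = toCox M h := Iff.rfl

theorem wv_nil {N : Type*} [Group N] (f : B → N) : wv f [] = 1 := rfl

theorem wv_cons {N : Type*} [Group N] (f : B → N) (x : B × Bool) (ω : List (B × Bool)) :
    wv f (x :: ω) = (if x.2 then f x.1 else (f x.1)⁻¹) * wv f ω := by
  unfold wv
  rw [List.map_cons, List.prod_cons]

/-- a property of the elements of `ap M K` -/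
theorem ap_induction {K : Set B} {P : Art M → Prop} (h1 : P 1) (h2 : ∀ x, x ∈ ap M K → ∀ k ∈ K, P x → P (x * gen M k))
    (h3 : ∀ x, x ∈ ap M K → ∀ k ∈ K, P x → P (x * (gen M k)⁻¹)) {x : Art M} (hx : x ∈ ap M K) : P x := by
  refine Subgroup.closure_induction_right (p := fun x _ => P x) h1 ?_ ?_ hx
  · rintro y hy' z ⟨i, hi, rfl⟩ hy
    exact h2 y hy' i hi hy
  · rintro y hy' z ⟨i, hi, rfl⟩ hy
    exact h3 y hy' i hi hy

end art

section tree

variable {G : Type} [Group G]

/-- the graph of the cosets of two subgroups -/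
def cg (G₁ G₂ : Subgroup G) : SimpleGraph ((G ⧸ G₁) ⊕ (G ⧸ G₂)) where
  Adj u v := ∃ g : G, (u = Sum.inl (g : G ⧸ G₁) ∧ v = Sum.inr (g : G ⧸ G₂)) ∨
    (v = Sum.inl (g : G ⧸ G₁) ∧ u = Sum.inr (g : G ⧸ G₂))
  symm := ⟨fun _ _ ⟨g, h⟩ => ⟨g, h.symm⟩⟩
  loopless := ⟨by
    rintro v ⟨g, ⟨h1, h2⟩ | ⟨h1, h2⟩⟩
    · rw [h1] at h2
      exact Sum.inl_ne_inr h2
    · rw [h1] at h2
      exact Sum.inl_ne_inr h2⟩

/-- the universal property of the amalgam of `G₁` and `G₂` over `H` -/
def Amal (G₁ G₂ H : Subgroup G) : Prop := H ≤ G₁ ∧ H ≤ G₂ ∧ G₁ ⊔ G₂ = ⊤ ∧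
  ∀ (P : Type) [Group P] (f₁ : G₁ →* P) (f₂ : G₂ →* P),
    (∀ (h : G) (h1 : h ∈ G₁) (h2 : h ∈ G₂), h ∈ H → f₁ ⟨h, h1⟩ = f₂ ⟨h, h2⟩) →
    ∃ f : G →* P, (∀ g : G₁, f g = f₁ g) ∧ ∀ g : G₂, f g = f₂ g

end tree

end Pool.Agent.H75.INF
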