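import Pool.Agent.H75.INF.Mr

/-!
# [H75 INF KIL] intersections of parabolic subgroups (Kilmoyer)

`kil`: induction on `n = ℓ(x)` for all `x`. Let `y = u⁻¹ x u ∈ par L`, so `x * u = u * y`. If `x = 1` trivial. Otherwise `x` has a reduced
word in `K` (`mem_par_iff`) with first letter `k ∈ K`, `x = s_k x'`, `x' ∈ par K`, `ℓ(x') + 1 = ℓ(x)`. Lengths: `ℓ(x u) = ℓ(x) + ℓ(u)`:
`length_add` for the inverses (`isL_iff cs K u : IsL ↔ IsMin u⁻¹`, `length_inv`); also `ℓ(x' u) = ℓ(x') + ℓ(u)`; so `k` is a left descent of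
`x u = u y`; `ℓ(u y) = ℓ(u) + ℓ(y)` (`length_add`, `hL`). Let `α` be a reduced word of `u`, `β` a reduced word of `y` in `L`
(`mem_par_iff`); `α ++ β` is reduced. `exchange_left` deletes a letter. A letter of `α`: `s_k u y = π (α.eraseIdx j) y`, so `s_k u` is shorter
than `u`, a contradiction to `hK k`. A letter of `β`: `s_k u y = u ŷ`, `ŷ = π (β.eraseIdx j) ∈ par L`; so `s_k u = u t`, `t = ŷ y⁻¹ ∈ par L`,
`ℓ(s_k u) = ℓ(u) + 1` (`hK k hk`, `not_isLeftDescent_iff`) and `ℓ(u t) = ℓ(u) + ℓ(t)`, so `ℓ(t) = 1`; a reduced word of `t` in `L` is one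
letter `l ∈ L`, `t = s_l`. So `s_k * u = u * s_l` and `k` is in the set; `u⁻¹ x' u = s_l y` (`x' u = s_k x u = s_k u y = u s_l y`) is in `par L`:
induction for `x'`.
`inter_par`: let `v = g⁻¹ h` and let `u = a⁻¹ v b⁻¹` (`a ∈ par K`, `b ∈ par L`) have minimal length in the double coset (`Nat.find` or
`WellFounded.min` on the set of lengths; `a⁻¹`, `b⁻¹` range over the subgroups). Then `IsL cs K u` and `IsMin cs L u`. Take `g' = g a`,
`K' = {k ∈ K | ∃ l ∈ L, s_k u = u s_l}`. `x ∈ pc K g ⊓ pc L h` iff `y = (g a)⁻¹ x (g a) ∈ par K` (conjugation by `a ∈ par K`) and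
`u⁻¹ y u ∈ par L` (`h⁻¹ x h = b⁻¹ (u⁻¹ y u) b`). `kil` gives `y ∈ par K'`. Conversely `par K' ≤ par K` (`par_mono`) and
`u⁻¹ (par K') u ≤ par L` (closure induction: `u⁻¹ s_k u = s_l`). If `K' = K`: `x ∈ pc K g` gives `(g a)⁻¹ x (g a) ∈ par K = par K'`, so `x` is in the
intersection.
-/

set_option autoImplicit false

namespace Pool.Agent.H75.INF

open CoxeterSystem Pool.H8.CDW Pool.Agent.H52.PAG

variable {B W : Type*} [Group W] {M : CoxeterMatrix B} (cs : CoxeterSystem M W)

private theorem kil_len {K : Set B} {u : W} (hK : IsL cs K u) {κ : W} (hκ : κ ∈ par cs K) :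
    cs.length (κ * u) = cs.length κ + cs.length u := by
  have h1 : cs.length (u⁻¹ * κ⁻¹) = cs.length u⁻¹ + cs.length κ⁻¹ :=
    length_add cs ((isL_iff cs K u).1 hK) (inv_mem hκ)
  rw [← mul_inv_rev, cs.length_inv, cs.length_inv, cs.length_inv] at h1
  omega

private theorem kil_aux {K L : Set B} {u : W} (hK : IsL cs K u) (hL : IsMin cs L u) :
    ∀ (n : ℕ) (x : W), cs.length x = n → x ∈ par cs K → u⁻¹ * x * u ∈ par cs L →
      x ∈ par cs {k | k ∈ K ∧ ∃ l ∈ L, cs.simple k * u = u * cs.simple l} := by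
  intro n
  induction n with
  | zero =>
    intro x hn _ _
    rw [cs.length_eq_zero_iff.1 hn]
    exact one_mem _
  | succ n ih =>
    intro x hn hx hy
    obtain ⟨ω, hω, hred, hprod⟩ := (mem_par_iff cs).1 hx
    have hlen : ω.length = n + 1 := by rw [← hred.eq, hprod, hn]
    cases ω with
    | nil => simp at hlen
    | cons k ν =>
      have hk : k ∈ K := hω k List.mem_cons_self
      have hνK : ∀ i ∈ ν, i ∈ K := fun i hi => hω i (List.mem_cons_of_mem _ hi)
      have hνred := d2_red_tail cs hred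
      have hx' : cs.wordProd ν ∈ par cs K := b1_word_mem cs ν hνK
      have hν : cs.length (cs.wordProd ν) = n := by
        rw [hνred.eq]
        rw [List.length_cons] at hlen
        omega
      have hxν : x = cs.simple k * cs.wordProd ν := by
        rw [← hprod, cs.wordProd_cons]
      obtain ⟨y, hyd⟩ : ∃ y, y = u⁻¹ * x * u := ⟨_, rfl⟩
      rw [← hyd] at hy
      have hxu : x * u = u * y := by
        rw [hyd]
        group
      have h1 : cs.length (x * u) = n + 1 + cs.length u := by rw [kil_len cs hK hx, hn]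
      have h2 : cs.length (cs.wordProd ν * u) = n + cs.length u := by rw [kil_len cs hK hx', hν]
      have h3 : cs.length (u * y) = cs.length u + cs.length y := length_add cs hL hy
      have h4 : cs.simple k * (x * u) = cs.wordProd ν * u := by
        rw [hxν, ← mul_assoc, cs.simple_mul_simple_cancel_left]
      obtain ⟨α, hα, hαu⟩ := cs.exists_isReduced u
      obtain ⟨β, hβ, hβred, hβy⟩ := (mem_par_iff cs).1 hy
      have hlα : cs.length u = α.length := by rw [hαu]; exact hα
      have hlβ : cs.length y = β.length := by rw [← hβy]; exact hβred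
      have hpr : cs.wordProd (α ++ β) = u * y := by
        rw [cs.wordProd_append, ← hαu, hβy]
      have hr : cs.IsReduced (α ++ β) := by
        unfold CoxeterSystem.IsReduced
        rw [hpr, h3, hlα, hlβ, List.length_append]
      have hd : cs.IsLeftDescent (cs.wordProd (α ++ β)) k := by
        unfold CoxeterSystem.IsLeftDescent
        rw [hpr, ← hxu, h4, h1, h2]
        omega
      obtain ⟨j, hj, he⟩ := exchange_left cs hr hd
      rw [List.length_append] at hj
      have h5 : cs.length (cs.simple k * u) = cs.length u + 1 := cs.not_isLeftDescent_iff.1 (hK k hk)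
      rcases Nat.lt_or_ge j α.length with hj1 | hj1
      · exfalso
        rw [List.eraseIdx_append_of_lt_length hj1, hpr, cs.wordProd_append, hβy, ← mul_assoc] at he
        have h6 := mul_right_cancel he
        have h7 : cs.length (cs.simple k * u) ≤ (α.eraseIdx j).length := by
          rw [h6]
          exact cs.length_wordProd_le _
        rw [List.length_eraseIdx_of_lt hj1] at h7
        omega
      · rw [List.eraseIdx_append_of_length_le hj1, hpr, cs.wordProd_append, ← hαu] at he
        have hy2 : cs.wordProd (β.eraseIdx (j - α.length)) ∈ par cs L :=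
          b1_word_mem cs _ fun i hi => hβ i (List.mem_of_mem_eraseIdx hi)
        obtain ⟨t, ht⟩ : ∃ t, t = cs.wordProd (β.eraseIdx (j - α.length)) * y⁻¹ := ⟨_, rfl⟩
        have htL : t ∈ par cs L := by
          rw [ht]
          exact mul_mem hy2 (inv_mem hy)
        have hkt : cs.simple k * u = u * t := by
          rw [ht, ← mul_assoc, ← he]
          group
        have h6 : cs.length (u * t) = cs.length u + cs.length t := length_add cs hL htL
        have h7 : cs.length t = 1 := by
          rw [← hkt, h5] at h6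
          omega
        obtain ⟨τ, hτ, hτred, hτt⟩ := (mem_par_iff cs).1 htL
        have h8 : τ.length = 1 := by rw [← hτred.eq, hτt, h7]
        obtain ⟨l, rfl⟩ := List.length_eq_one_iff.1 h8
        rw [cs.wordProd_singleton] at hτt
        have hl : l ∈ L := hτ l (by simp)
        rw [← hτt] at hkt
        have hkm : k ∈ {k | k ∈ K ∧ ∃ l ∈ L, cs.simple k * u = u * cs.simple l} := ⟨hk, l, hl, hkt⟩
        have h9 : u⁻¹ * cs.wordProd ν * u = cs.simple l * y := by
          have e1 : cs.wordProd ν * u = u * (cs.simple l * y) := by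
            rw [← h4, hxu, ← mul_assoc, hkt, mul_assoc]
          rw [mul_assoc, e1, inv_mul_cancel_left]
        have h10 := ih (cs.wordProd ν) hν hx' (by
          rw [h9]
          exact mul_mem (simple_mem_par cs hl) hy)
        rw [hxν]
        exact mul_mem (simple_mem_par cs hkm) h10

theorem kil {K L : Set B} {u : W} (hK : IsL cs K u) (hL : IsMin cs L u) {x : W} (hx : x ∈ par cs K)
    (hy : u⁻¹ * x * u ∈ par cs L) :
    x ∈ par cs {k | k ∈ K ∧ ∃ l ∈ L, cs.simple k * u = u * cs.simple l} :=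
  kil_aux cs hK hL _ x rfl hx hy

private theorem conj_mem_iff {G : Type*} [Group G] (H : Subgroup G) {a z : G} (ha : a ∈ H) :
    a * z * a⁻¹ ∈ H ↔ z ∈ H := by
  rw [H.mul_mem_cancel_right (inv_mem ha), H.mul_mem_cancel_left ha]

theorem inter_par (K L : Set B) (g h : W) : ∃ (g' : W) (K' : Set B), K' ⊆ K ∧ pc cs K' g' = pc cs K g ⊓ pc cs L h ∧
    (K' = K → pc cs K g ≤ pc cs L h) := by
  classical
  have hex : ∃ n : ℕ, ∃ a ∈ par cs K, ∃ b ∈ par cs L, cs.length (a * (g⁻¹ * h) * b) = n :=
    ⟨_, 1, one_mem _, 1, one_mem _, rfl⟩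
  obtain ⟨a, ha, b, hb, hab⟩ := Nat.find_spec hex
  have hmin : ∀ a' ∈ par cs K, ∀ b' ∈ par cs L,
      cs.length (a * (g⁻¹ * h) * b) ≤ cs.length (a' * (g⁻¹ * h) * b') := by
    intro a' ha' b' hb'
    rw [hab]
    exact Nat.find_min' hex ⟨a', ha', b', hb', rfl⟩
  obtain ⟨u, hu⟩ : ∃ u, u = a * (g⁻¹ * h) * b := ⟨_, rfl⟩
  rw [← hu] at hmin
  have hK : IsL cs K u := by
    intro k hk hd
    unfold CoxeterSystem.IsLeftDescent at hd
    have h1 := hmin (cs.simple k * a) (mul_mem (simple_mem_par cs hk) ha) b hb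
    have h2 : cs.simple k * a * (g⁻¹ * h) * b = cs.simple k * u := by
      rw [hu]
      group
    rw [h2] at h1
    omega
  have hL : IsMin cs L u := by
    intro l hl hd
    unfold CoxeterSystem.IsRightDescent at hd
    have h1 := hmin a ha (b * cs.simple l) (mul_mem hb (simple_mem_par cs hl))
    have h2 : a * (g⁻¹ * h) * (b * cs.simple l) = u * cs.simple l := by
      rw [hu]
      group
    rw [h2] at h1
    omega
  obtain ⟨K', hK'⟩ : ∃ K' : Set B, K' = {k | k ∈ K ∧ ∃ l ∈ L, cs.simple k * u = u * cs.simple l} := ⟨_, rfl⟩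
  have hsub : K' ⊆ K := by
    rw [hK']
    exact fun k hk => hk.1
  have key : ∀ z : W, z ∈ par cs K' ↔ (z ∈ par cs K ∧ u⁻¹ * z * u ∈ par cs L) := by
    intro z
    constructor
    · intro hz
      refine ⟨par_mono cs hsub hz, ?_⟩
      unfold par at hz
      induction hz using Subgroup.closure_induction with
      | mem x hx =>
        obtain ⟨k, hk, rfl⟩ := hx
        rw [hK'] at hk
        obtain ⟨_, l, hl, he⟩ := hk
        rw [mul_assoc, he, inv_mul_cancel_left]
        exact simple_mem_par cs hl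
      | one =>
        rw [mul_one, inv_mul_cancel]
        exact one_mem _
      | mul x y _ _ hx hy =>
        have e : u⁻¹ * (x * y) * u = (u⁻¹ * x * u) * (u⁻¹ * y * u) := by group
        rw [e]
        exact mul_mem hx hy
      | inv x _ hx =>
        have e : u⁻¹ * x⁻¹ * u = (u⁻¹ * x * u)⁻¹ := by group
        rw [e]
        exact inv_mem hx
    · rintro ⟨h1, h2⟩
      rw [hK']
      exact kil cs hK hL h1 h2
  have e1 : ∀ x : W, x ∈ pc cs K g ↔ a * (g⁻¹ * x * g) * a⁻¹ ∈ par cs K := fun x =>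
    (conj_mem_iff (par cs K) ha).symm
  have e2 : ∀ x : W, x ∈ pc cs L h ↔ u⁻¹ * (a * (g⁻¹ * x * g) * a⁻¹) * u ∈ par cs L := by
    intro x
    have e3 : u⁻¹ * (a * (g⁻¹ * x * g) * a⁻¹) * u = b⁻¹ * (h⁻¹ * x * h) * (b⁻¹)⁻¹ := by
      rw [hu]
      group
    rw [e3]
    exact (conj_mem_iff (par cs L) (inv_mem hb)).symm
  have e4 : ∀ x : W, x ∈ pc cs K' (g * a⁻¹) ↔ a * (g⁻¹ * x * g) * a⁻¹ ∈ par cs K' := by
    intro x
    rw [mem_pc]
    have e5 : (g * a⁻¹)⁻¹ * x * (g * a⁻¹) = a * (g⁻¹ * x * g) * a⁻¹ := by group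
    rw [e5]
  refine ⟨g * a⁻¹, K', hsub, ?_, ?_⟩
  · ext x
    rw [e4, key, Subgroup.mem_inf, e1, e2]
  · intro hKK x hx
    rw [e1, ← hKK, key] at hx
    exact (e2 x).2 hx.2

end Pool.Agent.H75.INF
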