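import Pool.Agent.H75.INF.Cyp

/-!
# [H75 INF VDL] van der Lek: the subgroup `ap M K` is the Artin group of the restricted matrix

`vdl_word`: let `c` be a cocycle for `f` (`exists_cz`). For a word `ω` with letters in `K` and `y ∈ par K`: `outs y ω = ω` (induction:
`On y r` as `y s_r y⁻¹ ∈ par`; `ltr y r = r` by `ltr_eq`, `mr y = 1`, `mr_mem`). So `wv f ω = wv f (outs 1 ω) = c 1 (wv (gen M) ω) = c 1 1 = 1`.
`exists_inc`: `ι = PAG.lift (fun k => gen M k)` (`gen_rel`, `resM_apply`). Injective: let `f b = gen (resM M K) ⟨b, h⟩` for `b ∈ K`, `1`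
otherwise; `Br M K f`; let `c` be a cocycle for `f`; `x ↦ c 1 (ι x)` is a homomorphism (`base_mul`, `ι x ∈ ap M K`) and the identity on the
generators (`base_gen`), so it is the identity (`art_ext`). Range: `MonoidHom.map_closure`, `art_closure`.
`ap_of_res`, `res_of_ap`: `hC.iso` or `hC.of_injective` with `ι` and its inverse on the range. `ap_res`: `ι` maps `ap (resM M K) L` injectively
into `ap M (Subtype.val '' L)` (closure): `hC.of_injective`.
-/

set_option autoImplicit false

namespace Pool.Agent.H75.INF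

open CoxeterSystem Pool.H8.CDW Pool.Agent.H52.PAG Pool.Agent.H98.FJ

variable {B : Type} (M : CoxeterMatrix B)

private theorem outs_self {K : Set B} (ω : List (B × Bool)) (hω : ∀ x ∈ ω, x.1 ∈ K) :
    ∀ y ∈ par M.toCoxeterSystem K, outs M.toCoxeterSystem K y ω = ω := by
  induction ω with
  | nil => exact fun _ _ => rfl
  | cons l ω ih =>
    intro y hy
    have hl : l.1 ∈ K := hω l List.mem_cons_self
    have hs : M.toCoxeterSystem.simple l.1 ∈ par M.toCoxeterSystem K := simple_mem_par _ hl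
    have h : On M.toCoxeterSystem K y l.1 := mul_mem (mul_mem hy hs) (inv_mem hy)
    have h1 : mr M.toCoxeterSystem K y = 1 := (mr_mem M.toCoxeterSystem hy).1
    have h2 : ltr M.toCoxeterSystem K y l.1 = l.1 := by
      refine ltr_eq M.toCoxeterSystem h ?_
      rw [h1, one_mul, mul_one]
    rw [outs, if_pos h, h2, ih (fun x hx => hω x (List.mem_cons_of_mem _ hx)) _ (mul_mem hy hs)]

theorem vdl_word {K : Set B} {N : Type*} [Group N] {f : B → N} (hf : Br M K f) {ω : List (B × Bool)}
    (hω : ∀ x ∈ ω, x.1 ∈ K) (h : wv (gen M) ω = 1) : wv f ω = 1 := by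
  obtain ⟨c, hc⟩ := exists_cz M K f hf
  have h1 := hc.word 1 ω
  rw [h, hc.one, outs_self M ω hω 1 (one_mem _)] at h1
  exact h1.symm

theorem exists_inc (K : Set B) : ∃ ι : Art (resM M K) →* Art M, Function.Injective ι ∧
    (∀ k : K, ι (gen (resM M K) k) = gen M k.1) ∧ ι.range = ap M K := by
  classical
  let ι : Art (resM M K) →* Art M := lift (M := resM M K) (fun k : K => gen M k.1) (fun i j h => by
    exact gen_rel (M := M) h)
  have hι : ∀ k : K, ι (gen (resM M K) k) = gen M k.1 := fun k => lift_gen _ _ k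
  have hr : ι.range = ap M K := by
    rw [MonoidHom.range_eq_map, ← art_closure (resM M K), MonoidHom.map_closure]
    unfold ap
    congr 1
    ext x
    constructor
    · rintro ⟨_, ⟨k, rfl⟩, rfl⟩
      exact ⟨k.1, k.2, (hι k).symm⟩
    · rintro ⟨b, hb, rfl⟩
      exact ⟨_, ⟨⟨b, hb⟩, rfl⟩, hι ⟨b, hb⟩⟩
  have hmem : ∀ x, ι x ∈ ap M K := fun x => by
    rw [← hr]
    exact ⟨x, rfl⟩
  let f : B → Art (resM M K) := fun b => if h : b ∈ K then gen (resM M K) ⟨b, h⟩ else 1
  have hfk : ∀ (b : B) (h : b ∈ K), f b = gen (resM M K) ⟨b, h⟩ := fun b h => dif_pos h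
  have hf : Br M K f := by
    intro i hi j hj h
    rw [hfk i hi, hfk j hj]
    exact gen_rel (M := resM M K) (i := ⟨i, hi⟩) (j := ⟨j, hj⟩) h
  obtain ⟨c, hc⟩ := exists_cz M K f hf
  let ψ : Art (resM M K) →* Art (resM M K) :=
    { toFun := fun x => c 1 (ι x)
      map_one' := by
        rw [map_one, hc.one]
      map_mul' := fun x y => by
        rw [map_mul, hc.base_mul (hmem x)] }
  have hψ : ψ = MonoidHom.id _ := by
    refine art_ext fun k => ?_
    change c 1 (ι (gen (resM M K) k)) = gen (resM M K) k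
    rw [hι, hc.base_gen k.2, hfk k.1 k.2]
  refine ⟨ι, ?_, hι, hr⟩
  intro x y hxy
  have h1 : ψ x = ψ y := congrArg (c 1) hxy
  rw [hψ] at h1
  exact h1

variable {C : (G : Type) → [Group G] → Prop}

theorem ap_of_res (hC : Inherits C) {K : Set B} (h : C (Art (resM M K))) : C (ap M K) := by
  obtain ⟨ι, hi, -, hr⟩ := exists_inc M K
  exact hC.iso _ _ ((MonoidHom.ofInjective hi).trans (MulEquiv.subgroupCongr hr)) h

theorem res_of_ap (hC : Inherits C) {K : Set B} (h : C (ap M K)) : C (Art (resM M K)) := by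
  obtain ⟨ι, hi, -, hr⟩ := exists_inc M K
  exact hC.iso _ _ ((MonoidHom.ofInjective hi).trans (MulEquiv.subgroupCongr hr)).symm h

theorem ap_res (hC : Inherits C) {K : Set B} {L : Set K} (h : C (ap M (Subtype.val '' L))) :
    C (ap (resM M K) L) := by
  obtain ⟨ι, hi, hg, -⟩ := exists_inc M K
  have hmem : ∀ x ∈ ap (resM M K) L, ι x ∈ ap M (Subtype.val '' L) := by
    intro x hx
    have h1 : ι x ∈ (ap (resM M K) L).map ι := ⟨x, hx, rfl⟩
    unfold ap at h1
    rw [MonoidHom.map_closure] at h1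
    refine Subgroup.closure_mono ?_ h1
    rintro _ ⟨_, ⟨k, hk, rfl⟩, rfl⟩
    exact ⟨k.1, ⟨k, hk, rfl⟩, (hg k).symm⟩
  refine hC.of_injective ((ι.comp (ap (resM M K) L).subtype).codRestrict (ap M (Subtype.val '' L))
    fun x => hmem x.1 x.2) ?_ h
  intro x y hxy
  exact Subtype.ext (hi (congrArg Subtype.val hxy))

end Pool.Agent.H75.INF
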