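import Pool.Agent.H75.INF.Coc

/-!
# [H75 INF CYP] properties of the cocycle

`inv`: `c y (a⁻¹ * ...)`: `1 = c (y * (toCox a)⁻¹) (a * a⁻¹) = c (y * (toCox a)⁻¹) a * c y a⁻¹`. `par_left`: `art_induction`; `on_par`,
`ltr_par`; `toCox` acts on the right, so the left factor `κ` stays. `gen_inv`: `inv` and `s_r⁻¹ = s_r`, `on_step`, `ltr_step`.
`word`: induction on `ω` for all `y`: `wv_cons`, `mul`, `on`, `off`, `gen_inv`; `toCox` of a letter or its inverse is `s_r`.
`base_gen`: `1 * s_k * 1⁻¹ ∈ par` (`simple_mem_par`), `mr 1 = 1` (`mr_mem`), `ltr_eq`. `mem`: `art_induction` with `word`, or: the values on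
letters are in `ap` (`step_on`). `base`: `ap_induction`: `toCox x ∈ par K` (`toCox_mem`), `c 1 (x * gen k) = c 1 x * c (toCox x) (gen k)`,
`par_left` (with `y = 1`), `base_gen`. `exists_word`: `art_induction`, append `[(r, true)]` or `[(r, false)]`. `toCox_wv`, `wls_append` are
not needed.
`par_zero`: `c (κ * y) h = c y h`. `conj`: for `toCox x ∈ par K`... : `c y (a * x * a⁻¹) = c y a * c 1 x * (c y a)⁻¹` when `y * toCox a ∈ par K`
and `toCox x ∈ par K`: `mul` twice, `par_left`, and `c (y * toCox a) a⁻¹ = (c y a)⁻¹` by `inv`.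
-/

set_option autoImplicit false

namespace Pool.Agent.H75.INF

open CoxeterSystem Pool.H8.CDW Pool.Agent.H52.PAG

variable {B : Type} {M : CoxeterMatrix B}

private theorem wv_append' {N : Type*} [Group N] (f : B → N) (ω ω' : List (B × Bool)) :
    wv f (ω ++ ω') = wv f ω * wv f ω' := by
  unfold wv
  rw [List.map_append, List.prod_append]

theorem exists_word (a : Art M) : ∃ ω : List (B × Bool), wv (gen M) ω = a := by
  induction a using art_induction with
  | h1 => exact ⟨[], rfl⟩
  | h2 x i hx =>
    obtain ⟨ω, rfl⟩ := hx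
    refine ⟨ω ++ [(i, true)], ?_⟩
    rw [wv_append', wv_cons, wv_nil, mul_one]
    rfl
  | h3 x i hx =>
    obtain ⟨ω, rfl⟩ := hx
    refine ⟨ω ++ [(i, false)], ?_⟩
    rw [wv_append', wv_cons, wv_nil, mul_one]
    rfl

theorem toCox_mem {K : Set B} {x : Art M} (hx : x ∈ ap M K) : toCox M x ∈ par M.toCoxeterSystem K := by
  refine ap_induction (P := fun x => toCox M x ∈ par M.toCoxeterSystem K) ?_ ?_ ?_ hx
  · change toCox M 1 ∈ par M.toCoxeterSystem K
    rw [map_one]
    exact one_mem _
  · intro x _ k hk h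
    change toCox M (x * gen M k) ∈ par M.toCoxeterSystem K
    rw [map_mul, toCox_gen']
    exact mul_mem h (simple_mem_par _ hk)
  · intro x _ k hk h
    change toCox M (x * (gen M k)⁻¹) ∈ par M.toCoxeterSystem K
    rw [map_mul, map_inv, toCox_gen']
    exact mul_mem h (inv_mem (simple_mem_par _ hk))

namespace IsCz

variable {K : Set B} {N : Type*} [Group N] {f : B → N} {c : M.Group → Art M → N} (hc : IsCz M K f c)
include hc

theorem inv (y : M.Group) (a : Art M) : c y a⁻¹ = (c (y * (toCox M a)⁻¹) a)⁻¹ := by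
  have h := hc.mul y a⁻¹ a
  rw [inv_mul_cancel, hc.one, map_inv] at h
  exact eq_inv_of_mul_eq_one_left h.symm

private theorem gen_par {κ : M.Group} (hκ : κ ∈ par M.toCoxeterSystem K) (y : M.Group) (r : B) :
    c (κ * y) (gen M r) = c y (gen M r) := by
  by_cases h : On M.toCoxeterSystem K y r
  · rw [hc.on y r h, hc.on _ r ((on_par M.toCoxeterSystem hκ y r).2 h), ltr_par M.toCoxeterSystem hκ]
  · rw [hc.off y r h, hc.off _ r fun h' => h ((on_par M.toCoxeterSystem hκ y r).1 h')]

theorem par_left {κ : M.Group} (hκ : κ ∈ par M.toCoxeterSystem K) (y : M.Group) (a : Art M) :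
    c (κ * y) a = c y a := by
  induction a using art_induction with
  | h1 => rw [hc.one, hc.one]
  | h2 x i hx => rw [hc.mul, hc.mul, hx, mul_assoc, hc.gen_par hκ]
  | h3 x i hx =>
    rw [hc.mul, hc.mul, hx, hc.inv, hc.inv, mul_assoc κ, mul_assoc κ, hc.gen_par hκ]

theorem gen_inv_on {y : M.Group} {r : B} (h : On M.toCoxeterSystem K y r) :
    c y (gen M r)⁻¹ = (f (ltr M.toCoxeterSystem K y r))⁻¹ := by
  rw [hc.inv, toCox_gen', CoxeterSystem.inv_simple, hc.on _ r ((on_step M.toCoxeterSystem K y r).2 h),
    ltr_step M.toCoxeterSystem h]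

theorem gen_inv_off {y : M.Group} {r : B} (h : ¬ On M.toCoxeterSystem K y r) : c y (gen M r)⁻¹ = 1 := by
  rw [hc.inv, toCox_gen', CoxeterSystem.inv_simple,
    hc.off _ r fun h' => h ((on_step M.toCoxeterSystem K y r).1 h'), inv_one]

theorem word (y : M.Group) (ω : List (B × Bool)) :
    c y (wv (gen M) ω) = wv f (outs M.toCoxeterSystem K y ω) := by
  induction ω generalizing y with
  | nil => exact hc.one y
  | cons l ω ih =>
    obtain ⟨r, b⟩ := l
    have ht : toCox M (if b then gen M r else (gen M r)⁻¹) = M.toCoxeterSystem.simple r := by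
      cases b with
      | true => exact toCox_gen' r
      | false =>
        change toCox M (gen M r)⁻¹ = _
        rw [map_inv, toCox_gen', CoxeterSystem.inv_simple]
    rw [wv_cons, hc.mul]
    change c y (if b then gen M r else (gen M r)⁻¹) *
      c (y * toCox M (if b then gen M r else (gen M r)⁻¹)) (wv (gen M) ω) = _
    rw [ht, ih]
    by_cases h : On M.toCoxeterSystem K y r
    · have e1 : outs M.toCoxeterSystem K y ((r, b) :: ω) =
          (ltr M.toCoxeterSystem K y r, b) :: outs M.toCoxeterSystem K (y * M.toCoxeterSystem.simple r) ω := by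
        rw [outs]
        exact if_pos h
      rw [e1, wv_cons]
      congr 1
      cases b with
      | true => exact hc.on y r h
      | false => exact hc.gen_inv_on h
    · have e1 : outs M.toCoxeterSystem K y ((r, b) :: ω) =
          outs M.toCoxeterSystem K (y * M.toCoxeterSystem.simple r) ω := by
        rw [outs]
        exact if_neg h
      rw [e1]
      have e2 : c y (if b then gen M r else (gen M r)⁻¹) = 1 := by
        cases b with
        | true => exact hc.off y r h
        | false => exact hc.gen_inv_off h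
      rw [e2, one_mul]

omit hc in
private theorem on_one {k : B} (hk : k ∈ K) : On M.toCoxeterSystem K 1 k := by
  unfold On
  rw [one_mul, inv_one, mul_one]
  exact simple_mem_par _ hk

omit hc in
private theorem ltr_one {k : B} (hk : k ∈ K) : ltr M.toCoxeterSystem K 1 k = k := by
  refine ltr_eq M.toCoxeterSystem (on_one hk) ?_
  have h1 : mr M.toCoxeterSystem K (1 : M.Group) = 1 := (mr_mem M.toCoxeterSystem (one_mem _)).1
  rw [h1, one_mul, mul_one]

theorem base_gen {k : B} (hk : k ∈ K) : c 1 (gen M k) = f k := by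
  rw [hc.on 1 k (on_one hk), ltr_one hk]

/-- the restriction to `ap M K` is a homomorphism -/
theorem base_mul {x : Art M} (hx : x ∈ ap M K) (a : Art M) : c 1 (x * a) = c 1 x * c 1 a := by
  rw [hc.mul]
  congr 1
  have h := hc.par_left (toCox_mem hx) 1 a
  rw [mul_one] at h
  rw [one_mul]
  exact h

theorem conj {y : M.Group} {a x : Art M} (ha : y * toCox M a ∈ par M.toCoxeterSystem K)
    (hx : toCox M x ∈ par M.toCoxeterSystem K) : c y (a * x * a⁻¹) = c y a * c 1 x * (c y a)⁻¹ := by
  have h1 : c (y * toCox M a) x = c 1 x := by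
    have h := hc.par_left ha 1 x
    rwa [mul_one] at h
  have h2 : c (y * toCox M (a * x)) a⁻¹ = (c y a)⁻¹ := by
    have e : y * toCox M (a * x) =
        ((y * toCox M a) * toCox M x * (y * toCox M a)⁻¹) * (y * toCox M a) := by
      rw [map_mul]
      group
    rw [e, hc.par_left (mul_mem (mul_mem ha hx) (inv_mem ha)), hc.inv, mul_inv_cancel_right]
  rw [hc.mul, hc.mul, h1, h2]

end IsCz

theorem cy_mem (K : Set B) (y : M.Group) (a : Art M) : cy M K y a ∈ ap M K := by
  have hc := cy_spec M K
  have hg : ∀ (y : M.Group) (r : B), cy M K y (gen M r) ∈ ap M K := by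
    intro y r
    by_cases h : On M.toCoxeterSystem K y r
    · rw [hc.on y r h]
      exact gen_mem_ap (step_on M.toCoxeterSystem h).1
    · rw [hc.off y r h]
      exact one_mem _
  induction a using art_induction with
  | h1 =>
    rw [hc.one]
    exact one_mem _
  | h2 x i hx =>
    rw [hc.mul]
    exact mul_mem hx (hg _ _)
  | h3 x i hx =>
    rw [hc.mul, hc.inv]
    exact mul_mem hx (inv_mem (hg _ _))

theorem cy_base {K : Set B} {x : Art M} (hx : x ∈ ap M K) : cy M K 1 x = x := by
  have hc := cy_spec M K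
  refine ap_induction (P := fun x => cy M K 1 x = x) ?_ ?_ ?_ hx
  · exact hc.one 1
  · intro x hx k hk h
    change cy M K 1 (x * gen M k) = x * gen M k
    rw [hc.base_mul hx, h, hc.base_gen hk]
  · intro x hx k hk h
    change cy M K 1 (x * (gen M k)⁻¹) = x * (gen M k)⁻¹
    rw [hc.base_mul hx, h, hc.gen_inv_on (IsCz.on_one hk), IsCz.ltr_one hk]

end Pool.Agent.H75.INF
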