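import Pool.Agent.H93.TR.Main

/-!
# [H75 INF COR] kernels in subgroups of finite index

Let `N' = (N.map K.subtype).normalCore`. It is normal in `G`, contained in `N.map K.subtype ≤ K`. By `IsKer.index` it suffices that
`N'.subgroupOf K` is `IsKer`. For `g : G` let `N_g` be the subgroup of the `k : K` with `g⁻¹ k g ∈ N` (it is the `comap` of `N` under the
automorphism `k ↦ g⁻¹ k g` of `K`, `MulAut.conjNormal g⁻¹`, so `IsKer.comap`). `N_g` depends only on the coset `g K` (`N` is normal in `K`,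
`IsKer.normal`), `G ⧸ K` is finite, so `⨅ (x : G ⧸ K), N_(x.out)` is `IsKer` (`IsKer.inf`) and equal to `⨅ g, N_g = N'.subgroupOf K`.
-/

set_option autoImplicit false

namespace Pool.Agent.H75.INF

open Pool.Agent.H93.TR Pool.Agent.H98.FJ

variable {C : (G : Type) → [Group G] → Prop}

theorem isKer_core (hC : Inherits C) {G : Type} [Group G] (K : Subgroup G) (hn : K.Normal) (hK : K.FiniteIndex)
    (N : Subgroup K) (hN : IsKer C N) :
    ∃ N' : Subgroup G, IsKer C N' ∧ ∀ x ∈ N', ∃ h : x ∈ K, (⟨x, h⟩ : K) ∈ N := by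
  have hNn : N.Normal := hN.normal
  have hle : ∀ x ∈ (N.map K.subtype).normalCore, ∃ h : x ∈ K, (⟨x, h⟩ : K) ∈ N := by
    intro x hx
    have h1 : x ∈ N.map K.subtype := Subgroup.normalCore_le _ hx
    obtain ⟨y, hy, rfl⟩ := h1
    exact ⟨y.2, hy⟩
  refine ⟨(N.map K.subtype).normalCore, ?_, hle⟩
  refine IsKer.index hC (Subgroup.normalCore_normal _) K hK (fun x hx => (hle x hx).1) ?_
  have hfin : Finite (G ⧸ K) := Subgroup.finite_quotient_of_finiteIndex
  have hind : ∀ (g : G) (k : K) (y : K), MulAut.conjNormal (g * (k : G))⁻¹ y ∈ N ↔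
      MulAut.conjNormal g⁻¹ y ∈ N := by
    intro g k y
    have h1 : MulAut.conjNormal (g * (k : G))⁻¹ y = k⁻¹ * MulAut.conjNormal g⁻¹ y * k⁻¹⁻¹ := by
      apply Subtype.ext
      rw [MulAut.conjNormal_apply, Subgroup.coe_mul, Subgroup.coe_mul, MulAut.conjNormal_apply]
      simp only [Subgroup.coe_inv, mul_inv_rev, inv_inv, mul_assoc]
    rw [h1]
    constructor
    · intro h2
      have h3 := hNn.conj_mem _ h2 k
      have h4 : k * (k⁻¹ * MulAut.conjNormal g⁻¹ y * k⁻¹⁻¹) * k⁻¹ = MulAut.conjNormal g⁻¹ y := by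
        group
      rwa [h4] at h3
    · intro h2
      exact hNn.conj_mem _ h2 k⁻¹
  have heq : (N.map K.subtype).normalCore.subgroupOf K =
      ⨅ x : G ⧸ K, N.comap (MulAut.conjNormal (x.out)⁻¹ : MulAut K).toMonoidHom := by
    ext y
    rw [Subgroup.mem_subgroupOf, Subgroup.mem_iInf]
    constructor
    · intro hy x
      rw [Subgroup.mem_comap]
      have h1 := hy (x.out)⁻¹
      obtain ⟨z, hz, hz1⟩ := h1
      have h2 : z = MulAut.conjNormal (x.out)⁻¹ y := by
        apply Subtype.ext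
        rw [MulAut.conjNormal_apply]
        exact hz1
      rw [h2] at hz
      exact hz
    · intro hy b
      have h1 := hy ((b⁻¹ : G) : G ⧸ K)
      rw [Subgroup.mem_comap] at h1
      obtain ⟨k, hk⟩ := QuotientGroup.mk_out_eq_mul K b⁻¹
      rw [hk] at h1
      have h2 : MulAut.conjNormal (b⁻¹)⁻¹ y ∈ N := (hind b⁻¹ k y).1 h1
      refine ⟨_, h2, ?_⟩
      rw [inv_inv]
      exact MulAut.conjNormal_apply b y
  rw [heq]
  exact IsKer.inf hC _ fun x => hN.comap _

end Pool.Agent.H75.INF
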