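import Pool.Agent.H75.INF.Cyp

/-!
# [H75 INF FAM] the family of the kernels of the cocycle along an orbit

Let `G = gw M w`, `P = par J`. `G` acts on `M.Group ⧸ P` through `toCox` (`MulAction.compHom`); `I` is the orbit of `i₀ = (v⁻¹ : M.Group ⧸ P)`
(`MulAction.orbit`, with its action), i.e. the set of the cosets `w ^ j v⁻¹ P`. For `i ∈ I` let `y i = (i.out)⁻¹`. By `par_left`:
if `i = (x : M.Group ⧸ P)` then `cy J (y i) h = cy J x⁻¹ h` for all `h` (`x = i.out * κ`, `κ ∈ P`) (*).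
`Ψ : G →* ap M K × M.Group`, `h ↦ (cy K u h, toCox h)` is a homomorphism: `cy K u (h h') = cy K u h * cy K (u * toCox h) h'`, `toCox h = w ^ i`,
`hpsi`; `cy_mem`. `L = Ψ.ker` is `IsKer` (`hC.pi` or the product of two groups in the class: see `prod_mem` in `H54/AR` or `hC.of_injective` into
`∀ b : Bool, ..`). For `h ∈ L`: `toCox h = 1`, `cy K u h = 1`. `h ↦ cy J y h` is a homomorphism on `L` for every `y`
(`toCox h = 1`). Let `Wf i = {h ∈ L | cy J (y i) h = 1}`.
`Fam G I L Wf`: normal: `MonoidHom.normal_ker`. triv: `toCox l = 1`. le: clear. conj: `g • i = (toCox g * i.out : ..)`, so by (*)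
`cy J (y (g • i)) (g x g⁻¹) = cy J (i.out⁻¹ * (toCox g)⁻¹) (g x g⁻¹) = cy J _ g * cy J (y i) x * cy J (y i * toCox x) g⁻¹`
(`mul`), `toCox x = 1`, `cy J (y i) x = 1`, and `cy J _ g * cy J (y i) g⁻¹ = cy J _ (g g⁻¹) = 1`. fin: `l ∈ L`: the set of the `i ∈ I` with
`l ∉ Wf i` is contained in the image of `{j | cy J (v * w ^ j) l ≠ 1}` (finite by `hfin`) under `j ↦ (w ^ (-j) v⁻¹ : ..)`.
Stabilisers: on `S = stabilizer G i` the map `h ↦ cy J (y i) h` is a homomorphism to `ap M J`: `y i * toCox h ∈ P * y i`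
(`h • i = i`), `par_left`. `(Wf i).subgroupOf S` is the intersection of its kernel and of `L.subgroupOf S` (`IsKer.comap`, `IsKer.inf_two`).
`fam_ker` (with `wz_mem`): `N = ⨅ i, Wf i` is `IsKer`. For `h ∈ N`: `h ∈ Wf i₀ ≤ L`, so `toCox h = 1`, and `cy J v h = 1` by (*).
-/

set_option autoImplicit false

namespace Pool.Agent.H75.INF

open CoxeterSystem Pool.H8.CDW Pool.Agent.H52.PAG Pool.Agent.H93.TR Pool.Agent.H98.FJ

variable {C : (G : Type) → [Group G] → Prop} {B : Type} (M : CoxeterMatrix B)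

/-- the subgroup of `L` on which the cocycle at `y` is trivial -/
private def wf (J : Set B) (w : M.Group) (L : Subgroup (gw M w)) (hL : ∀ h ∈ L, toCox M (h : Art M) = 1)
    (y : M.Group) : Subgroup (gw M w) where
  carrier := {h | h ∈ L ∧ cy M J y (h : Art M) = 1}
  mul_mem' := by
    rintro a b ⟨ha, ha'⟩ ⟨hb, hb'⟩
    refine ⟨L.mul_mem ha hb, ?_⟩
    rw [Subgroup.coe_mul, (cy_spec M J).mul, hL a ha, mul_one, ha', hb', mul_one]
  one_mem' := ⟨L.one_mem, by rw [Subgroup.coe_one, (cy_spec M J).one]⟩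
  inv_mem' := by
    rintro a ⟨ha, ha'⟩
    refine ⟨L.inv_mem ha, ?_⟩
    rw [Subgroup.coe_inv, (cy_spec M J).inv, hL a ha, inv_one, mul_one, ha', inv_one]

private theorem mem_wf {J : Set B} {w : M.Group} {L : Subgroup (gw M w)} {hL : ∀ h ∈ L, toCox M (h : Art M) = 1}
    {y : M.Group} {h : gw M w} : h ∈ wf M J w L hL y ↔ h ∈ L ∧ cy M J y (h : Art M) = 1 := Iff.rfl

/-- the stabiliser of the base point -/
private def s0 (J : Set B) (w v : M.Group) : Subgroup (gw M w) :=
  (pc M.toCoxeterSystem J v⁻¹).comap ((toCox M).comp (gw M w).subtype)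

private theorem mem_s0 {J : Set B} {w v : M.Group} {h : gw M w} :
    h ∈ s0 M J w v ↔ v * toCox M (h : Art M) * v⁻¹ ∈ par M.toCoxeterSystem J := by
  unfold s0
  rw [Subgroup.mem_comap, mem_pc, inv_inv]
  rfl

private theorem cy_s0 {J : Set B} {w v : M.Group} {s : gw M w} (hs : s ∈ s0 M J w v) (z : M.Group) (h : Art M) :
    cy M J (v * toCox M (s : Art M) * z) h = cy M J (v * z) h := by
  have h1 : v * toCox M (s : Art M) * z = (v * toCox M (s : Art M) * v⁻¹) * (v * z) := by group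
  rw [h1, (cy_spec M J).par_left ((mem_s0 M).1 hs)]

/-- the value at a point of the orbit does not depend on the representative -/
private theorem cy_out {J : Set B} {w v : M.Group} (g : gw M w) (h : Art M) :
    cy M J (v * (toCox M (((g : gw M w ⧸ s0 M J w v).out : gw M w) : Art M))⁻¹) h =
      cy M J (v * (toCox M (g : Art M))⁻¹) h := by
  obtain ⟨s, hs⟩ := QuotientGroup.mk_out_eq_mul (s0 M J w v) g
  rw [hs, Subgroup.coe_mul, map_mul, mul_inv_rev, ← mul_assoc]
  have h1 := cy_s0 M ((s0 M J w v).inv_mem s.2) (toCox M (g : Art M))⁻¹ h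
  rwa [Subgroup.coe_inv, map_inv] at h1

theorem fam_cy (hC : Inherits C) (hE : Extension C) (K J : Set B) (hK : C (ap M K)) (hJ : C (ap M J))
    (hW : C M.Group) (w u v : M.Group) (hpsi : ∀ (i : ℤ) (h : Art M), cy M K (u * w ^ i) h = cy M K u h)
    (hfin : ∀ h : Art M, cy M K u h = 1 → {j : ℤ | cy M J (v * w ^ j) h ≠ 1}.Finite) :
    ∃ N : Subgroup (gw M w), IsKer C N ∧ ∀ h ∈ N, toCox M (h : Art M) = 1 ∧ cy M J v (h : Art M) = 1 := by
  classical
  obtain ⟨ψ, hψ⟩ : ∃ ψ : gw M w →* ap M K, ∀ h : gw M w, ((ψ h : ap M K) : Art M) = cy M K u (h : Art M) := by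
    refine ⟨MonoidHom.mk' (fun h => ⟨cy M K u (h : Art M), cy_mem K u (h : Art M)⟩) ?_, fun h => rfl⟩
    intro a b
    apply Subtype.ext
    change cy M K u ((a * b : gw M w) : Art M) = cy M K u (a : Art M) * cy M K u (b : Art M)
    obtain ⟨i, hi⟩ := mem_gw.1 a.2
    rw [Subgroup.coe_mul, (cy_spec M K).mul, ← hi, hpsi]
  obtain ⟨L, hLd⟩ : ∃ L : Subgroup (gw M w), L = ((toCox M).comp (gw M w).subtype).ker ⊓ ψ.ker := ⟨_, rfl⟩
  have hLm : ∀ h : gw M w, h ∈ L ↔ toCox M (h : Art M) = 1 ∧ cy M K u (h : Art M) = 1 := by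
    intro h
    rw [hLd, Subgroup.mem_inf, MonoidHom.mem_ker, MonoidHom.mem_ker]
    constructor
    · rintro ⟨h1, h2⟩
      refine ⟨h1, ?_⟩
      rw [← hψ, h2]
      rfl
    · rintro ⟨h1, h2⟩
      refine ⟨h1, Subtype.ext ?_⟩
      rw [hψ, h2]
      rfl
  have hLK : IsKer C L := by
    rw [hLd]
    exact IsKer.inf_two hC ⟨M.Group, inferInstance, _, hW, rfl⟩ ⟨ap M K, inferInstance, ψ, hK, rfl⟩
  have hL : ∀ h ∈ L, toCox M (h : Art M) = 1 := fun h hh => ((hLm h).1 hh).1
  obtain ⟨Wf, hWf⟩ : ∃ Wf : (gw M w ⧸ s0 M J w v) → Subgroup (gw M w),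
      ∀ i, Wf i = wf M J w L hL (v * (toCox M ((i.out : gw M w) : Art M))⁻¹) := ⟨_, fun _ => rfl⟩
  have hWm : ∀ (g h : gw M w), h ∈ Wf (g : gw M w ⧸ s0 M J w v) ↔
      h ∈ L ∧ cy M J (v * (toCox M (g : Art M))⁻¹) (h : Art M) = 1 := by
    intro g h
    rw [hWf, mem_wf, cy_out]
  have hFam : Fam (gw M w) (gw M w ⧸ s0 M J w v) L Wf := by
    refine ⟨hLK.normal, ?_, ?_, ?_, ?_⟩
    · intro l hl i
      induction i using QuotientGroup.induction_on with
      | _ g =>
        rw [MulAction.Quotient.smul_mk]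
        refine (QuotientGroup.eq.2 ?_).symm
        rw [mem_s0, smul_eq_mul]
        have h1 : toCox M ((g⁻¹ * (l * g) : gw M w) : Art M) = 1 := by
          rw [Subgroup.coe_mul, Subgroup.coe_mul, Subgroup.coe_inv, map_mul, map_mul, map_inv, hL l hl, one_mul,
            inv_mul_cancel]
        rw [h1, mul_one, mul_inv_cancel]
        exact one_mem _
    · intro i x hx
      rw [hWf, mem_wf] at hx
      exact hx.1
    · intro g i x hx
      induction i using QuotientGroup.induction_on with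
      | _ g₀ =>
        rw [MulAction.Quotient.smul_mk, hWm]
        obtain ⟨hx1, hx2⟩ := (hWm _ _).1 hx
        refine ⟨hLK.normal.conj_mem x hx1 g, ?_⟩
        obtain ⟨y, hy⟩ : ∃ y, y = v * (toCox M (g₀ : Art M))⁻¹ := ⟨_, rfl⟩
        rw [← hy] at hx2
        have h1 : v * (toCox M ((g • g₀ : gw M w) : Art M))⁻¹ = y * (toCox M (g : Art M))⁻¹ := by
          rw [smul_eq_mul, Subgroup.coe_mul, map_mul, mul_inv_rev, hy, mul_assoc]
        rw [h1, Subgroup.coe_mul, Subgroup.coe_mul, (cy_spec M J).mul, (cy_spec M J).mul, map_mul, hL x hx1,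
          mul_one, inv_mul_cancel_right, hx2, mul_one]
        have h2 := (cy_spec M J).mul (y * (toCox M (g : Art M))⁻¹) (g : Art M) (g : Art M)⁻¹
        rw [mul_inv_cancel, (cy_spec M J).one, inv_mul_cancel_right] at h2
        rw [Subgroup.coe_inv]
        exact h2.symm
    · intro l hl
      have h1 := hfin (l : Art M) ((hLm l).1 hl).2
      have h2 : ∀ g : gw M w, ∃ j : ℤ, toCox M (g : Art M) = w ^ j := fun g => by
        obtain ⟨j, hj⟩ := mem_gw.1 g.2
        exact ⟨j, hj.symm⟩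
      choose e he using h2
      have h3 : Set.InjOn (fun i : gw M w ⧸ s0 M J w v => -(e i.out))
          ((fun i : gw M w ⧸ s0 M J w v => -(e i.out)) ⁻¹' {j : ℤ | cy M J (v * w ^ j) (l : Art M) ≠ 1}) := by
        intro i _ i' _ hii
        have h4 : e i.out = e i'.out := neg_injective hii
        have h5 : toCox M ((i.out : gw M w) : Art M) = toCox M ((i'.out : gw M w) : Art M) := by
          rw [he, he, h4]
        rw [← QuotientGroup.out_eq' i, ← QuotientGroup.out_eq' i']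
        refine QuotientGroup.eq.2 ?_
        rw [mem_s0, Subgroup.coe_mul, Subgroup.coe_inv, map_mul, map_inv, h5, inv_mul_cancel, mul_one, mul_inv_cancel]
        exact one_mem _
      refine (h1.preimage h3).subset ?_
      intro i hi
      change cy M J (v * w ^ (-(e i.out))) (l : Art M) ≠ 1
      intro h6
      apply hi
      rw [hWf, mem_wf]
      refine ⟨hl, ?_⟩
      rw [he, ← zpow_neg]
      exact h6
  have hst : ∀ i, IsKer C ((Wf i).subgroupOf (MulAction.stabilizer (gw M w) i)) := by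
    intro i
    obtain ⟨y, hy⟩ : ∃ y, y = v * (toCox M ((i.out : gw M w) : Art M))⁻¹ := ⟨_, rfl⟩
    have hst1 : ∀ h ∈ MulAction.stabilizer (gw M w) i, ∀ z : Art M,
        cy M J (y * toCox M (h : Art M)) z = cy M J y z := by
      intro h hh z
      have h1 : h • i = i := MulAction.mem_stabilizer_iff.1 hh
      have h2 : ((h * i.out : gw M w) : gw M w ⧸ s0 M J w v) = ((i.out : gw M w) : gw M w ⧸ s0 M J w v) := by
        have h3 : h • ((i.out : gw M w) : gw M w ⧸ s0 M J w v) = ((i.out : gw M w) : gw M w ⧸ s0 M J w v) := by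
          rw [QuotientGroup.out_eq']
          exact h1
        rwa [MulAction.Quotient.smul_mk, smul_eq_mul] at h3
      have h3 := QuotientGroup.eq.1 h2.symm
      have h4 : y * toCox M (h : Art M) =
          v * toCox M (((i.out)⁻¹ * (h * i.out) : gw M w) : Art M) * (toCox M ((i.out : gw M w) : Art M))⁻¹ := by
        rw [hy, Subgroup.coe_mul, Subgroup.coe_mul, Subgroup.coe_inv, map_mul, map_mul, map_inv]
        group
      rw [h4, cy_s0 M h3, hy]
    obtain ⟨φ, hφ⟩ : ∃ φ : MulAction.stabilizer (gw M w) i →* ap M J,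
        ∀ h, ((φ h : ap M J) : Art M) = cy M J y (((h : gw M w)) : Art M) := by
      refine ⟨MonoidHom.mk' (fun h => ⟨cy M J y ((h : gw M w) : Art M), cy_mem J y _⟩) ?_, fun h => rfl⟩
      intro a b
      apply Subtype.ext
      change cy M J y (((a * b : MulAction.stabilizer (gw M w) i) : gw M w) : Art M) =
        cy M J y ((a : gw M w) : Art M) * cy M J y ((b : gw M w) : Art M)
      rw [Subgroup.coe_mul, Subgroup.coe_mul, (cy_spec M J).mul, hst1 _ a.2]
    have heq : (Wf i).subgroupOf (MulAction.stabilizer (gw M w) i) =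
        L.comap (MulAction.stabilizer (gw M w) i).subtype ⊓ φ.ker := by
      ext h
      rw [Subgroup.mem_subgroupOf, Subgroup.mem_inf, Subgroup.mem_comap, MonoidHom.mem_ker, hWf, mem_wf, ← hy]
      constructor
      · rintro ⟨h1, h2⟩
        refine ⟨h1, Subtype.ext ?_⟩
        rw [hφ, h2]
        rfl
      · rintro ⟨h1, h2⟩
        refine ⟨h1, ?_⟩
        rw [← hφ, h2]
        rfl
    rw [heq]
    exact IsKer.inf_two hC (hLK.comap _) ⟨ap M J, inferInstance, φ, hJ, rfl⟩
  refine ⟨⨅ i, Wf i, fam_ker hC hE (fun A _ hA => wz_mem hC hE A hA) hFam hLK hst, ?_⟩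
  intro h hh
  have h1 := (Subgroup.mem_iInf.1 hh) ((1 : gw M w) : gw M w ⧸ s0 M J w v)
  obtain ⟨h2, h3⟩ := (hWm 1 h).1 h1
  refine ⟨hL h h2, ?_⟩
  rwa [Subgroup.coe_one, map_one, inv_one, mul_one] at h3

end Pool.Agent.H75.INF
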