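import Pool.Agent.H75.INF.Prc

/-!
# [H75 INF FIN] only finitely many values are not trivial

`h = wv (gen M) ω` (`exists_word`). The set `U` of the `j : ℤ` such that some `t ∈ wls 1 ω`, `t ∉ pc K g`, is in `pc J (w ^ j * b)` is finite
(finite union over the list). If `cy J (b⁻¹ * w ^ j) h ≠ 1` then `-j ∈ U`: otherwise `proj` with `u = g⁻¹`, `v = b⁻¹ w ^ j`
(`v⁻¹ = w ^ (-j) * b`): for `t ∈ wls 1 ω` with `v t v⁻¹ ∈ par J`, i.e. `t ∈ pc J (w ^ (-j) * b)`, we have `t ∈ pc K g`. So the set is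
contained in the image of `U` under `j ↦ -j`.
-/

set_option autoImplicit false

namespace Pool.Agent.H75.INF

open CoxeterSystem Pool.H8.CDW Pool.Agent.H52.PAG

variable {B : Type} (M : CoxeterMatrix B)

theorem fin_cy (K J : Set B) (g w b : M.Group)
    (hfin : ∀ x, x ∉ pc M.toCoxeterSystem K g → {j : ℤ | x ∈ pc M.toCoxeterSystem J (w ^ j * b)}.Finite)
    (h : Art M) (h1 : cy M K g⁻¹ h = 1) : {j : ℤ | cy M J (b⁻¹ * w ^ j) h ≠ 1}.Finite := by
  classical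
  obtain ⟨ω, rfl⟩ := exists_word h
  obtain ⟨U, hU⟩ : ∃ U : Set ℤ, U = ⋃ t ∈ {t | t ∈ wls M.toCoxeterSystem 1 ω ∧
      t ∉ pc M.toCoxeterSystem K g}, {j : ℤ | t ∈ pc M.toCoxeterSystem J (w ^ j * b)} := ⟨_, rfl⟩
  have hUf : U.Finite := by
    rw [hU]
    refine Set.Finite.biUnion ?_ fun t ht => hfin t ht.2
    exact (List.finite_toSet (wls M.toCoxeterSystem 1 ω)).subset fun t ht => ht.1
  have hinj : Set.InjOn (fun j : ℤ => -j) ((fun j : ℤ => -j) ⁻¹' U) := fun a _ b _ hab =>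
    neg_injective hab
  refine (hUf.preimage hinj).subset ?_
  intro j hj
  by_contra hc
  refine hj (proj M K J g⁻¹ (b⁻¹ * w ^ j) ω ?_ h1)
  intro t ht htJ
  by_contra hK
  refine hc ?_
  show -j ∈ U
  rw [hU]
  refine Set.mem_biUnion (x := t) ⟨ht, fun h2 => hK ?_⟩ ?_
  · rw [mem_pc] at h2
    rw [inv_inv]
    exact h2
  · show t ∈ pc M.toCoxeterSystem J (w ^ (-j) * b)
    rw [mem_pc]
    have e : (w ^ (-j) * b)⁻¹ * t * (w ^ (-j) * b) = b⁻¹ * w ^ j * t * (b⁻¹ * w ^ j)⁻¹ := by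
      rw [zpow_neg]
      group
    rw [e]
    exact htJ

end Pool.Agent.H75.INF
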