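import Pool.Agent.H75.INF.Nor
import Pool.Agent.H75.INF.Cyp

/-!
# [H75 INF PSI] the cocycle of a normalised parabolic subgroup

`cy_comm`: suppose `n` commutes with the `s_k`, `k ∈ K`, and `mr (n y) = n * mr y` for all `y`. Then `cy (n y) h = cy y h`: `art_induction`
(all `y`; letters and inverses of letters, `gen_inv_on`, `gen_inv_off`). For a letter `r`: `On (n y) r` iff `On y r` (`n` commutes with the
elements of `par K`, closure induction, so `n x n⁻¹ ∈ par K` iff `x ∈ par K`); if `On y r`, `k = ltr y r`: `mr (n y) s_r = n (mr y s_r) =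
n s_k mr y = s_k n mr y = s_k mr (n y)`, so `ltr (n y) r = k` (`ltr_eq`).
`psi`: let `m = g⁻¹ w g`. `hw` says that `m` normalises `par K` (`mem_pc`, put `x = g y g⁻¹`). `exists_nor` gives `a`. For `i : ℤ`:
`g⁻¹ (w ^ a) ^ i = (m ^ a) ^ i g⁻¹ = κ n g⁻¹`; `par_left` and `cy_comm`.
-/

set_option autoImplicit false

namespace Pool.Agent.H75.INF

open CoxeterSystem Pool.H8.CDW Pool.Agent.H52.PAG

variable {B : Type} (M : CoxeterMatrix B)

private theorem comm_par {K : Set B} {n : M.Group}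
    (h1 : ∀ k ∈ K, n * M.toCoxeterSystem.simple k = M.toCoxeterSystem.simple k * n) {x : M.Group}
    (hx : x ∈ par M.toCoxeterSystem K) : n * x = x * n := by
  have h : par M.toCoxeterSystem K ≤ Subgroup.centralizer {n} := by
    unfold par
    rw [Subgroup.closure_le]
    rintro _ ⟨k, hk, rfl⟩
    rw [SetLike.mem_coe, Subgroup.mem_centralizer_singleton_iff]
    exact (h1 k hk).symm
  exact (Subgroup.mem_centralizer_singleton_iff.1 (h hx)).symm

private theorem on_comm {K : Set B} {n : M.Group}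
    (h1 : ∀ k ∈ K, n * M.toCoxeterSystem.simple k = M.toCoxeterSystem.simple k * n) (y : M.Group)
    (r : B) : On M.toCoxeterSystem K (n * y) r ↔ On M.toCoxeterSystem K y r := by
  have e : n * y * M.toCoxeterSystem.simple r * (n * y)⁻¹ =
      n * (y * M.toCoxeterSystem.simple r * y⁻¹) * n⁻¹ := by group
  unfold On
  rw [e]
  constructor
  · intro h
    have h2 := comm_par M h1 h
    have h3 : n * (y * M.toCoxeterSystem.simple r * y⁻¹) * n⁻¹ = y * M.toCoxeterSystem.simple r * y⁻¹ := by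
      have h4 : n * (n * (y * M.toCoxeterSystem.simple r * y⁻¹) * n⁻¹) =
          n * (y * M.toCoxeterSystem.simple r * y⁻¹) := by
        rw [h2]
        group
      exact mul_left_cancel h4
    rwa [h3] at h
  · intro h
    rw [comm_par M h1 h, mul_inv_cancel_right]
    exact h

private theorem cy_comm_gen {K : Set B} {n : M.Group}
    (h1 : ∀ k ∈ K, n * M.toCoxeterSystem.simple k = M.toCoxeterSystem.simple k * n)
    (h2 : ∀ y, mr M.toCoxeterSystem K (n * y) = n * mr M.toCoxeterSystem K y) (y : M.Group) (r : B) :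
    cy M K (n * y) (gen M r) = cy M K y (gen M r) ∧
      cy M K (n * y) (gen M r)⁻¹ = cy M K y (gen M r)⁻¹ := by
  by_cases h : On M.toCoxeterSystem K y r
  · have h' := (on_comm M h1 y r).2 h
    obtain ⟨hk, hs, -, -⟩ := step_on M.toCoxeterSystem h
    have hl : ltr M.toCoxeterSystem K (n * y) r = ltr M.toCoxeterSystem K y r := by
      refine ltr_eq M.toCoxeterSystem h' ?_
      rw [h2, mul_assoc, hs, ← mul_assoc, h1 _ hk, mul_assoc]
    rw [(cy_spec M K).on _ _ h', (cy_spec M K).on _ _ h, (cy_spec M K).gen_inv_on h',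
      (cy_spec M K).gen_inv_on h, hl]
    exact ⟨rfl, rfl⟩
  · have h' : ¬ On M.toCoxeterSystem K (n * y) r := fun h' => h ((on_comm M h1 y r).1 h')
    rw [(cy_spec M K).off _ _ h', (cy_spec M K).off _ _ h, (cy_spec M K).gen_inv_off h',
      (cy_spec M K).gen_inv_off h]
    exact ⟨rfl, rfl⟩

theorem cy_comm (K : Set B) (n : M.Group)
    (h1 : ∀ k ∈ K, n * M.toCoxeterSystem.simple k = M.toCoxeterSystem.simple k * n)
    (h2 : ∀ y, mr M.toCoxeterSystem K (n * y) = n * mr M.toCoxeterSystem K y) (h : Art M) (y : M.Group) :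
    cy M K (n * y) h = cy M K y h := by
  revert y
  refine art_induction (P := fun h => ∀ y, cy M K (n * y) h = cy M K y h) ?_ ?_ ?_ h
  · intro y
    rw [(cy_spec M K).one, (cy_spec M K).one]
  · intro x i hx y
    rw [(cy_spec M K).mul, (cy_spec M K).mul, hx, mul_assoc, (cy_comm_gen M h1 h2 _ i).1]
  · intro x i hx y
    rw [(cy_spec M K).mul, (cy_spec M K).mul, hx, mul_assoc, (cy_comm_gen M h1 h2 _ i).2]

theorem psi [Finite B] (K : Set B) (g w : M.Group)
    (hw : ∀ x, x ∈ pc M.toCoxeterSystem K g ↔ w * x * w⁻¹ ∈ pc M.toCoxeterSystem K g) :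
    ∃ a : ℕ, 0 < a ∧ ∀ (i : ℤ) (h : Art M), cy M K (g⁻¹ * (w ^ a) ^ i) h = cy M K g⁻¹ h := by
  obtain ⟨m, hm⟩ : ∃ m, m = g⁻¹ * w * g⁻¹⁻¹ := ⟨_, rfl⟩
  have hm1 : ∀ x, x ∈ par M.toCoxeterSystem K ↔ m * x * m⁻¹ ∈ par M.toCoxeterSystem K := by
    intro x
    have h1 := hw (g * x * g⁻¹)
    rw [mem_pc, mem_pc] at h1
    have e1 : g⁻¹ * (g * x * g⁻¹) * g = x := by group
    have e2 : g⁻¹ * (w * (g * x * g⁻¹) * w⁻¹) * g = m * x * m⁻¹ := by
      rw [hm]
      group
    rwa [e1, e2] at h1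
  obtain ⟨a, ha, hn⟩ := exists_nor M.toCoxeterSystem K m hm1
  refine ⟨a, ha, fun i h => ?_⟩
  obtain ⟨κ, hκ, n, hmn, h1, h2⟩ := hn i
  have e3 : g⁻¹ * (w ^ a) ^ i = κ * (n * g⁻¹) := by
    rw [← mul_assoc, ← hmn, hm, conj_pow, conj_zpow]
    group
  rw [e3, (cy_spec M K).par_left hκ, cy_comm M K n h1 h2]

end Pool.Agent.H75.INF
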