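import Pool.Agent.H75.INF.Main

/-!
# Reduction to the irreducible sets of generators with finite labels

If `K` is the union of `L` and `K \ L`, and all labels between `L` and `K \ L` are `2`, then `Art (rst M K)` is the direct product of
`Art (rst M L)` and `Art (rst M (K \ L))`. So in `inf_mem` only the sets `K` without such a decomposition have to be considered.
-/

set_option autoImplicit false

namespace Pool.Agent.H75.INF

open Pool.Agent.H52.PAG Pool.Agent.H98.FJ Pool.Agent.H54.AR

variable {C : (G : Type) → [Group G] → Prop}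

private theorem comm_all {B1 B2 : Type} {M1 : CoxeterMatrix B1} {M2 : CoxeterMatrix B2} {G : Type} [Group G]
    (f : Art M1 →* G) (g : Art M2 →* G) (h : ∀ i j, Commute (f (gen M1 i)) (g (gen M2 j))) (x : Art M1)
    (y : Art M2) : Commute (f x) (g y) := by
  have h1 : ∀ i (y : Art M2), Commute (f (gen M1 i)) (g y) := by
    intro i y
    refine art_induction (P := fun y => Commute (f (gen M1 i)) (g y)) ?_ ?_ ?_ y
    · rw [map_one]
      exact Commute.one_right _
    · intro y j hy
      rw [map_mul]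
      exact hy.mul_right (h i j)
    · intro y j hy
      rw [map_mul, map_inv]
      exact hy.mul_right (h i j).inv_right
  refine art_induction (P := fun x => Commute (f x) (g y)) ?_ ?_ ?_ x
  · rw [map_one]
    exact Commute.one_left _
  · intro x i hx
    rw [map_mul]
    exact hx.mul_left (h1 i y)
  · intro x i hx
    rw [map_mul, map_inv]
    exact hx.mul_left (h1 i y).inv_left

private theorem alt_inl {G H : Type} [Group G] [Group H] (x y : G) (n : ℕ) :
    alt ((x, (1 : H))) ((y, (1 : H))) n = (alt x y n, 1) :=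
  (map_alt (MonoidHom.inl G H) x y n).symm

private theorem alt_inr {G H : Type} [Group G] [Group H] (x y : H) (n : ℕ) :
    alt (((1 : G), x)) (((1 : G), y)) n = (1, alt x y n) :=
  (map_alt (MonoidHom.inr G H) x y n).symm

/-- the Artin group of a disjoint union with labels `2` between the parts embeds in the product -/
theorem art_sum {B1 B2 : Type} (N : CoxeterMatrix (B1 ⊕ B2)) (M1 : CoxeterMatrix B1) (M2 : CoxeterMatrix B2)
    (h1 : ∀ i j, N (Sum.inl i) (Sum.inl j) = M1 i j) (h2 : ∀ i j, N (Sum.inr i) (Sum.inr j) = M2 i j)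
    (h3 : ∀ i j, N (Sum.inl i) (Sum.inr j) = 2) :
    ∃ f : Art N →* Art M1 × Art M2, Function.Injective f := by
  have h4 : ∀ i j, N (Sum.inr j) (Sum.inl i) = 2 := fun i j => by
    rw [← h3 i j]
    exact N.symmetric _ _
  obtain ⟨f, hf1, hf2⟩ : ∃ f : Art N →* Art M1 × Art M2, (∀ i, f (gen N (Sum.inl i)) = (gen M1 i, 1)) ∧
      ∀ j, f (gen N (Sum.inr j)) = (1, gen M2 j) := by
    refine ⟨lift (Sum.elim (fun i => (gen M1 i, 1)) (fun j => (1, gen M2 j))) ?_, fun i => lift_gen _ _ _,
      fun j => lift_gen _ _ _⟩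
    rintro (i | i) (j | j) hij
    · rw [Sum.elim_inl, Sum.elim_inl, alt_inl, alt_inl, h1, gen_rel (h1 i j ▸ hij)]
    · rw [Sum.elim_inl, Sum.elim_inr, h3]
      simp [alt]
    · rw [Sum.elim_inl, Sum.elim_inr, h4]
      simp [alt]
    · rw [Sum.elim_inr, Sum.elim_inr, alt_inr, alt_inr, h2, gen_rel (h2 i j ▸ hij)]
  obtain ⟨g1, hg1⟩ : ∃ g : Art M1 →* Art N, ∀ i, g (gen M1 i) = gen N (Sum.inl i) := by
    refine ⟨lift (fun i => gen N (Sum.inl i)) ?_, fun i => lift_gen _ _ _⟩
    intro i j hij
    rw [← h1 i j] at hij ⊢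
    exact gen_rel hij
  obtain ⟨g2, hg2⟩ : ∃ g : Art M2 →* Art N, ∀ i, g (gen M2 i) = gen N (Sum.inr i) := by
    refine ⟨lift (fun i => gen N (Sum.inr i)) ?_, fun i => lift_gen _ _ _⟩
    intro i j hij
    rw [← h2 i j] at hij ⊢
    exact gen_rel hij
  have hc : ∀ x y, Commute (g1 x) (g2 y) := by
    refine comm_all g1 g2 fun i j => ?_
    rw [hg1, hg2]
    have h5 : N (Sum.inl i) (Sum.inr j) ≠ 0 := by
      rw [h3]
      exact two_ne_zero
    have h6 := gen_rel h5
    rw [h3] at h6
    simp only [alt, mul_one] at h6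
    exact h6
  have hid : (g1.noncommCoprod g2 hc).comp f = MonoidHom.id (Art N) := by
    refine art_ext ?_
    rintro (i | i)
    · rw [MonoidHom.comp_apply, hf1, MonoidHom.noncommCoprod_apply, map_one, mul_one, hg1]
      rfl
    · rw [MonoidHom.comp_apply, hf2, MonoidHom.noncommCoprod_apply, map_one, one_mul, hg2]
      rfl
  refine ⟨f, fun x y hxy => ?_⟩
  have hx := DFunLike.congr_fun hid x
  have hy := DFunLike.congr_fun hid y
  rw [MonoidHom.comp_apply, MonoidHom.id_apply] at hx hy
  rw [← hx, ← hy, hxy]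

/-- the direct product of two groups in the class -/
private theorem prod_c (hC : Inherits C) {G H : Type} [Group G] [Group H] (hG : C G) (hH : C H) : C (G × H) := by
  classical
  let F : Bool → Type := fun b => if b = true then G else H
  let _ : ∀ b, Group (F b) := fun b => by
    cases b
    · exact (inferInstance : Group H)
    · exact (inferInstance : Group G)
  have h1 : C (∀ b, F b) := by
    refine hC.pi Bool inferInstance F fun b => ?_
    cases b
    · exact hH
    · exact hG
  let φ : G × H →* ∀ b, F b :=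
    { toFun := fun x b => match b with
        | true => x.1
        | false => x.2
      map_one' := by
        funext b
        cases b <;> rfl
      map_mul' := by
        intro x y
        funext b
        cases b <;> rfl }
  refine hC.of_injective φ ?_ h1
  intro x y h
  exact Prod.ext (congrFun h true) (congrFun h false)

theorem rst_split (hC : Inherits C) {B : Type} [DecidableEq B] (M : CoxeterMatrix B) {K L : Finset B} (hL : L ⊆ K)
    (h2 : ∀ i ∈ L, ∀ j ∈ K, j ∉ L → M i j = 2) (h3 : C (Art (rst M L))) (h4 : C (Art (rst M (K \ L)))) :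
    C (Art (rst M K)) := by
  have hs : ∀ x : K, (x : B) ∉ L → (x : B) ∈ K \ L := fun x hx => Finset.mem_sdiff.2 ⟨x.2, hx⟩
  obtain ⟨e, he1, he2⟩ : ∃ e : (L ⊕ (K \ L : Finset B)) ≃ K, (∀ i, ((e (Sum.inl i) : K) : B) = i) ∧
      ∀ i, ((e (Sum.inr i) : K) : B) = i := by
    refine ⟨Equiv.ofBijective (Sum.elim (fun i => ⟨i.1, hL i.2⟩)
      (fun i => ⟨i.1, (Finset.mem_sdiff.1 i.2).1⟩)) ⟨?_, ?_⟩, fun _ => rfl, fun _ => rfl⟩
    · rintro (x | x) (y | y) h
      · have h1 : (x : B) = y := congrArg (Subtype.val : K → B) h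
        rw [Subtype.ext h1]
      · have h1 : (x : B) = y := congrArg (Subtype.val : K → B) h
        exact absurd (h1 ▸ x.2) (Finset.mem_sdiff.1 y.2).2
      · have h1 : (x : B) = y := congrArg (Subtype.val : K → B) h
        exact absurd (h1.symm ▸ y.2) (Finset.mem_sdiff.1 x.2).2
      · have h1 : (x : B) = y := congrArg (Subtype.val : K → B) h
        rw [Subtype.ext h1]
    · intro x
      by_cases hx : (x : B) ∈ L
      · exact ⟨Sum.inl ⟨x, hx⟩, rfl⟩
      · exact ⟨Sum.inr ⟨x, hs x hx⟩, rfl⟩
  obtain ⟨N, hN⟩ : ∃ N : CoxeterMatrix (L ⊕ (K \ L : Finset B)), ∀ i j, N i j = rst M K (e i) (e j) :=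
    ⟨(rst M K).reindex e.symm, fun i j => rfl⟩
  obtain ⟨f, hf⟩ := art_sum N (rst M L) (rst M (K \ L))
    (fun i j => by
      rw [hN, rst_apply, rst_apply, he1, he1])
    (fun i j => by
      rw [hN, rst_apply, rst_apply, he2, he2])
    (fun i j => by
      rw [hN, rst_apply, he1, he2]
      exact h2 _ i.2 _ (Finset.mem_sdiff.1 j.2).1 (Finset.mem_sdiff.1 j.2).2)
  obtain ⟨e'⟩ := art_congr N (rst M K) e fun i j => (hN i j).symm
  exact hC.iso _ _ e' (hC.of_injective f hf (prod_c hC h3 h4))

/-- It suffices to consider the finite sets `K` of generators with finite labels which are irreducible. -/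
theorem irr_mem (hC : Inherits C) (hE : Extension C) (hGL : ∀ n : ℕ, C (GL (Fin n) ℤ)) (B : Type)
    (M : CoxeterMatrix B)
    (h : ∀ K : Finset B, (∀ i ∈ K, ∀ j ∈ K, M i j ≠ 0) →
      (∀ L ⊆ K, L.Nonempty → L ≠ K → ∃ i ∈ L, ∃ j ∈ K, j ∉ L ∧ M i j ≠ 2) → C (Art (rst M K))) :
    C (Art M) := by
  classical
  refine inf_mem hC hE hGL B M ?_
  have key : ∀ n : ℕ, ∀ K : Finset B, K.card = n → (∀ i ∈ K, ∀ j ∈ K, M i j ≠ 0) → C (Art (rst M K)) := by
    intro n
    induction n using Nat.strong_induction_on with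
    | _ n ih =>
      intro K hn hK
      by_cases hex : ∃ L ⊆ K, L.Nonempty ∧ L ≠ K ∧ ∀ i ∈ L, ∀ j ∈ K, j ∉ L → M i j = 2
      · obtain ⟨L, hLK, hne, hne2, hL⟩ := hex
        have hss : L ⊂ K := Finset.ssubset_iff_subset_ne.2 ⟨hLK, hne2⟩
        have hc1 : L.card < n := hn ▸ Finset.card_lt_card hss
        have hc2 : (K \ L).card < n := by
          rw [← hn]
          refine Finset.card_lt_card (Finset.ssubset_iff_subset_ne.2 ⟨Finset.sdiff_subset, ?_⟩)
          intro he
          obtain ⟨x, hx⟩ := hne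
          have h1 : x ∈ K \ L := by
            rw [he]
            exact hLK hx
          exact (Finset.mem_sdiff.1 h1).2 hx
        refine rst_split hC M hLK hL (ih _ hc1 L rfl fun i hi j hj => hK i (hLK hi) j (hLK hj)) ?_
        refine ih _ hc2 (K \ L) rfl fun i hi j hj => ?_
        exact hK i (Finset.mem_sdiff.1 hi).1 j (Finset.mem_sdiff.1 hj).1
      · refine h K hK fun L hLK hne hne2 => ?_
        by_contra hcon
        push Not at hcon
        exact hex ⟨L, hLK, hne, hne2, hcon⟩
  exact fun K hK => key _ K rfl hK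

end Pool.Agent.H75.INF
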