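import Pool.Agent.H75.INF.Kil

/-!
# [H75 INF PCL] parabolic subgroups of minimal rank

`exists_isPc`: `X ⊆ pc Set.univ 1` (`par_univ`); take `K` with minimal `K.ncard` (`Nat.find` on
`∃ n K g, X ⊆ pc cs K g ∧ K.ncard = n`).
`IsPc.le`: `inter_par cs K L g h'` gives `g'`, `K' ⊆ K` with `pc K' g' = pc K g ⊓ pc L h' ⊇ X`, so `K.ncard ≤ K'.ncard` and `K' = K`
(`Set.eq_of_subset_of_ncard_le`, `Set.toFinite`), so `pc K g ≤ pc L h'`.
`IsPc.conj`: `x ∈ pc K (w g) ↔ w⁻¹ x w ∈ pc K g` (`mem_pc`, group). The set `w X w⁻¹` is described by `Y`: `hY`. `Y ⊆ pc K (w g)`; if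
`Y ⊆ pc K' g'` then `X ⊆ pc K' (w⁻¹ g')`.
`IsPc.ncard_lt`: `K.ncard ≤ L.ncard < Nat.card B` (`Set.ncard_lt_card` or `Set.ncard_lt_ncard` with `Set.ssubset_univ_iff`), and
`Set.univ.ncard = Nat.card B`.
-/

set_option autoImplicit false

namespace Pool.Agent.H75.INF

open CoxeterSystem Pool.H8.CDW Pool.Agent.H52.PAG

variable {B W : Type*} [Group W] {M : CoxeterMatrix B} (cs : CoxeterSystem M W)

theorem exists_isPc (X : Set W) : ∃ (K : Set B) (g : W), IsPc cs X K g := by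
  classical
  have hex : ∃ n : ℕ, ∃ (K : Set B) (g : W), X ⊆ pc cs K g ∧ K.ncard = n := by
    refine ⟨_, Set.univ, 1, fun x _ => ?_, rfl⟩
    change (1 : W)⁻¹ * x * 1 ∈ par cs Set.univ
    rw [par_univ]
    exact Subgroup.mem_top _
  obtain ⟨K, g, h1, h2⟩ := Nat.find_spec hex
  refine ⟨K, g, h1, fun K' g' h' => ?_⟩
  rw [h2]
  exact Nat.find_min' hex ⟨K', g', h', rfl⟩

theorem IsPc.le [Finite B] {X : Set W} {K L : Set B} {g h : W} (hX : IsPc cs X K g) (hL : X ⊆ pc cs L h) :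
    pc cs K g ≤ pc cs L h := by
  obtain ⟨g', K', h1, h2, h3⟩ := inter_par cs K L g h
  refine h3 (Set.eq_of_subset_of_ncard_le h1 (hX.2 K' g' fun x hx => ?_) (Set.toFinite K))
  rw [h2]
  exact ⟨hX.1 hx, hL hx⟩

theorem IsPc.conj {X Y : Set W} {K : Set B} {g w : W} (hX : IsPc cs X K g)
    (hY : ∀ x, x ∈ Y ↔ w⁻¹ * x * w ∈ X) : IsPc cs Y K (w * g) := by
  refine ⟨fun x hx => ?_, fun K' g' h => hX.2 K' (w⁻¹ * g') fun x hx => ?_⟩
  · have h1 : g⁻¹ * (w⁻¹ * x * w) * g ∈ par cs K := hX.1 ((hY x).1 hx)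
    change (w * g)⁻¹ * x * (w * g) ∈ par cs K
    have h2 : (w * g)⁻¹ * x * (w * g) = g⁻¹ * (w⁻¹ * x * w) * g := by group
    rw [h2]
    exact h1
  · have h1 : w * x * w⁻¹ ∈ Y := by
      rw [hY]
      have h2 : w⁻¹ * (w * x * w⁻¹) * w = x := by group
      rw [h2]
      exact hx
    have h3 : g'⁻¹ * (w * x * w⁻¹) * g' ∈ par cs K' := h h1
    change (w⁻¹ * g')⁻¹ * x * (w⁻¹ * g') ∈ par cs K'
    have h2 : (w⁻¹ * g')⁻¹ * x * (w⁻¹ * g') = g'⁻¹ * (w * x * w⁻¹) * g' := by group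
    rw [h2]
    exact h3

theorem IsPc.ne_univ [Finite B] {X : Set W} {K L : Set B} {g h : W} (hX : IsPc cs X K g) (hL : X ⊆ pc cs L h)
    (hne : L ≠ Set.univ) : K ≠ Set.univ := by
  rintro rfl
  have h1 := hX.2 L h hL
  exact hne (Set.eq_of_subset_of_ncard_le (Set.subset_univ L) h1 (Set.toFinite _))

end Pool.Agent.H75.INF
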