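import Pool.Agent.H75.INF.Defs

/-!
# [H75 INF AMT] the coset graph of an amalgam is a tree

(Independent of Coxeter groups.) Let `E = G ⧸ H`, `D = E → ZMod 2` (additive; use `Multiplicative D`), `G` acts on `E` and on `D`,
`P = Multiplicative D ⋊ G`. For `e ∈ E` let `δ e : D` be the indicator function; `g • δ e = δ (g • e)`; let `δ₀ = δ (1 : E)`.
`f₁ : G₁ → P`, `g ↦ (0, g)`. `f₂ : G₂ → P`, `g ↦ (δ₀ + g • δ₀, g)` (conjugation of `(0, g)` by `δ₀`; `2 = 0`). For `h ∈ H`:
`h • δ₀ = δ₀`, so `f₁ h = f₂ h`. Let `f : G → P` be the common extension. `f g = (c g, g)`: the second coordinate is a homomorphism `G → G`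
which is the identity on `G₁` and `G₂`, and `G₁ ⊔ G₂ = ⊤` (`Subgroup.closure`/`eqLocus` argument). `c (g g') = c g + g • c g'`.
Let `θ : V → D`, `θ (g G₁) = c g`, `θ (g G₂) = c g + g • δ₀`. Well defined: `c (g g₁) = c g + g • 0`;
`c (g g₂) + g g₂ • δ₀ = c g + g • (δ₀ + g₂ • δ₀) + g g₂ • δ₀ = c g + g • δ₀`. For the edge `e = g H`, `θ (g G₁) + θ (g G₂) = δ e`.
(1) `G₁ ⊓ G₂ ≤ H`: for `g ∈ G₁ ⊓ G₂`: `g G₁ = G₁`, `g G₂ = G₂`, so `δ (g H) = θ (G₁) + θ (G₂) = δ (H)`, so `g ∈ H`. In general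
`g G₁ = g' G₁`, `g G₂ = g' G₂` imply `g H = g' H`.
(2) Connected: the set of the `g` such that `g G₁` is reachable from `G₁` is a subgroup (translation of walks), contains `G₁`, and `G₂`:
`G₁ ~ G₂ = g G₂ ~ g G₁`.
(3) Acyclic: `SimpleGraph.isAcyclic_iff_forall_adj_isBridge`, `isBridge_iff` (see `H63/RK/Tree.lean`). Let `{g G₁, g G₂}` be the edge.
A walk which does not use it: `θ · (g H)` is constant along it: a step from `g' G₁` to `g' G₂` changes `θ` by `δ (g' H)`, and `g' H ≠ g H`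
(otherwise it would be the same edge). But `θ (g G₁) (g H) + θ (g G₂) (g H) = 1`.
Action: `g • Sum.inl x = Sum.inl (g • x)` (`Sum.smul_inl`), `g • (a : G ⧸ G₁) = (g * a : G)` is `rfl`. No inversions: an inversion would map
`Sum.inl` to `Sum.inr`.
-/

set_option autoImplicit false

namespace Pool.Agent.H75.INF

open Pool.Agent.H93.TR

variable {G : Type} [Group G]

section aux

variable (H : Subgroup G)

/-- the action on the functions on `G ⧸ H` -/
private def ac (g : G) (x : G ⧸ H → ℤ) : G ⧸ H → ℤ := fun e => x (g⁻¹ • e)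

private theorem ac_one (x : G ⧸ H → ℤ) : ac H 1 x = x := by
  funext e
  unfold ac
  rw [inv_one, one_smul]

private theorem ac_mul (g h : G) (x : G ⧸ H → ℤ) : ac H (g * h) x = ac H g (ac H h x) := by
  funext e
  unfold ac
  rw [mul_inv_rev, mul_smul]

private theorem ac_add (g : G) (x y : G ⧸ H → ℤ) : ac H g (x + y) = ac H g x + ac H g y := rfl

private theorem ac_sub (g : G) (x y : G ⧸ H → ℤ) : ac H g (x - y) = ac H g x - ac H g y := rfl

private theorem ac_zero (g : G) : ac H g 0 = 0 := rfl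

open Classical in
/-- the indicator function -/
private noncomputable def dlt (e : G ⧸ H) : G ⧸ H → ℤ := fun e' => if e' = e then 1 else 0

private theorem ac_dlt (g : G) (e : G ⧸ H) : ac H g (dlt H e) = dlt H (g • e) := by
  funext e'
  unfold ac dlt
  by_cases h : e' = g • e
  · rw [if_pos h, if_pos (inv_smul_eq_iff.2 h)]
  · rw [if_neg h, if_neg (fun h' => h (inv_smul_eq_iff.1 h'))]

private theorem dlt_same (e : G ⧸ H) : dlt H e e = 1 := if_pos rfl

private theorem dlt_ne {e e' : G ⧸ H} (h : e' ≠ e) : dlt H e e' = 0 := if_neg h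

private theorem dlt_inj {e e' : G ⧸ H} (h : dlt H e = dlt H e') : e = e' := by
  by_contra hne
  have h1 := congrFun h e
  rw [dlt_same, dlt_ne H hne] at h1
  exact one_ne_zero h1

/-- the action as a homomorphism -/
private def acP : G →* Equiv.Perm (G ⧸ H → ℤ) where
  toFun g :=
    { toFun := ac H g
      invFun := ac H g⁻¹
      left_inv := fun x => by rw [← ac_mul, inv_mul_cancel, ac_one]
      right_inv := fun x => by rw [← ac_mul, mul_inv_cancel, ac_one] }
  map_one' := Equiv.ext fun x => ac_one H x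
  map_mul' g h := Equiv.ext fun x => ac_mul H g h x

/-- the conjugate of the action by the translation by the indicator function of `H` -/
private noncomputable def acQ : G →* Equiv.Perm (G ⧸ H → ℤ) where
  toFun g := Equiv.addRight (dlt H ((1 : G) : G ⧸ H)) * acP H g *
    (Equiv.addRight (dlt H ((1 : G) : G ⧸ H)))⁻¹
  map_one' := by rw [map_one, mul_one, mul_inv_cancel]
  map_mul' g h := by
    rw [map_mul]
    group

private theorem acP_apply (g : G) (x : G ⧸ H → ℤ) : acP H g x = ac H g x := rfl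

private theorem acQ_apply (g : G) (x : G ⧸ H → ℤ) :
    acQ H g x = ac H g (x - dlt H ((1 : G) : G ⧸ H)) + dlt H ((1 : G) : G ⧸ H) := by
  have h1 : (Equiv.addRight (dlt H ((1 : G) : G ⧸ H)))⁻¹ x = x - dlt H ((1 : G) : G ⧸ H) := by
    rw [Equiv.Perm.inv_eq_iff_eq]
    show x = x - dlt H ((1 : G) : G ⧸ H) + dlt H ((1 : G) : G ⧸ H)
    rw [sub_add_cancel]
  show ac H g ((Equiv.addRight (dlt H ((1 : G) : G ⧸ H)))⁻¹ x) + dlt H ((1 : G) : G ⧸ H) = _
  rw [h1]

private theorem aff_ext {H : Subgroup G} {G₁ G₂ : Subgroup G} (hsup : G₁ ⊔ G₂ = ⊤)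
    (f : G →* Equiv.Perm (G ⧸ H → ℤ)) (h1 : ∀ g ∈ G₁, f g = acP H g) (h2 : ∀ g ∈ G₂, f g = acQ H g)
    (g : G) (x : G ⧸ H → ℤ) : f g x = f g 0 + ac H g x := by
  let S : Subgroup G :=
    { carrier := {g | ∀ x : G ⧸ H → ℤ, f g x = f g 0 + ac H g x}
      one_mem' := by
        intro x
        rw [map_one, ac_one]
        show x = 0 + x
        rw [zero_add]
      mul_mem' := by
        intro a b ha hb x
        rw [map_mul, Equiv.Perm.mul_apply, Equiv.Perm.mul_apply, ha (f b x), hb x, ha (f b 0),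
          ac_add, ac_mul, add_assoc]
      inv_mem' := by
        intro a ha
        have h : ∀ x : G ⧸ H → ℤ, f a⁻¹ x = ac H a⁻¹ (x - f a 0) := by
          intro x
          have e1 : f a (f a⁻¹ x) = x := by
            rw [← Equiv.Perm.mul_apply, ← map_mul, mul_inv_cancel, map_one]
            rfl
          rw [ha] at e1
          have e2 : x - f a 0 = ac H a (f a⁻¹ x) := by
            conv_lhs => rw [← e1]
            rw [add_sub_cancel_left]
          rw [e2, ← ac_mul, inv_mul_cancel, ac_one]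
        intro x
        rw [h x, h 0, ac_sub, ac_sub, ac_zero, zero_sub, neg_add_eq_sub] }
  have hG₁ : G₁ ≤ S := by
    intro g hg x
    rw [h1 g hg, acP_apply, acP_apply, ac_zero, zero_add]
  have hG₂ : G₂ ≤ S := by
    intro g hg x
    rw [h2 g hg, acQ_apply, acQ_apply, ac_sub, ac_sub, ac_zero]
    abel
  have htop : (⊤ : Subgroup G) ≤ S := by
    rw [← hsup]
    exact sup_le hG₁ hG₂
  exact htop (Subgroup.mem_top g) x

end aux

theorem amal_tree {G₁ G₂ H : Subgroup G} (h : Amal G₁ G₂ H) :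
    OnTree G (cg G₁ G₂) ∧ NoInv (cg G₁ G₂) (⊤ : Subgroup G) ∧ G₁ ⊓ G₂ = H := by
  classical
  obtain ⟨hH1, hH2, hsup, huni⟩ := h
  -- the cocycle
  obtain ⟨f, hf1, hf2⟩ := huni (Equiv.Perm (G ⧸ H → ℤ)) ((acP H).comp G₁.subtype)
    ((acQ H).comp G₂.subtype) (by
      intro h h1 h2 hh
      refine Equiv.ext fun x => ?_
      show acP H h x = acQ H h x
      have e1 : h • ((1 : G) : G ⧸ H) = ((1 : G) : G ⧸ H) := by
        show ((h * 1 : G) : G ⧸ H) = ((1 : G) : G ⧸ H)
        rw [mul_one, QuotientGroup.eq, mul_one]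
        exact inv_mem hh
      rw [acP_apply, acQ_apply, ac_sub, ac_dlt, e1, sub_add_cancel])
  have hf1' : ∀ g ∈ G₁, f g = acP H g := fun g hg => hf1 ⟨g, hg⟩
  have hf2' : ∀ g ∈ G₂, f g = acQ H g := fun g hg => hf2 ⟨g, hg⟩
  have haff := aff_ext hsup f hf1' hf2'
  obtain ⟨c, hc⟩ : ∃ c : G → (G ⧸ H → ℤ), ∀ g, c g = f g 0 := ⟨fun g => f g 0, fun _ => rfl⟩
  have hcm : ∀ a b, c (a * b) = c a + ac H a (c b) := by
    intro a b
    rw [hc, hc, hc, map_mul, Equiv.Perm.mul_apply]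
    exact haff a _
  have hc1 : ∀ g ∈ G₁, c g = 0 := by
    intro g hg
    rw [hc, hf1' g hg]
    rfl
  have hc2 : ∀ g ∈ G₂, c g = dlt H ((1 : G) : G ⧸ H) - ac H g (dlt H ((1 : G) : G ⧸ H)) := by
    intro g hg
    rw [hc, hf2' g hg, acQ_apply, ac_sub, ac_zero, zero_sub, neg_add_eq_sub]
  have hinter : G₁ ⊓ G₂ = H := by
    refine le_antisymm ?_ (le_inf hH1 hH2)
    rintro g ⟨hg1, hg2⟩
    have e1 := hc2 g hg2
    rw [hc1 g hg1, ac_dlt] at e1
    have e2 := dlt_inj H (sub_eq_zero.1 e1.symm)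
    have e3 : ((1 : G) : G ⧸ H) = ((g * 1 : G) : G ⧸ H) := e2
    rw [QuotientGroup.eq, inv_one, one_mul, mul_one] at e3
    exact e3
  have hsm1 : ∀ g d : G, g • (Sum.inl (QuotientGroup.mk d) : (G ⧸ G₁) ⊕ (G ⧸ G₂)) =
      Sum.inl (QuotientGroup.mk (g * d)) := fun g d => rfl
  have hsm2 : ∀ g d : G, g • (Sum.inr (QuotientGroup.mk d) : (G ⧸ G₁) ⊕ (G ⧸ G₂)) =
      Sum.inr (QuotientGroup.mk (g * d)) := fun g d => rfl
  have hXadj : ∀ v w, (cg G₁ G₂).Adj v w ↔ ∃ g : G, (v = Sum.inl (QuotientGroup.mk g) ∧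
      w = Sum.inr (QuotientGroup.mk g)) ∨ (w = Sum.inl (QuotientGroup.mk g) ∧
      v = Sum.inr (QuotientGroup.mk g)) := fun v w => Iff.rfl
  have hXact : ∀ (g : G) (v w : (G ⧸ G₁) ⊕ (G ⧸ G₂)), (cg G₁ G₂).Adj v w →
      (cg G₁ G₂).Adj (g • v) (g • w) := by
    intro g v w h
    rw [hXadj] at h ⊢
    obtain ⟨d, ⟨h1, h2⟩ | ⟨h1, h2⟩⟩ := h
    · exact ⟨g * d, Or.inl ⟨by rw [h1, hsm1], by rw [h2, hsm2]⟩⟩
    · exact ⟨g * d, Or.inr ⟨by rw [h1, hsm1], by rw [h2, hsm2]⟩⟩
  have hreach : ∀ (g : G) (v w : (G ⧸ G₁) ⊕ (G ⧸ G₂)), (cg G₁ G₂).Reachable v w →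
      (cg G₁ G₂).Reachable (g • v) (g • w) := by
    intro g v w h
    let f : (cg G₁ G₂) →g (cg G₁ G₂) := ⟨fun v => g • v, fun {a b} hab => hXact g a b hab⟩
    exact h.map f
  have hedge : ∀ g : G, (cg G₁ G₂).Reachable (Sum.inl (QuotientGroup.mk g))
      (Sum.inr (QuotientGroup.mk g)) := fun g =>
    SimpleGraph.Adj.reachable ((hXadj _ _).2 ⟨g, Or.inl ⟨rfl, rfl⟩⟩)
  have hconn : ∀ d : G, (cg G₁ G₂).Reachable (Sum.inl (QuotientGroup.mk 1))
      (Sum.inl (QuotientGroup.mk d)) := by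
    let S : Subgroup G :=
      { carrier := {d | (cg G₁ G₂).Reachable (Sum.inl (QuotientGroup.mk 1))
          (Sum.inl (QuotientGroup.mk d))}
        one_mem' := SimpleGraph.Reachable.refl _
        mul_mem' := by
          intro a b ha hb
          have h1 := hreach a _ _ hb
          rw [hsm1, hsm1, mul_one] at h1
          exact SimpleGraph.Reachable.trans ha h1
        inv_mem' := by
          intro a ha
          have h1 := hreach a⁻¹ _ _ ha
          rw [hsm1, hsm1, mul_one, inv_mul_cancel] at h1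
          exact h1.symm }
    have h1 : G₁ ≤ S := by
      intro g hg
      show (cg G₁ G₂).Reachable (Sum.inl (QuotientGroup.mk 1)) (Sum.inl (QuotientGroup.mk g))
      have e : (QuotientGroup.mk 1 : G ⧸ G₁) = QuotientGroup.mk g := by
        rw [QuotientGroup.eq, inv_one, one_mul]
        exact hg
      rw [← e]
    have h2 : G₂ ≤ S := by
      intro g hg
      show (cg G₁ G₂).Reachable (Sum.inl (QuotientGroup.mk 1)) (Sum.inl (QuotientGroup.mk g))
      have e : (QuotientGroup.mk 1 : G ⧸ G₂) = QuotientGroup.mk g := by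
        rw [QuotientGroup.eq, inv_one, one_mul]
        exact hg
      have e2 := (hedge g).symm
      rw [← e] at e2
      exact (hedge 1).trans e2
    have htop : (⊤ : Subgroup G) ≤ S := by
      rw [← hsup]
      exact sup_le h1 h2
    exact fun d => htop (Subgroup.mem_top d)
  -- the function theta
  let th1 : G ⧸ G₁ → (G ⧸ H → ℤ) := Quotient.lift c (by
    intro a b hab
    have h1 : (QuotientGroup.mk a : G ⧸ G₁) = QuotientGroup.mk b := Quotient.sound hab
    obtain ⟨x, rfl⟩ : ∃ x, b = a * x := ⟨a⁻¹ * b, (mul_inv_cancel_left a b).symm⟩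
    rw [QuotientGroup.eq, inv_mul_cancel_left] at h1
    rw [hcm, hc1 _ h1, ac_zero, add_zero])
  let th2 : G ⧸ G₂ → (G ⧸ H → ℤ) :=
    Quotient.lift (fun g => c g + ac H g (dlt H ((1 : G) : G ⧸ H))) (by
    intro a b hab
    have h1 : (QuotientGroup.mk a : G ⧸ G₂) = QuotientGroup.mk b := Quotient.sound hab
    obtain ⟨x, rfl⟩ : ∃ x, b = a * x := ⟨a⁻¹ * b, (mul_inv_cancel_left a b).symm⟩
    rw [QuotientGroup.eq, inv_mul_cancel_left] at h1
    show c a + ac H a (dlt H ((1 : G) : G ⧸ H)) = c (a * x) + ac H (a * x) (dlt H ((1 : G) : G ⧸ H))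
    rw [hcm, hc2 _ h1, ac_sub, ac_mul]
    abel)
  let th : (G ⧸ G₁) ⊕ (G ⧸ G₂) → (G ⧸ H → ℤ) := Sum.elim th1 th2
  have hth1 : ∀ g : G, th (Sum.inl (QuotientGroup.mk g)) = c g := fun g => rfl
  have hth2 : ∀ g : G, th (Sum.inr (QuotientGroup.mk g)) = c g + dlt H (QuotientGroup.mk g) := by
    intro g
    have e : g • ((1 : G) : G ⧸ H) = QuotientGroup.mk g := by
      show ((g * 1 : G) : G ⧸ H) = _
      rw [mul_one]
    rw [← e, ← ac_dlt]
    rfl
  have hbridge : ∀ d : G, ¬ ((cg G₁ G₂).deleteEdges {s((Sum.inl (QuotientGroup.mk d) :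
      (G ⧸ G₁) ⊕ (G ⧸ G₂)), Sum.inr (QuotientGroup.mk d))}).Reachable
      (Sum.inl (QuotientGroup.mk d)) (Sum.inr (QuotientGroup.mk d)) := by
    intro d hr
    have key : ∀ x y, ((cg G₁ G₂).deleteEdges {s((Sum.inl (QuotientGroup.mk d) :
        (G ⧸ G₁) ⊕ (G ⧸ G₂)), Sum.inr (QuotientGroup.mk d))}).Reachable x y →
        th x (QuotientGroup.mk d) = th y (QuotientGroup.mk d) := by
      intro x y hxy
      obtain ⟨p⟩ := hxy
      induction p with
      | nil => rfl
      | cons hadj _ ih =>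
        refine Eq.trans ?_ ih
        rw [SimpleGraph.deleteEdges_adj, Set.mem_singleton_iff] at hadj
        obtain ⟨h1, h2⟩ := hadj
        have hstep : ∀ e : G, s((Sum.inl (QuotientGroup.mk e) : (G ⧸ G₁) ⊕ (G ⧸ G₂)),
            Sum.inr (QuotientGroup.mk e)) ≠ s((Sum.inl (QuotientGroup.mk d) :
            (G ⧸ G₁) ⊕ (G ⧸ G₂)), Sum.inr (QuotientGroup.mk d)) →
            th (Sum.inl (QuotientGroup.mk e)) (QuotientGroup.mk d) =
              th (Sum.inr (QuotientGroup.mk e)) (QuotientGroup.mk d) := by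
          intro e he
          rw [hth1, hth2, Pi.add_apply, dlt_ne, add_zero]
          intro heq
          apply he
          rw [QuotientGroup.eq] at heq
          have e1 : (QuotientGroup.mk e : G ⧸ G₁) = QuotientGroup.mk d :=
            (QuotientGroup.eq.2 (hH1 heq)).symm
          have e2 : (QuotientGroup.mk e : G ⧸ G₂) = QuotientGroup.mk d :=
            (QuotientGroup.eq.2 (hH2 heq)).symm
          rw [e1, e2]
        rw [hXadj] at h1
        obtain ⟨e, ⟨h3, h4⟩ | ⟨h3, h4⟩⟩ := h1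
        · rw [h3, h4] at h2 ⊢
          exact hstep e h2
        · rw [h3, h4] at h2 ⊢
          rw [Sym2.eq_swap] at h2
          exact (hstep e h2).symm
    have h1 := key _ _ hr
    rw [hth1, hth2, Pi.add_apply, dlt_same] at h1
    omega
  have htree : (cg G₁ G₂).IsTree := by
    refine ⟨?_, ?_⟩
    · have : Nonempty ((G ⧸ G₁) ⊕ (G ⧸ G₂)) := ⟨Sum.inl (QuotientGroup.mk 1)⟩
      have hall : ∀ v : (G ⧸ G₁) ⊕ (G ⧸ G₂),
          (cg G₁ G₂).Reachable (Sum.inl (QuotientGroup.mk 1)) v := by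
        rintro (v | v)
        · induction v using QuotientGroup.induction_on with
          | H a => exact hconn a
        · induction v using QuotientGroup.induction_on with
          | H a => exact (hconn a).trans (hedge a)
      refine SimpleGraph.Connected.mk ?_
      intro v w
      exact (hall v).symm.trans (hall w)
    · rw [SimpleGraph.isAcyclic_iff_forall_adj_isBridge]
      intro v w hvw
      rw [SimpleGraph.isBridge_iff]
      rw [hXadj] at hvw
      obtain ⟨d, ⟨h1, h2⟩ | ⟨h1, h2⟩⟩ := hvw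
      · rw [h1, h2]
        exact hbridge d
      · rw [h1, h2, Sym2.eq_swap]
        intro h3
        exact hbridge d h3.symm
  refine ⟨⟨htree, hXact⟩, ?_, hinter⟩
  intro n _ v w hvw h1 h2
  rw [hXadj] at hvw
  obtain ⟨d, ⟨h3, h4⟩ | ⟨h3, h4⟩⟩ := hvw
  · rw [h3, h4, hsm1] at h1
    exact Sum.inl_ne_inr h1
  · rw [h3, h4, hsm1] at h2
    exact Sum.inl_ne_inr h2

end Pool.Agent.H75.INF
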