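import Pool.Agent.H75.INF.Ord
import Pool.Agent.H52.PAG.Deo

/-!
# [H75 INF MR] shortest representatives of the cosets `par cs K * y` and positions

`mr_isL`: `isL_iff`, `mrep_isMin`. `ps_mem`: `ps y = y * mr y`⁻¹ `= (mrep y⁻¹)`... : `mrep_mem cs K y⁻¹` says `(y⁻¹)⁻¹ * mrep cs K y⁻¹ ∈ par`,
and this is `ps y`. `ps_mul_mr`: group. `mr_unique`: `isL_unique` for `κ * u = y = ps y * mr y`, then cancel. `mr_par`, `ps_par`:
`mr_unique` for `(κ * ps y) * mr y = κ * y`. `on_par`: `(κ y) s_r (κ y)⁻¹ = κ (y s_r y⁻¹) κ⁻¹`. `ltr_par`: unfold `ltr`, `mr_par`.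
`on_iff`: `y s_r y⁻¹ = ps y * (mr y * s_r * (mr y)⁻¹) * (ps y)⁻¹`.
`step_on`: let `u = mr y`; `u s_r u⁻¹ ∈ par` (`on_iff`). If `IsL cs K (u * s_r)` then `isL_unique` for
`(u s_r u⁻¹) * u = 1 * (u * s_r)` gives `u = u * s_r`, so `s_r = 1`, a contradiction (`simple_ne_one` or the length is `1`). So `deodhar`
gives `k ∈ K` with `u s_r = s_k u`, hence `ltr y r` is such a `k` (`dif_pos`, `choose_spec`); `y s_r = (ps y * s_k) * u`: `mr_unique`.
`step_off`: `u * s_r` satisfies `IsL` (otherwise `deodhar`: `u s_r u⁻¹ = s_k ∈ par`, so `On`), `y s_r = ps y * (u s_r)`: `mr_unique`.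
`simple_ltr`: from `step_on`: `s_k = u s_r u⁻¹` and `u = (ps y)⁻¹ * y`. `ltr_eq`: `s_(ltr y r) = mr y * s_r * (mr y)⁻¹ = s_k`, `simple_inj`.
`on_step`: `(y s_r) s_r (y s_r)⁻¹ = y s_r y⁻¹`. `ltr_step`: `mr (y s_r) = mr y` (`step_on`), unfold.
`mr_of_isL`: `mr_unique` with `κ = 1`. `mr_mem`: `mr_unique` with `u = 1` (`isL_one`).
-/

set_option autoImplicit false

namespace Pool.Agent.H75.INF

open CoxeterSystem Pool.H8.CDW Pool.Agent.H52.PAG

variable {B W : Type*} [Group W] {M : CoxeterMatrix B} (cs : CoxeterSystem M W) (K : Set B)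

theorem mr_isL (y : W) : IsL cs K (mr cs K y) := by
  rw [isL_iff]
  unfold mr
  rw [inv_inv]
  exact mrep_isMin cs K _

theorem ps_mem (y : W) : ps cs K y ∈ par cs K := by
  unfold ps mr
  rw [inv_inv]
  have h := mrep_mem cs K y⁻¹
  rwa [inv_inv] at h

theorem ps_mul_mr (y : W) : ps cs K y * mr cs K y = y := by
  unfold ps
  rw [inv_mul_cancel_right]

variable {K} in
theorem mr_unique {κ u y : W} (hκ : κ ∈ par cs K) (hu : IsL cs K u) (h : κ * u = y) :
    mr cs K y = u ∧ ps cs K y = κ := by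
  have h1 : mr cs K y = u :=
    isL_unique cs (mr_isL cs K y) hu (ps_mem cs K y) hκ (by rw [ps_mul_mr, h])
  refine ⟨h1, ?_⟩
  unfold ps
  rw [h1, ← h, mul_inv_cancel_right]

variable {K} in
theorem mr_of_isL {u : W} (hu : IsL cs K u) : mr cs K u = u ∧ ps cs K u = 1 :=
  mr_unique cs (one_mem _) hu (one_mul u)

variable {K} in
theorem mr_mem {κ : W} (hκ : κ ∈ par cs K) : mr cs K κ = 1 ∧ ps cs K κ = κ :=
  mr_unique cs hκ (isL_one cs K) (mul_one κ)

variable {K} in
theorem mr_par {κ : W} (hκ : κ ∈ par cs K) (y : W) : mr cs K (κ * y) = mr cs K y :=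
  (mr_unique cs (mul_mem hκ (ps_mem cs K y)) (mr_isL cs K y) (by rw [mul_assoc, ps_mul_mr])).1

variable {K} in
theorem ps_par {κ : W} (hκ : κ ∈ par cs K) (y : W) : ps cs K (κ * y) = κ * ps cs K y :=
  (mr_unique cs (mul_mem hκ (ps_mem cs K y)) (mr_isL cs K y) (by rw [mul_assoc, ps_mul_mr])).2

variable {K} in
theorem on_conj {κ : W} (hκ : κ ∈ par cs K) (x : W) : κ * x * κ⁻¹ ∈ par cs K ↔ x ∈ par cs K := by
  constructor
  · intro h
    have e : x = κ⁻¹ * (κ * x * κ⁻¹) * κ := by group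
    rw [e]
    exact mul_mem (mul_mem (inv_mem hκ) h) hκ
  · intro h
    exact mul_mem (mul_mem hκ h) (inv_mem hκ)

variable {K} in
theorem on_par {κ : W} (hκ : κ ∈ par cs K) (y : W) (r : B) : On cs K (κ * y) r ↔ On cs K y r := by
  unfold On
  have e : κ * y * cs.simple r * (κ * y)⁻¹ = κ * (y * cs.simple r * y⁻¹) * κ⁻¹ := by group
  rw [e]
  exact on_conj cs hκ _

variable {K} in
theorem ltr_par {κ : W} (hκ : κ ∈ par cs K) (y : W) (r : B) : ltr cs K (κ * y) r = ltr cs K y r := by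
  unfold ltr
  rw [mr_par cs hκ]

theorem on_iff (y : W) (r : B) : On cs K y r ↔ mr cs K y * cs.simple r * (mr cs K y)⁻¹ ∈ par cs K := by
  unfold On
  have e : y * cs.simple r * y⁻¹ =
      ps cs K y * (mr cs K y * cs.simple r * (mr cs K y)⁻¹) * (ps cs K y)⁻¹ := by
    conv_lhs => rw [← ps_mul_mr cs K y]
    group
  rw [e]
  exact on_conj cs (ps_mem cs K y) _

theorem on_step (y : W) (r : B) : On cs K (y * cs.simple r) r ↔ On cs K y r := by
  unfold On
  have e : y * cs.simple r * cs.simple r * (y * cs.simple r)⁻¹ = y * cs.simple r * y⁻¹ := by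
    rw [mul_inv_rev, cs.inv_simple, simple_mul_simple_cancel_right, ← mul_assoc]
  rw [e]

variable {K}

theorem simple_ne_one' (r : B) : cs.simple r ≠ 1 := by
  intro h
  have h1 := cs.length_simple r
  rw [h, cs.length_one] at h1
  exact absurd h1 (by norm_num)

theorem step_aux {y : W} {r : B} (h : On cs K y r) :
    ∃ k ∈ K, mr cs K y * cs.simple r = cs.simple k * mr cs K y := by
  have h1 := (on_iff cs K y r).1 h
  refine deodhar cs (mr_isL cs K y) ?_
  intro h2
  have h3 : mr cs K y = mr cs K y * cs.simple r :=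
    isL_unique cs (mr_isL cs K y) h2 h1 (one_mem _) (by rw [inv_mul_cancel_right, one_mul])
  exact simple_ne_one' cs r (left_eq_mul.1 h3)

theorem step_on {y : W} {r : B} (h : On cs K y r) : ltr cs K y r ∈ K ∧
    mr cs K y * cs.simple r = cs.simple (ltr cs K y r) * mr cs K y ∧ mr cs K (y * cs.simple r) = mr cs K y ∧
    ps cs K (y * cs.simple r) = ps cs K y * cs.simple (ltr cs K y r) := by
  classical
  have h1 := step_aux cs h
  have h2 : ltr cs K y r ∈ K ∧ mr cs K y * cs.simple r = cs.simple (ltr cs K y r) * mr cs K y := by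
    unfold ltr
    rw [dif_pos h1]
    exact h1.choose_spec
  obtain ⟨h3, h4⟩ := h2
  have h5 := mr_unique cs (mul_mem (ps_mem cs K y) (simple_mem_par cs h3)) (mr_isL cs K y)
    (y := y * cs.simple r) (by
      rw [mul_assoc, ← h4, ← mul_assoc, ps_mul_mr])
  exact ⟨h3, h4, h5.1, h5.2⟩

theorem step_off {y : W} {r : B} (h : ¬ On cs K y r) : mr cs K (y * cs.simple r) = mr cs K y * cs.simple r ∧
    ps cs K (y * cs.simple r) = ps cs K y := by
  have h1 : IsL cs K (mr cs K y * cs.simple r) := by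
    by_contra h2
    obtain ⟨k, hk, h3⟩ := deodhar cs (mr_isL cs K y) h2
    apply h
    rw [on_iff, h3, mul_inv_cancel_right]
    exact simple_mem_par cs hk
  exact mr_unique cs (ps_mem cs K y) h1 (by rw [← mul_assoc, ps_mul_mr])

theorem simple_ltr {y : W} {r : B} (h : On cs K y r) :
    cs.simple (ltr cs K y r) = (ps cs K y)⁻¹ * (y * cs.simple r * y⁻¹) * ps cs K y := by
  obtain ⟨_, h2, _, _⟩ := step_on cs h
  have h3 : cs.simple (ltr cs K y r) = mr cs K y * cs.simple r * (mr cs K y)⁻¹ := by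
    rw [h2, mul_inv_cancel_right]
  rw [h3]
  have e : mr cs K y = (ps cs K y)⁻¹ * y := by
    rw [eq_inv_mul_iff_mul_eq, ps_mul_mr]
  rw [e]
  group

theorem ltr_eq {y : W} {r k : B} (h : On cs K y r) (hk : mr cs K y * cs.simple r = cs.simple k * mr cs K y) :
    ltr cs K y r = k := by
  obtain ⟨_, h2, _, _⟩ := step_on cs h
  apply simple_inj cs
  rw [hk] at h2
  exact (mul_right_cancel h2).symm

theorem ltr_step {y : W} {r : B} (h : On cs K y r) : ltr cs K (y * cs.simple r) r = ltr cs K y r := by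
  obtain ⟨_, _, h3, _⟩ := step_on cs h
  unfold ltr
  rw [h3]

end Pool.Agent.H75.INF
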