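import Pool.Agent.H75.INF.Mts
import Pool.Agent.H75.INF.Mr

/-!
# [H75 INF BRD] the outputs of the two sides of a braid relation

As `Pool.Agent.H52.PAG.run_spec` and `run_braid` (`H52/PAG/Run.lean`), where the state is the shortest representative; here the state is `y`.
`out_mem`: `step_on`. `out_prod`: induction on `ω` for all `y`: letter `On`: `ps (y s_r) = ps y * s_(ltr y r)` (`step_on`); otherwise
`ps (y s_r) = ps y` (`step_off`). `out_lis`: induction: `leftInvSeq (r :: ω) = s_r :: map (MulAut.conj s_r) (leftInvSeq ω)`, and
`conj (mr y) ∘ conj s_r = conj (mr y * s_r)`. Not `On`: `mr (y s_r) = mr y * s_r`, `List.Sublist.cons`. `On`, `k = ltr y r`: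
`s_k = mr y * s_r * (mr y)⁻¹`, `mr (y s_r) = mr y`, `mr y * s_r = s_k * mr y`: `List.Sublist.map`, `List.Sublist.cons_cons`.
`out_braid`: `i = j` is trivial. Both outputs are reduced: `nodup_altw` for `i j`, and for `j i` with `M.symmetric`, mapped by the injective
`MulAut.conj`, sublist (`List.Sublist.nodup`), `red_of_nodup`. They have the same product (`out_prod`, `prod_altw`). Use `matsu`.
-/

set_option autoImplicit false

namespace Pool.Agent.H75.INF

open CoxeterSystem Pool.H8.CDW Pool.Agent.H52.PAG

variable {B W : Type*} [Group W] {M : CoxeterMatrix B} (cs : CoxeterSystem M W)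

private theorem out_on {K : Set B} {ω : List B} {y : W} {r : B} (h : On cs K y r) :
    out cs K y (r :: ω) = ltr cs K y r :: out cs K (y * cs.simple r) ω := by
  rw [out, if_pos h]

private theorem out_off {K : Set B} {ω : List B} {y : W} {r : B} (h : ¬ On cs K y r) :
    out cs K y (r :: ω) = out cs K (y * cs.simple r) ω := by
  rw [out, if_neg h]

theorem out_mem {K : Set B} (ω : List B) (y : W) : ∀ k ∈ out cs K y ω, k ∈ K := by
  induction ω generalizing y with
  | nil =>
    intro k hk
    simp [out] at hk
  | cons r ω ih =>
    by_cases h : On cs K y r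
    · rw [out_on cs h]
      intro k hk
      rcases List.mem_cons.1 hk with rfl | hk
      · exact (step_on cs h).1
      · exact ih _ k hk
    · rw [out_off cs h]
      exact ih _

theorem out_prod (K : Set B) (ω : List B) (y : W) :
    ps cs K y * cs.wordProd (out cs K y ω) = ps cs K (y * cs.wordProd ω) := by
  induction ω generalizing y with
  | nil => simp [out]
  | cons r ω ih =>
    by_cases h : On cs K y r
    · rw [out_on cs h, wordProd_cons, wordProd_cons, ← mul_assoc, ← (step_on cs h).2.2.2, ih,
        mul_assoc]
    · rw [out_off cs h, wordProd_cons, ← mul_assoc, ← ih, (step_off cs h).2]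

theorem out_lis (K : Set B) (ω : List B) (y : W) : (cs.leftInvSeq (out cs K y ω)).Sublist
    ((cs.leftInvSeq ω).map (MulAut.conj (mr cs K y))) := by
  induction ω generalizing y with
  | nil => simp [out]
  | cons r ω ih =>
    have hl : (cs.leftInvSeq (r :: ω)).map (MulAut.conj (mr cs K y)) =
        (mr cs K y * cs.simple r * (mr cs K y)⁻¹) ::
          (cs.leftInvSeq ω).map (MulAut.conj (mr cs K y * cs.simple r)) := by
      rw [leftInvSeq, List.map_cons, List.map_map, MulAut.conj_apply]
      congr 1
      apply List.map_congr_left
      intro t _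
      simp [MulAut.conj_apply, mul_assoc]
    rw [hl]
    by_cases h : On cs K y r
    · obtain ⟨h1, h2, h3, h4⟩ := step_on cs h
      have h5 := ih (y * cs.simple r)
      rw [h3] at h5
      rw [out_on cs h, leftInvSeq]
      have h7 : cs.simple (ltr cs K y r) = mr cs K y * cs.simple r * (mr cs K y)⁻¹ := by
        rw [h2, mul_inv_cancel_right]
      have h8 : (cs.leftInvSeq ω).map (MulAut.conj (mr cs K y * cs.simple r)) =
          ((cs.leftInvSeq ω).map (MulAut.conj (mr cs K y))).map
            (MulAut.conj (cs.simple (ltr cs K y r))) := by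
        rw [List.map_map, h2]
        apply List.map_congr_left
        intro t _
        simp [MulAut.conj_apply, mul_assoc]
      rw [h8, ← h7]
      exact (h5.map _).cons_cons _
    · have h5 := ih (y * cs.simple r)
      rw [(step_off cs h).1] at h5
      rw [out_off cs h]
      exact h5.cons _

theorem out_braid (K : Set B) {N : Type*} [Monoid N] (f : B → N)
    (hf : ∀ i ∈ K, ∀ j ∈ K, M i j ≠ 0 → alt (f i) (f j) (M i j) = alt (f j) (f i) (M i j)) (i j : B) (y : W) :
    ((out cs K y (altw i j (M i j))).map f).prod = ((out cs K y (altw j i (M i j))).map f).prod := by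
  by_cases hij : i = j
  · subst hij
    rfl
  have hinj : Function.Injective (MulAut.conj (mr cs K y) : W → W) :=
    (MulAut.conj (mr cs K y)).injective
  have ra : cs.IsReduced (out cs K y (altw i j (M i j))) :=
    red_of_nodup cs ((out_lis cs K _ y).nodup ((nodup_altw cs hij).map hinj))
  have rb : cs.IsReduced (out cs K y (altw j i (M i j))) := by
    refine red_of_nodup cs ((out_lis cs K _ y).nodup ?_)
    have h := nodup_altw cs (i := j) (j := i) (Ne.symm hij)
    rw [M.symmetric j i] at h
    exact h.map hinj
  have h1 := out_prod cs K (altw i j (M i j)) y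
  rw [prod_altw, ← out_prod cs K (altw j i (M i j)) y] at h1
  exact matsu cs K f hf ra rb (out_mem cs _ y) (out_mem cs _ y) (mul_left_cancel h1)

end Pool.Agent.H75.INF
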