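import Pool.Agent.H75.INF.Brd

/-!
# [H75 INF COC] existence of the cocycle

Let `W = M.Group` act on the group of the functions `W → N` by `(w • F) y = F (y * w)` (a homomorphism `θ : W →* MulAut (W → N)`), and let
`S = (W → N) ⋊[θ] W`. Let `X r = ⟨fun y => if On y r then f (ltr y r) else 1, s_r⟩ : S`. By induction on `n` (all `i`, `j`, `y`):
`(alt (X i) (X j) n).right = π (altw i j n)` and `(alt (X i) (X j) n).left y = ((out cs K y (altw i j n)).map f).prod` (`out` unfolds with the
same condition; `(a * b).left = a.left * θ a.right b.left`). So `alt (X i) (X j) (M i j) = alt (X j) (X i) (M i j)` for `M i j ≠ 0`: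
`out_braid` and `prod_altw`, and `PAG.lift X` is a homomorphism `Φ : Art M →* S`. `(Φ a).right = toCox M a`
(`SemidirectProduct.rightHom`, `art_ext`, `toCox_gen'`). Put `c y a = (Φ a).left y`.
-/

set_option autoImplicit false

namespace Pool.Agent.H75.INF

open CoxeterSystem Pool.H8.CDW Pool.Agent.H52.PAG

variable {B : Type} (M : CoxeterMatrix B)

/-- the group `W` acts on the functions `W → N` -/
private def th (W N : Type*) [Group W] [Group N] : W →* MulAut (W → N) where
  toFun w :=
    { toFun := fun F y => F (y * w)
      invFun := fun F y => F (y * w⁻¹)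
      left_inv := fun F => funext fun y => by
        show F (y * w⁻¹ * w) = F y
        rw [inv_mul_cancel_right]
      right_inv := fun F => funext fun y => by
        show F (y * w * w⁻¹) = F y
        rw [mul_inv_cancel_right]
      map_mul' := fun _ _ => rfl }
  map_one' := by
    refine MulEquiv.ext fun F => funext fun y => ?_
    show F (y * 1) = F y
    rw [mul_one]
  map_mul' a b := by
    refine MulEquiv.ext fun F => funext fun y => ?_
    show F (y * (a * b)) = F (y * a * b)
    rw [mul_assoc]

private theorem th_apply {W N : Type*} [Group W] [Group N] (w : W) (F : W → N) (y : W) :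
    th W N w F y = F (y * w) := rfl

open Classical in
/-- the images of the generators -/
private noncomputable def xg (K : Set B) {N : Type*} [Group N] (f : B → N) (r : B) :
    SemidirectProduct (M.Group → N) M.Group (th M.Group N) :=
  ⟨fun y => if On M.toCoxeterSystem K y r then f (ltr M.toCoxeterSystem K y r) else 1, M.toCoxeterSystem.simple r⟩

private theorem alt_xg (K : Set B) {N : Type*} [Group N] (f : B → N) (n : ℕ) (i j : B) :
    (alt (xg M K f i) (xg M K f j) n).right = M.toCoxeterSystem.wordProd (altw i j n) ∧
      ∀ y, (alt (xg M K f i) (xg M K f j) n).left y = ((out M.toCoxeterSystem K y (altw i j n)).map f).prod := by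
  classical
  induction n generalizing i j with
  | zero =>
    refine ⟨?_, fun y => ?_⟩
    · rw [alt, altw, SemidirectProduct.one_right, wordProd_nil]
    · rw [alt, altw, SemidirectProduct.one_left, out, List.map_nil, List.prod_nil]
      rfl
  | succ n ih =>
    obtain ⟨h1, h2⟩ := ih j i
    refine ⟨?_, fun y => ?_⟩
    · rw [alt, altw, SemidirectProduct.mul_right, h1, wordProd_cons]
      rfl
    · rw [alt, altw, SemidirectProduct.mul_left, Pi.mul_apply, th_apply, h2]
      by_cases h : On M.toCoxeterSystem K y i
      · have h3 : (xg M K f i).left y = f (ltr M.toCoxeterSystem K y i) := if_pos h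
        rw [h3, out, if_pos h, List.map_cons, List.prod_cons]
        rfl
      · have h3 : (xg M K f i).left y = 1 := if_neg h
        rw [h3, out, if_neg h, one_mul]
        rfl

private theorem xg_rel (K : Set B) {N : Type*} [Group N] (f : B → N) (hf : Br M K f) (i j : B) (_h : M i j ≠ 0) :
    alt (xg M K f i) (xg M K f j) (M i j) = alt (xg M K f j) (xg M K f i) (M i j) := by
  obtain ⟨a1, a2⟩ := alt_xg M K f (M i j) i j
  obtain ⟨b1, b2⟩ := alt_xg M K f (M i j) j i
  refine SemidirectProduct.ext ?_ ?_
  · funext y
    rw [a2, b2]
    exact out_braid M.toCoxeterSystem K f hf i j y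
  · rw [a1, b1]
    exact prod_altw M.toCoxeterSystem i j

theorem exists_cz (K : Set B) {N : Type*} [Group N] (f : B → N) (hf : Br M K f) :
    ∃ c : M.Group → Art M → N, IsCz M K f c := by
  classical
  let Φ : Art M →* SemidirectProduct (M.Group → N) M.Group (th M.Group N) :=
    Pool.Agent.H52.PAG.lift (xg M K f) (xg_rel M K f hf)
  have hgen : ∀ r, Φ (gen M r) = xg M K f r := fun r => lift_gen _ _ r
  have hright : ∀ a, (Φ a).right = toCox M a := by
    intro a
    have h1 : (SemidirectProduct.rightHom.comp Φ : Art M →* M.Group) = toCox M := by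
      refine art_ext fun r => ?_
      show (Φ (gen M r)).right = _
      rw [hgen, toCox_gen']
      rfl
    exact DFunLike.congr_fun h1 a
  refine ⟨fun y a => (Φ a).left y, fun y => ?_, fun y a b => ?_, fun y r h => ?_, fun y r h => ?_⟩
  · show (Φ 1).left y = 1
    rw [map_one, SemidirectProduct.one_left]
    rfl
  · show (Φ (a * b)).left y = (Φ a).left y * (Φ b).left (y * toCox M a)
    rw [map_mul, SemidirectProduct.mul_left, Pi.mul_apply, th_apply, hright]
  · show (Φ (gen M r)).left y = _
    rw [hgen]
    exact if_pos h
  · show (Φ (gen M r)).left y = _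
    rw [hgen]
    exact if_neg h

/-- the cocycle with values in the Artin group -/
noncomputable def cy (K : Set B) : M.Group → Art M → Art M := (exists_cz M K (gen M) (br_gen M K)).choose

theorem cy_spec (K : Set B) : IsCz M K (gen M) (cy M K) := (exists_cz M K (gen M) (br_gen M K)).choose_spec

end Pool.Agent.H75.INF
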