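import Pool.Agent.H75.INF.Geo

/-!
# [H75 INF DYE] dynamics on a tree, elliptic case

Among the pairs `(m, p)` with `m > 0` and `w ^ m • p = p` choose one with minimal `d = dist p v₀` (`Nat.find`). If `d = 0` then `p = v₀`,
`(w ^ m) ^ j • v₀ = v₀` for all `j`, and the set is infinite, hence nonempty: `x • v₀ = v₀`. Let `d > 0`, `u` the neighbour of `p` with
`dist p v₀ = dist u v₀ + 1` (`exists_next`). Let `x` fix `(w ^ m) ^ j • v₀` and `(w ^ m) ^ k • v₀` with `j ≠ k` (an infinite set has two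
different elements). The vertices `(w ^ m) ^ j • u ≠ (w ^ m) ^ k • u`: otherwise `(w ^ m) ^ (k - j) • u = u`, so a positive power of `w` fixes
`u`, and `dist u v₀ < d`. `p` is fixed by `w ^ m`, so both are neighbours of `p`, closer to the translates of `v₀` (`dist_smul`):
`no_cancel` gives `dist ((w ^ m) ^ j • v₀) ((w ^ m) ^ k • v₀) = dist .. p + dist p ..`, and `fix_between`.
-/

set_option autoImplicit false

namespace Pool.Agent.H75.INF

open Pool.Agent.H93.TR

variable {G V : Type} [Group G] [MulAction G V] {X : SimpleGraph V}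

private theorem zpow_fix {g : G} {v : V} (h : g • v = v) (j : ℤ) : g ^ j • v = v := by
  have h1 : g ∈ MulAction.stabilizer G v := h
  exact (Subgroup.zpow_mem _ h1 j : g ^ j ∈ MulAction.stabilizer G v)

theorem dyn_ell (hX : OnTree G X) (w : G) (v₀ : V) (h : ∃ m : ℕ, 0 < m ∧ ∃ v : V, w ^ m • v = v) :
    ∃ (m : ℕ) (p : V), 0 < m ∧ w ^ m • p = p ∧
      ∀ x : G, {j : ℤ | x • (w ^ m) ^ j • v₀ = (w ^ m) ^ j • v₀}.Infinite → x • p = p := by
  classical
  have hex : ∃ d : ℕ, ∃ (m : ℕ) (p : V), 0 < m ∧ w ^ m • p = p ∧ X.dist p v₀ = d := by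
    obtain ⟨m, hm, v, hv⟩ := h
    exact ⟨_, m, v, hm, hv, rfl⟩
  obtain ⟨m, p, hm, hp, hd⟩ := Nat.find_spec hex
  have hmin : ∀ (m' : ℕ) (p' : V), 0 < m' → w ^ m' • p' = p' → X.dist p v₀ ≤ X.dist p' v₀ := by
    intro m' p' hm' hp'
    rw [hd]
    exact Nat.find_min' hex ⟨m', p', hm', hp', rfl⟩
  refine ⟨m, p, hm, hp, fun x hx => ?_⟩
  by_cases hpv : p = v₀
  · obtain ⟨j, hj⟩ := hx.nonempty
    have h1 : (w ^ m) ^ j • v₀ = v₀ := by
      rw [← hpv]
      exact zpow_fix hp j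
    have hj' : x • (w ^ m) ^ j • v₀ = (w ^ m) ^ j • v₀ := hj
    rw [h1] at hj'
    rw [hpv]
    exact hj'
  · obtain ⟨u, hu, hud⟩ := exists_next hX.tree hpv
    obtain ⟨j, hj, k, hk, hjk⟩ := hx.nontrivial
    have hj' : x • (w ^ m) ^ j • v₀ = (w ^ m) ^ j • v₀ := hj
    have hk' : x • (w ^ m) ^ k • v₀ = (w ^ m) ^ k • v₀ := hk
    have hne : (w ^ m) ^ j • u ≠ (w ^ m) ^ k • u := by
      intro he
      have h1 : (w ^ m) ^ (k - j) • u = u := by
        have h2 : (w ^ m) ^ (k - j) = ((w ^ m) ^ j)⁻¹ * (w ^ m) ^ k := by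
          rw [← zpow_neg, ← zpow_add]
          congr 1
          ring
        rw [h2, mul_smul, ← he, inv_smul_smul]
      have h3 : (w ^ m) ^ (k - j).natAbs • u = u := by
        rcases Int.natAbs_eq (k - j) with h4 | h4
        · rw [h4] at h1
          rwa [zpow_natCast] at h1
        · have h5 := zpow_fix h1 (-1)
          rw [← zpow_mul, mul_neg_one, h4, neg_neg, zpow_natCast] at h5
          exact h5
      have h6 : 0 < (k - j).natAbs := by
        rw [Int.natAbs_pos]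
        exact sub_ne_zero.2 (Ne.symm hjk)
      rw [← pow_mul] at h3
      have h7 := hmin _ u (Nat.mul_pos hm h6) h3
      omega
    have hpj : (w ^ m) ^ j • p = p := zpow_fix hp j
    have hpk : (w ^ m) ^ k • p = p := zpow_fix hp k
    have e1 : X.dist ((w ^ m) ^ j • v₀) p = X.dist ((w ^ m) ^ j • v₀) ((w ^ m) ^ j • u) + 1 := by
      have h1 : X.dist ((w ^ m) ^ j • v₀) p = X.dist ((w ^ m) ^ j • v₀) ((w ^ m) ^ j • p) := by
        rw [hpj]
      rw [h1, dist_smul hX, dist_smul hX, SimpleGraph.dist_comm, hud, SimpleGraph.dist_comm]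
    have e2 : X.dist p ((w ^ m) ^ k • v₀) = X.dist ((w ^ m) ^ k • u) ((w ^ m) ^ k • v₀) + 1 := by
      have h1 : X.dist p ((w ^ m) ^ k • v₀) = X.dist ((w ^ m) ^ k • p) ((w ^ m) ^ k • v₀) := by
        rw [hpk]
      rw [h1, dist_smul hX, dist_smul hX, hud]
    have a1 : X.Adj ((w ^ m) ^ j • u) p := by
      have h1 := hX.adj ((w ^ m) ^ j) p u hu
      rw [hpj] at h1
      exact h1.symm
    have a2 : X.Adj p ((w ^ m) ^ k • u) := by
      have h1 := hX.adj ((w ^ m) ^ k) p u hu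
      rw [hpk] at h1
      exact h1
    exact fix_between hX x hj' hk' (no_cancel hX.tree a1 a2 hne e1 e2)

end Pool.Agent.H75.INF
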