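import Pool.Agent.H75.INF.Geo

/-!
# [H75 INF DYH] dynamics on a tree, hyperbolic case

Let `p` be a vertex with minimal `l = dist p (w • p)`; `l > 0`. Let `u` be the neighbour of `p` with `dist p (w • p) = dist u (w • p) + 1`
(`exists_next`).
(1) There is a neighbour `u'` of `w • p` with `dist p u' + 1 = l` and `u' ≠ w • u`. If `l = 1`: `u = w • p`, `u' = p`; `w • u = p` would be an
inversion of the edge `p, w • p` (`hinv w _ p (w • p)`). If `l ≥ 2`: `u ≠ w • p`; let `u'` be the neighbour of `w • p` with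
`dist (w • p) u = dist u' u + 1` (`exists_next`, `dist_comm`), so `dist u u' = l - 2`, `dist p u' = l - 1` (triangle inequalities); if
`u' = w • u` then `dist u (w • u) = l - 2 < l`, a contradiction to the choice of `p`.
(2) For `k : ℕ`: `dist p (w ^ (k+1) • p) = (k+1) l` and `dist p (w ^ k • u') + 1 = (k+1) l`. Induction: `no_cancel` with `a = p`,
`b = w ^ (k+1) • p`, `c = w ^ (k+2) • p`, last vertex `w ^ k • u'`, next vertex `w ^ (k+1) • u` (different by (1)); then the triangle
inequality for `w ^ (k+1) • u'`. So for integers `j ≤ k`: `dist (w ^ j • p) (w ^ k • p) = (k - j) l`,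
`dist (w ^ j • p) (w ^ k • u) = (k - j) l + 1`, and for `k < i`: `dist (w ^ i • p) (w ^ k • u) = (i - k) l - 1` (triangle inequalities with
`dist u (w • p) = l - 1`).
(3) Let `d = dist v₀ p`, `a = w ^ j • v₀`, `j < k`, `k - j > d` : then `dist a (w ^ k • u) = dist a (w ^ k • p) + 1`: otherwise
(`dist_adj`) `dist a (w ^ k • p) = dist a (w ^ k • u) + 1`, and `sep_dist` with `z = w ^ j • p` and the edge `w ^ k • p, w ^ k • u` gives
`d = dist z a ≥ dist z (w ^ k • p) + 1 > d`. In the same way for `b = w ^ i • v₀`, `i - k > d + 1`: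
`dist b (w ^ k • p) = dist b (w ^ k • u) + 1`. So (`sep_dist`) `w ^ k • p` is between `a` and `b`.
(4) Let `S` be the infinite set of the `j` such that `x` fixes `w ^ j • v₀`. It is not bounded above or not bounded below. If it is not bounded
above, choose `j ∈ S`, `n = j + d + 1`; for `k ≥ n` choose `i ∈ S` with `i > k + d + 1`: `fix_between` gives `x • w ^ k • p = w ^ k • p`. If it is not
bounded below: choose `i ∈ S`, `n = i - d - 2`, and for `k ≤ n` some `j ∈ S`, `j < k - d`.
-/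

set_option autoImplicit false

namespace Pool.Agent.H75.INF

open Pool.Agent.H93.TR

variable {G V : Type} [Group G] [MulAction G V] {X : SimpleGraph V}

/-- the data of the axis: `l` is the translation length, `u` the next vertex after `p`, `u'` the last
vertex before `w • p` -/
private structure Ax (G : Type) {V : Type} [Group G] [MulAction G V] (X : SimpleGraph V) (w : G)
    (p u u' : V) (l : ℕ) : Prop where
  pos : 0 < l
  dp : X.dist p (w • p) = l
  adj : X.Adj p u
  du : l = X.dist u (w • p) + 1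
  adj' : X.Adj u' (w • p)
  du' : X.dist p u' + 1 = l
  ne : u' ≠ w • u

private theorem exists_ax (hX : OnTree G X) (hinv : NoInv X (⊤ : Subgroup G)) (w : G) (v₀ : V)
    (h : ∀ m : ℕ, 0 < m → ∀ v : V, w ^ m • v ≠ v) : ∃ (p u u' : V) (l : ℕ), Ax G X w p u u' l := by
  obtain ⟨p, -, hmin⟩ := (measure (fun v : V => X.dist v (w • v))).wf.has_min Set.univ
    ⟨v₀, trivial⟩
  have hmin' : ∀ v, X.dist p (w • p) ≤ X.dist v (w • v) := fun v => not_lt.1 (hmin v trivial)
  have hne : w • p ≠ p := by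
    have h1 := h 1 one_pos p
    rwa [pow_one] at h1
  obtain ⟨l, hl⟩ : ∃ l, l = X.dist p (w • p) := ⟨_, rfl⟩
  have hl0 : 0 < l := by
    rw [hl]
    exact hX.tree.connected.pos_dist_of_ne (Ne.symm hne)
  obtain ⟨u, hu1, hu2⟩ := exists_next hX.tree (Ne.symm hne)
  have hc := hX.tree.connected
  have d1 : ∀ {a b : V}, X.Adj a b → X.dist a b = 1 := fun hab => SimpleGraph.dist_eq_one_iff_adj.2 hab
  by_cases hl1 : l = 1
  · have h0 : X.dist u (w • p) = 0 := by omega
    have hup : u = w • p := hc.dist_eq_zero_iff.1 h0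
    refine ⟨p, u, p, l, hl0, hl.symm, hu1, by omega, by rw [← hup]; exact hu1, ?_, ?_⟩
    · rw [SimpleGraph.dist_self]
      omega
    · intro he
      refine hinv w (Subgroup.mem_top w) p (w • p) (by rw [← hup]; exact hu1) rfl ?_
      rw [← hup]
      exact he.symm
  · have hne2 : w • p ≠ u := by
      intro he
      rw [← he, SimpleGraph.dist_self] at hu2
      omega
    obtain ⟨u', h1, h2⟩ := exists_next hX.tree hne2
    have e1 : X.dist (w • p) u = X.dist u (w • p) := SimpleGraph.dist_comm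
    have e2 : X.dist p u' ≤ X.dist p u + X.dist u u' := hc.dist_triangle
    have e3 : X.dist u u' = X.dist u' u := SimpleGraph.dist_comm
    have e4 : X.dist p (w • p) ≤ X.dist p u' + X.dist u' (w • p) := hc.dist_triangle
    have e5 := d1 hu1
    have e6 := d1 h1.symm
    refine ⟨p, u, u', l, hl0, hl.symm, hu1, by omega, h1.symm, by omega, ?_⟩
    intro he
    have e7 := hmin' u
    rw [← he] at e7
    omega

namespace Ax

variable {w : G} {p u u' : V} {l : ℕ}

private theorem one {a b : V} (h : X.Adj a b) : X.dist a b = 1 := SimpleGraph.dist_eq_one_iff_adj.2 h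

private theorem ab (hX : OnTree G X) (A : Ax G X w p u u' l) (k : ℕ) :
    X.dist p (w ^ (k + 1) • p) = (k + 1) * l ∧ X.dist p (w ^ k • u') + 1 = (k + 1) * l := by
  have hc := hX.tree.connected
  induction k with
  | zero =>
    refine ⟨?_, ?_⟩
    · rw [zero_add, pow_one, A.dp, one_mul]
    · rw [pow_zero, one_smul, A.du']
      ring
  | succ k ih =>
    obtain ⟨ih1, ih2⟩ := ih
    have s1 : w ^ (k + 1) • p = w ^ k • (w • p) := by rw [pow_succ, mul_smul]
    have s2 : w ^ (k + 1 + 1) • p = w ^ (k + 1) • (w • p) := by rw [pow_succ, mul_smul]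
    have s3 : w ^ (k + 1) • u = w ^ k • (w • u) := by rw [pow_succ, mul_smul]
    have a1 : X.Adj (w ^ k • u') (w ^ (k + 1) • p) := by
      rw [s1]
      exact hX.adj _ _ _ A.adj'
    have a2 : X.Adj (w ^ (k + 1) • p) (w ^ (k + 1) • u) := hX.adj _ _ _ A.adj
    have a3 : w ^ k • u' ≠ w ^ (k + 1) • u := by
      rw [s3]
      intro he
      exact A.ne (MulAction.injective _ he)
    have a4 : X.dist p (w ^ (k + 1) • p) = X.dist p (w ^ k • u') + 1 := by rw [ih1, ih2]
    have a5 : X.dist (w ^ (k + 1) • p) (w ^ (k + 1 + 1) • p)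
        = X.dist (w ^ (k + 1) • u) (w ^ (k + 1 + 1) • p) + 1 := by
      rw [s2, dist_smul hX, dist_smul hX, A.dp]
      exact A.du
    have a6 := no_cancel hX.tree a1 a2 a3 a4 a5
    have a7 : X.dist (w ^ (k + 1) • p) (w ^ (k + 1 + 1) • p) = l := by
      rw [s2, dist_smul hX, A.dp]
    rw [ih1, a7] at a6
    have a8 : X.dist p (w ^ (k + 1 + 1) • p) = (k + 1 + 1) * l := by
      rw [a6]
      ring
    refine ⟨a8, ?_⟩
    have a9 : X.dist p (w ^ (k + 1) • u') ≤ X.dist p (w ^ (k + 1) • p)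
        + X.dist (w ^ (k + 1) • p) (w ^ (k + 1) • u') := hc.dist_triangle
    rw [dist_smul hX, ih1] at a9
    have a10 : X.dist p (w ^ (k + 1 + 1) • p) ≤ X.dist p (w ^ (k + 1) • u')
        + X.dist (w ^ (k + 1) • u') (w ^ (k + 1 + 1) • p) := hc.dist_triangle
    rw [s2, dist_smul hX, one A.adj', ← s2, a8] at a10
    have a11 := A.du'
    have a12 : (k + 1 + 1) * l = (k + 1) * l + l := by ring
    omega

private theorem f1 (hX : OnTree G X) (A : Ax G X w p u u' l) (n : ℕ) :
    X.dist p (w ^ n • p) = n * l := by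
  cases n with
  | zero => rw [pow_zero, one_smul, SimpleGraph.dist_self, zero_mul]
  | succ n => exact (A.ab hX n).1

private theorem f2 (hX : OnTree G X) (A : Ax G X w p u u' l) (n : ℕ) :
    X.dist p (w ^ n • u) = n * l + 1 := by
  have hc := hX.tree.connected
  have e1 : X.dist p (w ^ n • u) ≤ X.dist p (w ^ n • p) + X.dist (w ^ n • p) (w ^ n • u) :=
    hc.dist_triangle
  rw [dist_smul hX, one A.adj, A.f1 hX n] at e1
  have e2 : X.dist p (w ^ (n + 1) • p) ≤ X.dist p (w ^ n • u)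
      + X.dist (w ^ n • u) (w ^ (n + 1) • p) := hc.dist_triangle
  rw [A.f1 hX (n + 1), pow_succ, mul_smul, dist_smul hX] at e2
  have e3 := A.du
  have e4 : (n + 1) * l = n * l + l := by ring
  omega

private theorem f3 (hX : OnTree G X) (A : Ax G X w p u u' l) (n : ℕ) :
    X.dist (w ^ (n + 1) • p) u + 1 = (n + 1) * l := by
  have hc := hX.tree.connected
  have e1 : X.dist (w ^ (n + 1) • p) u ≤ X.dist (w ^ (n + 1) • p) (w • p) + X.dist (w • p) u :=
    hc.dist_triangle
  have e2 : X.dist (w ^ (n + 1) • p) (w • p) = n * l := by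
    rw [pow_succ', mul_smul, dist_smul hX, SimpleGraph.dist_comm, A.f1 hX n]
  have e3 : X.dist (w • p) u = X.dist u (w • p) := SimpleGraph.dist_comm
  have e4 : X.dist (w ^ (n + 1) • p) p ≤ X.dist (w ^ (n + 1) • p) u + X.dist u p :=
    hc.dist_triangle
  have e5 : X.dist (w ^ (n + 1) • p) p = (n + 1) * l := by
    rw [SimpleGraph.dist_comm, A.f1 hX (n + 1)]
  have e6 : X.dist u p = 1 := one A.adj.symm
  have e7 := A.du
  have e8 : (n + 1) * l = n * l + l := by ring
  omega

private theorem zs (hX : OnTree G X) (w : G) (j k : ℤ) (a b : V) :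
    X.dist (w ^ j • a) (w ^ k • b) = X.dist a (w ^ (k - j) • b) := by
  have h1 : w ^ k • b = w ^ j • (w ^ (k - j) • b) := by
    rw [smul_smul, ← zpow_add]
    congr 2
    ring
  rw [h1, dist_smul hX]

/-- `w ^ k • p` is between `w ^ j • v₀` and `w ^ i • v₀` -/
private theorem btw (hX : OnTree G X) (A : Ax G X w p u u' l) (v₀ : V) (i j k : ℤ)
    (hj : (X.dist v₀ p : ℤ) < k - j) (hi : (X.dist v₀ p : ℤ) < i - k) :
    X.dist (w ^ j • v₀) (w ^ i • v₀) = X.dist (w ^ j • v₀) (w ^ k • p)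
      + X.dist (w ^ k • p) (w ^ i • v₀) := by
  have hpos := A.pos
  have hadj : X.Adj (w ^ k • p) (w ^ k • u) := hX.adj _ _ _ A.adj
  obtain ⟨n, hn⟩ : ∃ n : ℕ, k - j = n := ⟨(k - j).toNat, by omega⟩
  obtain ⟨m, hm⟩ : ∃ m : ℕ, i - k = m + 1 := ⟨(i - k - 1).toNat, by omega⟩
  -- the first side
  have ha : X.dist (w ^ j • v₀) (w ^ k • u) = X.dist (w ^ j • v₀) (w ^ k • p) + 1 := by
    rcases dist_adj hX.tree hadj (w ^ j • v₀) with h1 | h1
    · exact h1
    · exfalso
      have e1 : X.dist (w ^ j • p) (w ^ k • p) = n * l := by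
        rw [zs hX, hn, zpow_natCast, A.f1 hX]
      have e2 : X.dist (w ^ j • p) (w ^ k • u) = n * l + 1 := by
        rw [zs hX, hn, zpow_natCast, A.f2 hX]
      have e3 := sep_dist hX.tree hadj (by rw [e1, e2]) h1
      rw [e1, dist_smul hX, SimpleGraph.dist_comm] at e3
      have e4 : n ≤ n * l := Nat.le_mul_of_pos_right n hpos
      have e5 : (X.dist v₀ p : ℤ) < n := by rw [← hn]; exact hj
      omega
  -- the second side
  have hb : X.dist (w ^ i • v₀) (w ^ k • p) = X.dist (w ^ i • v₀) (w ^ k • u) + 1 := by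
    rcases dist_adj hX.tree hadj (w ^ i • v₀) with h1 | h1
    · exfalso
      have s1 : w ^ i • p = w ^ k • (w ^ (m + 1) • p) := by
        rw [smul_smul, ← zpow_natCast, ← zpow_add]
        congr 2
        push_cast
        omega
      have e1 : X.dist (w ^ i • p) (w ^ k • p) = (m + 1) * l := by
        rw [s1, dist_smul hX, SimpleGraph.dist_comm, A.f1 hX]
      have e2 : X.dist (w ^ i • p) (w ^ k • u) + 1 = (m + 1) * l := by
        rw [s1, dist_smul hX, A.f3 hX]
      have e3 := sep_dist hX.tree hadj.symm (by rw [e1, e2]) h1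
      rw [dist_smul hX, SimpleGraph.dist_comm (u := p) (v := v₀)] at e3
      have e4 : m + 1 ≤ (m + 1) * l := Nat.le_mul_of_pos_right (m + 1) hpos
      have e5 : (X.dist v₀ p : ℤ) < m + 1 := by rw [← hm]; exact hi
      omega
    · exact h1
  have e := sep_dist hX.tree hadj ha hb
  have e1 : X.dist (w ^ k • p) (w ^ i • v₀) = X.dist (w ^ i • v₀) (w ^ k • p) :=
    SimpleGraph.dist_comm
  have e2 : X.dist (w ^ k • u) (w ^ i • v₀) = X.dist (w ^ i • v₀) (w ^ k • u) :=
    SimpleGraph.dist_comm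
  omega

end Ax

theorem dyn_hyp (hX : OnTree G X) (hinv : NoInv X (⊤ : Subgroup G)) (w : G) (v₀ : V)
    (h : ∀ m : ℕ, 0 < m → ∀ v : V, w ^ m • v ≠ v) :
    ∃ p : V, ∀ x : G, {j : ℤ | x • w ^ j • v₀ = w ^ j • v₀}.Infinite →
      (∃ n : ℤ, ∀ k : ℤ, n ≤ k → x • w ^ k • p = w ^ k • p) ∨
        ∃ n : ℤ, ∀ k : ℤ, k ≤ n → x • w ^ k • p = w ^ k • p := by
  obtain ⟨p, u, u', l, A⟩ := exists_ax hX hinv w v₀ h
  refine ⟨p, fun x hS => ?_⟩
  obtain ⟨S, hSd⟩ : ∃ S : Set ℤ, S = {j : ℤ | x • w ^ j • v₀ = w ^ j • v₀} := ⟨_, rfl⟩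
  rw [← hSd] at hS
  have hfix : ∀ i ∈ S, ∀ j ∈ S, ∀ k : ℤ, (X.dist v₀ p : ℤ) < k - j → (X.dist v₀ p : ℤ) < i - k →
      x • w ^ k • p = w ^ k • p := by
    intro i hi j hj k h1 h2
    rw [hSd] at hi hj
    exact fix_between hX x (show x • w ^ j • v₀ = w ^ j • v₀ from hj)
      (show x • w ^ i • v₀ = w ^ i • v₀ from hi) (A.btw hX v₀ i j k h1 h2)
  obtain ⟨j0, hj0⟩ := hS.nonempty
  by_cases hb : BddAbove S
  · right
    have hbb : ¬ BddBelow S := by
      intro hbb
      obtain ⟨M, hM⟩ := hb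
      obtain ⟨m, hm⟩ := hbb
      exact hS ((Set.finite_Icc m M).subset fun j hj => ⟨hm hj, hM hj⟩)
    refine ⟨j0 - X.dist v₀ p - 2, fun k hk => ?_⟩
    rw [not_bddBelow_iff] at hbb
    obtain ⟨j, hj, hjk⟩ := hbb (k - X.dist v₀ p)
    exact hfix j0 hj0 j hj k (by omega) (by omega)
  · left
    refine ⟨j0 + X.dist v₀ p + 1, fun k hk => ?_⟩
    rw [not_bddAbove_iff] at hb
    obtain ⟨i, hi, hik⟩ := hb (k + X.dist v₀ p)
    exact hfix i hi j0 hj0 k (by omega) (by omega)

end Pool.Agent.H75.INF
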