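import Pool.Agent.H75.INF.Defs

/-!
# [H75 INF UPA] Artin and Coxeter groups with `M s t = 0` are amalgams

`amal_art`: `ap_mono` for the inclusions; `⊔`: every generator is in `ap {t}ᶜ` or in `ap {s}ᶜ` (`t ≠ s`), `art_closure`. Universal
property: `φ i = f₁ ⟨gen i, _⟩` for `i ≠ t`, `φ t = f₂ ⟨gen t, _⟩`; note `φ i = f₂ ⟨gen i, _⟩` for all `i ≠ s` (for `i ≠ s, t` `gen i ∈ H`). Let
`M i j ≠ 0`. Since `M s t = M t s = 0` both `i, j ≠ t` or both `i, j ≠ s`; apply `f₁` or `f₂` (`map_alt`) to the relation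
`gen_rel` in the subgroup (`Subtype.ext`, `map_alt` for the inclusion of the subgroup). Let `f = PAG.lift φ`. `f = f₁` on `ap {t}ᶜ`: the
set of the `g ∈ ap {t}ᶜ` with `f g = f₁ g` contains the generators (`ap_induction` or `Subgroup.closure_induction`), the same for `f₂`.
`amal_cox`: the same with `cs.simple`, `cs.lift` (`CoxeterSystem.lift`, `lift_apply_simple`), relation `(φ i * φ j) ^ M i j = 1`
(`M i j = 0`: `pow_zero`; otherwise as before from `simple_mul_simple_pow`), `cs.subgroup_closure_range_simple`.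
-/

set_option autoImplicit false

namespace Pool.Agent.H75.INF

open CoxeterSystem Pool.H8.CDW Pool.Agent.H52.PAG

variable {B : Type} (M : CoxeterMatrix B)

/-- the common part of both proofs -/
private theorem amal_aux {G : Type} [Group G] (x : B → G) (hx : Subgroup.closure (Set.range x) = ⊤) {s t : B} (hst : s ≠ t)
    (hu : ∀ (P : Type) [Group P] (f₁ : Subgroup.closure (x '' ({t}ᶜ : Set B)) →* P)
      (f₂ : Subgroup.closure (x '' ({s}ᶜ : Set B)) →* P) (φ : B → P),
      (∀ (i : B) (h : x i ∈ Subgroup.closure (x '' ({t}ᶜ : Set B))), i ≠ t → f₁ ⟨x i, h⟩ = φ i) →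
      (∀ (i : B) (h : x i ∈ Subgroup.closure (x '' ({s}ᶜ : Set B))), i ≠ s → f₂ ⟨x i, h⟩ = φ i) →
      ∃ f : G →* P, ∀ i, f (x i) = φ i) :
    Amal (Subgroup.closure (x '' ({t}ᶜ : Set B))) (Subgroup.closure (x '' ({s}ᶜ : Set B)))
      (Subgroup.closure (x '' ({s, t}ᶜ : Set B))) := by
  classical
  have m1 : ∀ i, i ≠ t → x i ∈ Subgroup.closure (x '' ({t}ᶜ : Set B)) := fun i h => Subgroup.subset_closure ⟨i, h, rfl⟩
  have m2 : ∀ i, i ≠ s → x i ∈ Subgroup.closure (x '' ({s}ᶜ : Set B)) := fun i h => Subgroup.subset_closure ⟨i, h, rfl⟩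
  have m3 : ∀ i, i ≠ s → i ≠ t → x i ∈ Subgroup.closure (x '' ({s, t}ᶜ : Set B)) := fun i h h' =>
    Subgroup.subset_closure ⟨i, by
      rintro (h1 | h1)
      · exact h h1
      · exact h' h1, rfl⟩
  refine ⟨Subgroup.closure_mono (Set.image_mono ?_), Subgroup.closure_mono (Set.image_mono ?_), ?_, ?_⟩
  · intro i hi h
    exact hi (Or.inr h)
  · intro i hi h
    exact hi (Or.inl h)
  · rw [eq_top_iff, ← hx, Subgroup.closure_le]
    rintro _ ⟨i, rfl⟩
    by_cases h : i = t
    · exact Subgroup.mem_sup_right (m2 i (fun e => hst (e.symm.trans h)))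
    · exact Subgroup.mem_sup_left (m1 i h)
  · intro P _ f₁ f₂ hc
    obtain ⟨f, hf⟩ := hu P f₁ f₂ (fun i => if h : i = t then f₂ ⟨x i, m2 i (fun e => hst (e.symm.trans h))⟩ else f₁ ⟨x i, m1 i h⟩)
      (by
        intro i h hi
        rw [dif_neg hi])
      (by
        intro i h hi
        by_cases hit : i = t
        · rw [dif_pos hit]
        · rw [dif_neg hit]
          exact (hc _ _ _ (m3 i hi hit)).symm)
    refine ⟨f, ?_, ?_⟩
    · have e : (f.comp (Subgroup.closure (x '' ({t}ᶜ : Set B))).subtype) = f₁ := by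
        refine MonoidHom.eq_of_eqOn_dense (s := (Subtype.val ⁻¹' (x '' ({t}ᶜ : Set B)))) (Subgroup.closure_closure_coe_preimage) ?_
        rintro ⟨_, h⟩ ⟨i, hi, rfl⟩
        show f (x i) = f₁ ⟨x i, h⟩
        have hi' : i ≠ t := hi
        rw [hf i, dif_neg hi']
      intro g
      exact DFunLike.congr_fun e g
    · have e : (f.comp (Subgroup.closure (x '' ({s}ᶜ : Set B))).subtype) = f₂ := by
        refine MonoidHom.eq_of_eqOn_dense (s := (Subtype.val ⁻¹' (x '' ({s}ᶜ : Set B)))) (Subgroup.closure_closure_coe_preimage) ?_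
        rintro ⟨_, h⟩ ⟨i, hi, rfl⟩
        show f (x i) = f₂ ⟨x i, h⟩
        rw [hf i]
        by_cases hit : i = t
        · rw [dif_pos hit]
        · rw [dif_neg hit]
          exact hc _ _ _ (m3 i hi hit)
      intro g
      exact DFunLike.congr_fun e g

private theorem pair_cases {s t : B} (h0 : M s t = 0) {i j : B} (h : M i j ≠ 0) : (i ≠ t ∧ j ≠ t) ∨ (i ≠ s ∧ j ≠ s) := by
  have h0' : M t s = 0 := by
    rw [M.symmetric]
    exact h0
  by_cases h1 : i = t
  · right
    refine ⟨?_, ?_⟩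
    · rintro rfl
      have h2 := M.diagonal i
      rw [← h1] at h0
      rw [h0] at h2
      exact zero_ne_one h2
    · rintro rfl
      rw [h1] at h
      exact h h0'
  · by_cases h2 : j = t
    · right
      refine ⟨?_, ?_⟩
      · rintro rfl
        rw [h2] at h
        exact h h0
      · rintro rfl
        have h3 := M.diagonal j
        rw [← h2] at h0
        rw [h0] at h3
        exact zero_ne_one h3
    · exact Or.inl ⟨h1, h2⟩

theorem amal_art {s t : B} (hst : s ≠ t) (h0 : M s t = 0) :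
    Amal (ap M ({t}ᶜ : Set B)) (ap M ({s}ᶜ : Set B)) (ap M ({s, t}ᶜ : Set B)) := by
  refine amal_aux (gen M) (art_closure M) hst ?_
  intro P _ f₁ f₂ φ h1 h2
  refine ⟨Pool.Agent.H52.PAG.lift φ ?_, Pool.Agent.H52.PAG.lift_gen φ _⟩
  intro i j hij
  rcases pair_cases M h0 hij with ⟨hi, hj⟩ | ⟨hi, hj⟩
  · have mi : gen M i ∈ Subgroup.closure (gen M '' ({t}ᶜ : Set B)) := Subgroup.subset_closure ⟨i, hi, rfl⟩
    have mj : gen M j ∈ Subgroup.closure (gen M '' ({t}ᶜ : Set B)) := Subgroup.subset_closure ⟨j, hj, rfl⟩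
    rw [← h1 i mi hi, ← h1 j mj hj, ← map_alt, ← map_alt]
    congr 1
    apply Subtype.ext
    have e1 := map_alt (Subgroup.closure (gen M '' ({t}ᶜ : Set B))).subtype ⟨gen M i, mi⟩ ⟨gen M j, mj⟩ (M i j)
    have e2 := map_alt (Subgroup.closure (gen M '' ({t}ᶜ : Set B))).subtype ⟨gen M j, mj⟩ ⟨gen M i, mi⟩ (M i j)
    exact e1.trans ((gen_rel hij).trans e2.symm)
  · have mi : gen M i ∈ Subgroup.closure (gen M '' ({s}ᶜ : Set B)) := Subgroup.subset_closure ⟨i, hi, rfl⟩
    have mj : gen M j ∈ Subgroup.closure (gen M '' ({s}ᶜ : Set B)) := Subgroup.subset_closure ⟨j, hj, rfl⟩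
    rw [← h2 i mi hi, ← h2 j mj hj, ← map_alt, ← map_alt]
    congr 1
    apply Subtype.ext
    have e1 := map_alt (Subgroup.closure (gen M '' ({s}ᶜ : Set B))).subtype ⟨gen M i, mi⟩ ⟨gen M j, mj⟩ (M i j)
    have e2 := map_alt (Subgroup.closure (gen M '' ({s}ᶜ : Set B))).subtype ⟨gen M j, mj⟩ ⟨gen M i, mi⟩ (M i j)
    exact e1.trans ((gen_rel hij).trans e2.symm)

theorem amal_cox {s t : B} (hst : s ≠ t) (h0 : M s t = 0) :
    Amal (par M.toCoxeterSystem ({t}ᶜ : Set B)) (par M.toCoxeterSystem ({s}ᶜ : Set B))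
      (par M.toCoxeterSystem ({s, t}ᶜ : Set B)) := by
  refine amal_aux M.toCoxeterSystem.simple M.toCoxeterSystem.subgroup_closure_range_simple hst ?_
  intro P _ f₁ f₂ φ h1 h2
  have hl : M.IsLiftable φ := by
    intro i j
    by_cases hij : M i j = 0
    · rw [hij, pow_zero]
    rcases pair_cases M h0 hij with ⟨hi, hj⟩ | ⟨hi, hj⟩
    · have mi : M.toCoxeterSystem.simple i ∈ Subgroup.closure (M.toCoxeterSystem.simple '' ({t}ᶜ : Set B)) :=
        Subgroup.subset_closure ⟨i, hi, rfl⟩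
      have mj : M.toCoxeterSystem.simple j ∈ Subgroup.closure (M.toCoxeterSystem.simple '' ({t}ᶜ : Set B)) :=
        Subgroup.subset_closure ⟨j, hj, rfl⟩
      rw [← h1 i mi hi, ← h1 j mj hj, ← map_mul, ← map_pow, ← map_one f₁]
      congr 1
      apply Subtype.ext
      exact M.toCoxeterSystem.simple_mul_simple_pow i j
    · have mi : M.toCoxeterSystem.simple i ∈ Subgroup.closure (M.toCoxeterSystem.simple '' ({s}ᶜ : Set B)) :=
        Subgroup.subset_closure ⟨i, hi, rfl⟩
      have mj : M.toCoxeterSystem.simple j ∈ Subgroup.closure (M.toCoxeterSystem.simple '' ({s}ᶜ : Set B)) :=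
        Subgroup.subset_closure ⟨j, hj, rfl⟩
      rw [← h2 i mi hi, ← h2 j mj hj, ← map_mul, ← map_pow, ← map_one f₂]
      congr 1
      apply Subtype.ext
      exact M.toCoxeterSystem.simple_mul_simple_pow i j
  exact ⟨M.toCoxeterSystem.lift ⟨φ, hl⟩, fun i => M.toCoxeterSystem.lift_apply_simple hl i⟩

end Pool.Agent.H75.INF
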