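import Pool.Agent.H75.INF.Pcl
import Pool.Agent.H75.INF.Dye
import Pool.Agent.H75.INF.Dyh
import Pool.Agent.H75.INF.Amt
import Pool.Agent.H75.INF.Upa

/-!
# [H75 INF DYW] dynamics of a Coxeter group with `M s t = 0` on the cosets of `par {s, t}ᶜ`

Let `X` be the tree of `amal_cox` (`amal_tree`), `v₀ = Sum.inl b`, `P = {s, t}ᶜ`. `x ∈ pc P (y)` implies `x • y v₀'`: if `x ∈ pc P (w ^ j * b)`
then `x` fixes the vertex `w ^ j • v₀` (`QuotientGroup.eq`, `par_mono`). The stabiliser of a vertex `g G₁` is `pc ({t}ᶜ) g`, of `g G₂`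
`pc ({s}ᶜ) g` (`stab_inl`, `stab_inr`; `QuotientGroup.eq`, group), and `{t}ᶜ`, `{s}ᶜ ≠ univ`.
CLAIM. There are `m > 0` and a vertex `p` such that `x • p = p` for all `x ∈ R = {x | {j | x ∈ pc P ((w ^ m) ^ j * b)}.Infinite}`.
If a positive power of `w` fixes a vertex: `dyn_ell` (the set of the `j` in its hypothesis contains the one above). Otherwise `m = 1` and
`p` from `dyn_hyp`: for `x ∈ R` there is `n` with `x • w ^ k • p = w ^ k • p` for all `k ≥ n` or for all `k ≤ n`. Let `D n` be the set of the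
`x` with `x • w ^ k • p = w ^ k • p` for all `k ≥ n`; `x ∈ D n ↔ w ^ (-n) x w ^ n ∈ D 0`. Let `(K, g)` be `IsPc (D 0)` (`exists_isPc`). By
`IsPc.conj` `(K, w ^ n g)` is `IsPc (D n)`. `D n ⊆ D (n + 1)`, so `D n ⊆ pc K (w ^ (n+1) g)`, so `pc K (w ^ n g) ≤ pc K (w ^ (n+1) g)`
(`IsPc.le`), and `(K, w ^ (n+1) g)` is also `IsPc (D n)` (same rank), so by `IsPc.le` again `pc K (w ^ (n+1) g) ≤ pc K (w ^ n g)`. So all are
equal to `pc K g`, which contains all `D n`, and `pc K g ≤ ` the stabiliser of `p` (`IsPc.le`: `D 0` is contained in the stabiliser of `p`, `k = 0`). For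
`k ≤ n` the same with `w⁻¹`.
END. Let `W' = w ^ m`, `(K, g)` `IsPc R`. `K ≠ univ`: `IsPc.ne_univ` with the stabiliser of `p`. `x ∈ R ↔ W'⁻¹ x W' ∈ R` (shift `j` by one: the
two sets are translates), so `(K, W' g)` is `IsPc R` (`IsPc.conj`), and `IsPc.le` gives `pc K g ≤ pc K (W' g)` and `≥`, i.e. the third
statement (`x ∈ pc K (W' g) ↔ W'⁻¹ x W' ∈ pc K g`). The last statement: `x ∉ pc K g` implies `x ∉ R`, `Set.not_infinite`.
-/

set_option autoImplicit false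

namespace Pool.Agent.H75.INF

open CoxeterSystem Pool.H8.CDW Pool.Agent.H93.TR

variable {B : Type}

private theorem dw_conj {W : Type} [Group W] {M : CoxeterMatrix B} (cs : CoxeterSystem M W)
    {K : Set B} {g y x : W} : x ∈ pc cs K (y * g) ↔ y⁻¹ * x * y ∈ pc cs K g := by
  rw [mem_pc, mem_pc]
  have h : (y * g)⁻¹ * x * (y * g) = g⁻¹ * (y⁻¹ * x * y) * g := by group
  rw [h]

private theorem dw_cos {W : Type} [Group W] {M : CoxeterMatrix B} (cs : CoxeterSystem M W)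
    {L : Set B} (g x : W) : x • (g : W ⧸ par cs L) = (g : W ⧸ par cs L) ↔ x ∈ pc cs L g := by
  have h1 : x • (g : W ⧸ par cs L) = ((x * g : W) : W ⧸ par cs L) := rfl
  rw [h1, QuotientGroup.eq, mem_pc]
  have h2 : (x * g)⁻¹ * g = (g⁻¹ * x * g)⁻¹ := by group
  rw [h2, inv_mem_iff]

/-- the key lemma: the elements which fix the translates of `p` in one direction fix `p` -/
private theorem dw_up {W : Type} [Group W] {M : CoxeterMatrix B} (cs : CoxeterSystem M W)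
    [Finite B] {V : Type} [MulAction W V] (z : W) (p : V) {L : Set B} {h : W}
    (hst : ∀ x : W, x • p = p ↔ x ∈ pc cs L h) (n : ℤ) (x : W)
    (hx : ∀ k : ℤ, n ≤ k → x • z ^ k • p = z ^ k • p) : x • p = p := by
  obtain ⟨D, hD⟩ : ∃ D : ℤ → Set W, ∀ n x, x ∈ D n ↔ ∀ k : ℤ, n ≤ k → x • z ^ k • p = z ^ k • p :=
    ⟨fun n => {x | ∀ k : ℤ, n ≤ k → x • z ^ k • p = z ^ k • p}, fun _ _ => Iff.rfl⟩
  have hD0 : D 0 ⊆ pc cs L h := by
    intro y hy
    have h1 := (hD 0 y).1 hy 0 le_rfl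
    rw [zpow_zero, one_smul] at h1
    exact (hst y).1 h1
  obtain ⟨K, g, hK⟩ := exists_isPc cs (D 0)
  have hle0 : pc cs K g ≤ pc cs L h := hK.le cs hD0
  have hKn : ∀ n : ℤ, IsPc cs (D n) K (z ^ n * g) := by
    intro n
    refine hK.conj cs fun y => ?_
    rw [hD, hD]
    have key : ∀ k : ℤ, ((z ^ n)⁻¹ * y * z ^ n) • z ^ k • p = z ^ k • p ↔
        y • z ^ (n + k) • p = z ^ (n + k) • p := by
      intro k
      rw [mul_smul, mul_smul, inv_smul_eq_iff, smul_smul (z ^ n) (z ^ k), ← zpow_add]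
    constructor
    · intro h1 k hk
      rw [key]
      exact h1 _ (by omega)
    · intro h1 k hk
      have h2 := (key (k - n)).1 (h1 (k - n) (by omega))
      rwa [add_sub_cancel] at h2
  have hstep : ∀ n : ℤ, pc cs K (z ^ n * g) = pc cs K (z ^ (n + 1) * g) := by
    intro n
    have h1 : D n ⊆ pc cs K (z ^ (n + 1) * g) := by
      intro y hy
      refine (hKn (n + 1)).1 ((hD _ _).2 fun k hk => (hD _ _).1 hy k (by omega))
    exact le_antisymm ((hKn n).le cs h1) (IsPc.le cs ⟨h1, (hKn n).2⟩ (hKn n).1)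
  have hall : ∀ n : ℤ, pc cs K (z ^ n * g) = pc cs K g := by
    intro n
    induction n using Int.induction_on with
    | zero => rw [zpow_zero, one_mul]
    | succ i ih => rw [← hstep, ih]
    | pred i ih =>
      rw [hstep, sub_add_cancel, ih]
  have h1 : x ∈ pc cs K (z ^ n * g) := (hKn n).1 ((hD n x).2 hx)
  rw [hall] at h1
  exact (hst x).2 (hle0 h1)

variable (M : CoxeterMatrix B)

theorem dyw [Finite B] {s t : B} (hst : s ≠ t) (h0 : M s t = 0) (w b : M.Group) :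
    ∃ (m : ℕ) (K : Set B) (g : M.Group), 0 < m ∧ K ≠ Set.univ ∧
      (∀ x, x ∈ pc M.toCoxeterSystem K g ↔ w ^ m * x * (w ^ m)⁻¹ ∈ pc M.toCoxeterSystem K g) ∧
      ∀ x, x ∉ pc M.toCoxeterSystem K g →
        {j : ℤ | x ∈ pc M.toCoxeterSystem ({s, t}ᶜ : Set B) ((w ^ m) ^ j * b)}.Finite := by
  obtain ⟨cs, hcs⟩ : ∃ cs : CoxeterSystem M M.Group, cs = M.toCoxeterSystem := ⟨_, rfl⟩
  have hT := amal_tree (amal_cox M hst h0)
  rw [← hcs] at hT ⊢
  obtain ⟨hX, hinv, -⟩ := hT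
  obtain ⟨v₀, hv₀⟩ : ∃ v₀ : (M.Group ⧸ par cs ({t}ᶜ : Set B)) ⊕ (M.Group ⧸ par cs ({s}ᶜ : Set B)),
    v₀ = Sum.inl (b : M.Group ⧸ par cs ({t}ᶜ : Set B)) := ⟨_, rfl⟩
  -- the vertices of the edge
  have hfix : ∀ x y : M.Group, x ∈ pc cs ({s, t}ᶜ : Set B) (y * b) → x • y • v₀ = y • v₀ := by
    intro x y hx
    have h1 : y • v₀ = Sum.inl ((y * b : M.Group) : M.Group ⧸ par cs ({t}ᶜ : Set B)) := by
      rw [hv₀]
      rfl
    have h2 : x ∈ pc cs ({t}ᶜ : Set B) (y * b) := by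
      rw [mem_pc] at hx ⊢
      refine Subgroup.closure_mono (Set.image_mono ?_) hx
      exact Set.compl_subset_compl.2 (by simp)
    rw [h1, Sum.smul_inl]
    exact congrArg Sum.inl ((dw_cos cs (y * b) x).2 h2)
  -- the stabilisers
  have hstab : ∀ p : (M.Group ⧸ par cs ({t}ᶜ : Set B)) ⊕ (M.Group ⧸ par cs ({s}ᶜ : Set B)),
      ∃ (L : Set B) (h : M.Group), L ≠ Set.univ ∧ ∀ x : M.Group, x • p = p ↔ x ∈ pc cs L h := by
    have hne : ∀ a : B, ({a}ᶜ : Set B) ≠ Set.univ := by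
      intro a h1
      have h2 : a ∈ ({a}ᶜ : Set B) := by
        rw [h1]
        exact Set.mem_univ a
      exact h2 rfl
    rintro (q | q)
    · obtain ⟨g, rfl⟩ := QuotientGroup.mk_surjective q
      refine ⟨{t}ᶜ, g, hne t, fun x => ?_⟩
      rw [Sum.smul_inl, Sum.inl.injEq]
      exact dw_cos cs g x
    · obtain ⟨g, rfl⟩ := QuotientGroup.mk_surjective q
      refine ⟨{s}ᶜ, g, hne s, fun x => ?_⟩
      rw [Sum.smul_inr, Sum.inr.injEq]
      exact dw_cos cs g x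
  -- a fixed vertex
  obtain ⟨m, p, hm, hp⟩ : ∃ (m : ℕ)
      (p : (M.Group ⧸ par cs ({t}ᶜ : Set B)) ⊕ (M.Group ⧸ par cs ({s}ᶜ : Set B))), 0 < m ∧
      ∀ x : M.Group, {j : ℤ | x ∈ pc cs ({s, t}ᶜ : Set B) ((w ^ m) ^ j * b)}.Infinite →
        x • p = p := by
    by_cases hc : ∃ m : ℕ, 0 < m ∧ ∃ v : (M.Group ⧸ par cs ({t}ᶜ : Set B)) ⊕
        (M.Group ⧸ par cs ({s}ᶜ : Set B)), w ^ m • v = v
    · obtain ⟨m, p, hm, -, hp⟩ := dyn_ell hX w v₀ hc
      exact ⟨m, p, hm, fun x hx => hp x (hx.mono fun j hj => hfix x _ hj)⟩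
    · push Not at hc
      obtain ⟨p, hp⟩ := dyn_hyp hX hinv w v₀ hc
      obtain ⟨L, h, -, hL⟩ := hstab p
      refine ⟨1, p, one_pos, fun x hx => ?_⟩
      rw [pow_one] at hx
      rcases hp x (hx.mono fun j hj => hfix x _ hj) with ⟨n, hn⟩ | ⟨n, hn⟩
      · exact dw_up cs w p hL n x hn
      · refine dw_up cs w⁻¹ p hL (-n) x fun k hk => ?_
        have h1 := hn (-k) (by omega)
        rwa [zpow_neg, ← inv_zpow] at h1
  -- the end
  obtain ⟨L, h, hLne, hL⟩ := hstab p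
  obtain ⟨z, hz⟩ : ∃ z : M.Group, z = w ^ m := ⟨_, rfl⟩
  rw [← hz] at hp
  obtain ⟨R, hR⟩ : ∃ R : Set M.Group, ∀ x, x ∈ R ↔
      {j : ℤ | x ∈ pc cs ({s, t}ᶜ : Set B) (z ^ j * b)}.Infinite :=
    ⟨{x | {j : ℤ | x ∈ pc cs ({s, t}ᶜ : Set B) (z ^ j * b)}.Infinite}, fun _ => Iff.rfl⟩
  obtain ⟨K, g, hK⟩ := exists_isPc cs R
  have hRL : R ⊆ pc cs L h := fun x hx => (hL x).1 (hp x ((hR x).1 hx))
  have hKne := hK.ne_univ cs hRL hLne
  have hRz : ∀ x, x ∈ R ↔ z⁻¹ * x * z ∈ R := by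
    intro x
    rw [hR, hR]
    have h1 : {j : ℤ | x ∈ pc cs ({s, t}ᶜ : Set B) (z ^ j * b)} =
        (fun j : ℤ => j + 1) '' {j : ℤ | z⁻¹ * x * z ∈ pc cs ({s, t}ᶜ : Set B) (z ^ j * b)} := by
      ext j
      constructor
      · intro hj
        refine ⟨j - 1, ?_, sub_add_cancel j 1⟩
        show z⁻¹ * x * z ∈ pc cs ({s, t}ᶜ : Set B) (z ^ (j - 1) * b)
        rw [← dw_conj, ← mul_assoc, ← zpow_one_add, add_sub_cancel]
        exact hj
      · rintro ⟨i, hi, rfl⟩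
        have h2 : z⁻¹ * x * z ∈ pc cs ({s, t}ᶜ : Set B) (z ^ i * b) := hi
        rw [← dw_conj, ← mul_assoc, ← zpow_one_add, add_comm] at h2
        exact h2
    rw [h1, Set.infinite_image_iff (Set.injOn_of_injective (add_left_injective 1))]
  have hK' : IsPc cs R K (z * g) := hK.conj cs hRz
  have heq : pc cs K g = pc cs K (z * g) :=
    le_antisymm (hK.le cs hK'.1) (hK'.le cs hK.1)
  refine ⟨m, K, g, hm, hKne, ?_, ?_⟩
  · intro x
    rw [← hz]
    have h1 : z * x * z⁻¹ ∈ pc cs K g ↔ z * x * z⁻¹ ∈ pc cs K (z * g) := by rw [← heq]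
    rw [h1, dw_conj]
    have h2 : z⁻¹ * (z * x * z⁻¹) * z = x := by group
    rw [h2]
  · intro x hx
    rw [← hz]
    by_contra hcon
    exact hx (hK.1 ((hR x).2 hcon))

end Pool.Agent.H75.INF
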