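import Pool.Agent.H93.TR.Main

/-!
# [H75 INF GEO] distances in trees

(Independent of Coxeter groups.) `dist_adj`: `|dist a p - dist a q| ≤ 1` (`Connected.dist_triangle`, `dist_eq_one_iff_adj`), and they are
not equal: let `f` be the potential with values in `Multiplicative (ZMod 2)` of the constant nontrivial function (as in `H93/TR/Inv.lean`);
the parity of `dist a x` is the potential difference; or use bipartiteness of trees, or uniqueness of paths.
`sep_dist`: let `σ x` be the statement `dist x p < dist x q`. It changes only at the edge `{p, q}`: let `x ~ y`, `σ x`, `¬ σ y`. By `dist_adj`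
`dist x q = dist x p + 1`, `dist y p = dist y q + 1`, and `dist x p`, `dist y p` differ by one, so `dist x p = dist y q =: n`,
`dist x q = dist y p = n + 1`. If `n > 0` there are two paths from `x` to `q`: the shortest path through `p` (path to `p`, then `q`), and the
one with first step `y`. So `y` is on the path from `x` to `p` (`n > 0`: the first step of the path from `x` to `p` is also the first step of the
path to `q`), so `dist y p = n - 1`, a contradiction. So `n = 0`, `x = p`, `y = q`. Now the path from `a` to `b` crosses from `σ` to `¬ σ`, so it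
contains `p`, `q` consecutively, and the distances along a shortest path add up.
(Another way: `X.IsTree.existsUnique_path`; the walk from `a` to `p`, then `q`, then to `b` without backtracking.)
`next_unique`: two neighbours `p`, `q` of `b` which are closer to `a`: the shortest paths from `a` through `p` and `q` are both the path to `b`.
`no_cancel`: `dist a q = dist a b + 1` (`dist_adj`; otherwise `next_unique` gives `p = q`). `sep_dist` with the edge `b ~ q`:
`dist a c = dist a b + 1 + dist q c`.
`exists_next`: first step of a shortest walk. `fix_between`: `x • u` is also on the shortest path from `a` to `b` at the same distance from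
`a` (`dist_smul` in `H93/TR/WClaim.lean`), and there is only one such vertex (uniqueness of the path).
-/

set_option autoImplicit false

namespace Pool.Agent.H75.INF

open Pool.Agent.H93.TR

variable {V : Type} {X : SimpleGraph V}

theorem dist_adj (hX : X.IsTree) {p q : V} (h : X.Adj p q) (a : V) :
    X.dist a q = X.dist a p + 1 ∨ X.dist a p = X.dist a q + 1 :=
  (hX.dist_eq_dist_add_one_of_adj a h).symm

theorem next_unique (hX : X.IsTree) {a b p q : V} (hp : X.Adj p b) (hq : X.Adj q b)
    (h1 : X.dist a b = X.dist a p + 1) (h2 : X.dist a b = X.dist a q + 1) : p = q := by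
  obtain ⟨P, hP⟩ := hX.connected.exists_walk_length_eq_dist a p
  obtain ⟨Q, hQ⟩ := hX.connected.exists_walk_length_eq_dist a q
  have hP2 : (P.concat hp).IsPath := by
    refine SimpleGraph.Walk.isPath_of_length_eq_dist _ ?_
    rw [SimpleGraph.Walk.length_concat, hP, h1]
  have hQ2 : (Q.concat hq).IsPath := by
    refine SimpleGraph.Walk.isPath_of_length_eq_dist _ ?_
    rw [SimpleGraph.Walk.length_concat, hQ, h2]
  have h3 := congrArg Subtype.val (hX.isAcyclic.path_unique ⟨_, hP2⟩ ⟨_, hQ2⟩)
  have h4 : P.concat hp = Q.concat hq := h3
  have h5 := congrArg SimpleGraph.Walk.penultimate h4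
  rw [SimpleGraph.Walk.penultimate_concat, SimpleGraph.Walk.penultimate_concat] at h5
  exact h5

private theorem geo_next (hX : X.IsTree) {a b : V} (h : a ≠ b) :
    ∃ p, X.Adj a p ∧ X.dist a b = X.dist p b + 1 := by
  obtain ⟨P, hP⟩ := hX.connected.exists_walk_length_eq_dist a b
  cases P with
  | nil => exact absurd rfl h
  | @cons _ p _ hap W =>
    refine ⟨p, hap, ?_⟩
    rw [SimpleGraph.Walk.length_cons] at hP
    have h1 := SimpleGraph.dist_le W
    have h2 := hX.connected.dist_triangle (u := a) (v := p) (w := b)
    have h3 : X.dist a p = 1 := SimpleGraph.dist_eq_one_iff_adj.2 hap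
    omega

private theorem geo_sep (hX : X.IsTree) (a b : V) (n : ℕ) : ∀ p q : V, X.Adj p q →
    X.dist a q = X.dist a p + 1 → X.dist b p = X.dist b q + 1 → X.dist q b = n →
    X.dist a b = X.dist a q + n := by
  induction n with
  | zero =>
    intro p q _ _ _ h0
    have h1 : q = b := hX.connected.dist_eq_zero_iff.1 h0
    rw [h1, add_zero]
  | succ n ih =>
    intro p q h ha hb hn
    have hne : q ≠ b := by
      rintro rfl
      rw [SimpleGraph.dist_self] at hn
      omega
    obtain ⟨q', hq', h1⟩ := geo_next hX hne
    have h2 : X.dist b q = X.dist b q' + 1 := by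
      rw [SimpleGraph.dist_comm, h1, SimpleGraph.dist_comm]
    have h3 : X.dist a q' = X.dist a q + 1 := by
      rcases dist_adj hX hq' a with h4 | h4
      · exact h4
      · exfalso
        have h5 : p = q' := next_unique hX h hq'.symm ha h4
        rw [h5] at hb
        omega
    have h4 := ih q q' hq' h3 h2 (by omega)
    omega

theorem sep_dist (hX : X.IsTree) {a b p q : V} (h : X.Adj p q) (ha : X.dist a q = X.dist a p + 1)
    (hb : X.dist b p = X.dist b q + 1) : X.dist a b = X.dist a p + 1 + X.dist q b := by
  rw [← ha]
  exact geo_sep hX a b _ p q h ha hb rfl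

theorem no_cancel (hX : X.IsTree) {a b c p q : V} (hp : X.Adj p b) (hq : X.Adj b q) (hpq : p ≠ q)
    (ha : X.dist a b = X.dist a p + 1) (hc : X.dist b c = X.dist q c + 1) :
    X.dist a c = X.dist a b + X.dist b c := by
  have h3 : X.dist a q = X.dist a b + 1 := by
    rcases dist_adj hX hq a with h4 | h4
    · exact h4
    · exact absurd (next_unique hX hp hq.symm ha h4) hpq
  have h4 := sep_dist hX hq h3 (by rw [SimpleGraph.dist_comm, hc, SimpleGraph.dist_comm])
  omega

theorem exists_next (hX : X.IsTree) {a b : V} (h : a ≠ b) :
    ∃ p, X.Adj a p ∧ X.dist a b = X.dist p b + 1 := geo_next hX h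

private theorem geo_uniq (hX : X.IsTree) (a b : V) (n : ℕ) : ∀ u u' : V,
    X.dist a u = X.dist a u' → X.dist u b = n → X.dist u' b = n → X.dist a b = X.dist a u + n →
    u = u' := by
  induction n with
  | zero =>
    intro u u' _ h1 h2 _
    rw [hX.connected.dist_eq_zero_iff.1 h1, hX.connected.dist_eq_zero_iff.1 h2]
  | succ n ih =>
    intro u u' h0 h1 h2 h3
    have hne : u ≠ b := by
      rintro rfl
      rw [SimpleGraph.dist_self] at h1
      omega
    have hne' : u' ≠ b := by
      rintro rfl
      rw [SimpleGraph.dist_self] at h2
      omega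
    obtain ⟨p, hp, hp1⟩ := geo_next hX hne
    obtain ⟨p', hp', hp1'⟩ := geo_next hX hne'
    have h4 : X.dist a p = X.dist a u + 1 := by
      have h5 := hX.connected.dist_triangle (u := a) (v := u) (w := p)
      have h6 : X.dist u p = 1 := SimpleGraph.dist_eq_one_iff_adj.2 hp
      have h7 := hX.connected.dist_triangle (u := a) (v := p) (w := b)
      omega
    have h4' : X.dist a p' = X.dist a u' + 1 := by
      have h5 := hX.connected.dist_triangle (u := a) (v := u') (w := p')
      have h6 : X.dist u' p' = 1 := SimpleGraph.dist_eq_one_iff_adj.2 hp'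
      have h7 := hX.connected.dist_triangle (u := a) (v := p') (w := b)
      omega
    have h5 : p = p' := ih p p' (by omega) (by omega) (by omega) (by omega)
    subst h5
    exact next_unique hX hp hp' h4 h4'

theorem fix_between {G : Type} [Group G] [MulAction G V] (hX : OnTree G X) (x : G) {a b u : V} (ha : x • a = a)
    (hb : x • b = b) (h : X.dist a b = X.dist a u + X.dist u b) : x • u = u := by
  have h1 : X.dist a (x • u) = X.dist a u := by
    have h3 := dist_smul hX x a u
    rwa [ha] at h3
  have h2 : X.dist (x • u) b = X.dist u b := by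
    have h3 := dist_smul hX x u b
    rwa [hb] at h3
  exact geo_uniq hX.tree a b (X.dist u b) (x • u) u h1 h2 rfl (by rw [h1, h])

end Pool.Agent.H75.INF
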