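import Pool.Agent.H75.INF.Lia
import Pool.Agent.H54.AR.AxZ

/-!
# [H75 INF LIB] finitely generated Coxeter groups are in the class

Let `F` be the finite set of the numbers `M i j`, `R = cosRing F`, `c i j = 2` if `M i j = 0`, `2 cos (π / M i j)` otherwise, in `R`
(`mem_cosRing`). `A i : Matrix B B R`, `A i k l = δ_kl + δ_ki c i l`. `Φ : Matrix B B R →* Module.End ℝ (B →₀ ℝ)`: entries to `ℝ`, then
`Matrix.toLin` (or `toLinAlgEquiv`) for the basis `Finsupp.basisSingleOne`; injective; `Φ (A i) = grefl M i` (on `single l 1`: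
`c1_grefl_apply`, `c1_gform_single`). So `(A i * A j) ^ M i j = 1` (apply `Φ`, `grefl_liftable`) and there is `r : M.Group →* Matrix B B R` with
`Φ (r x) = rho x` (`cs.ext_simple` or `MonoidHom.ext` on generators), so `r` is injective (`rho_inj`), and so is
`r.toHomUnits : M.Group →* GL B R`. `gl_cosRing` (classical `Fintype`, `DecidableEq`).
-/

set_option autoImplicit false

namespace Pool.Agent.H75.INF

open CoxeterSystem Pool.H8.CDW Pool.Agent.H98.FJ Pool.Agent.H54.AR

variable {C : (G : Type) → [Group G] → Prop}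

private theorem exists_phi (F : Finset ℕ) (B : Type) [Fintype B] [DecidableEq B] :
    ∃ Φ : Matrix B B (cosRing F) →* Module.End ℝ (B →₀ ℝ), Function.Injective Φ ∧
      ∀ (A : Matrix B B (cosRing F)) (l : B), Φ A (Finsupp.single l 1) =
        ∑ k, ((A k l : cosRing F) : ℝ) • Finsupp.single k (1 : ℝ) := by
  obtain ⟨f, hf⟩ : ∃ f : cosRing F →+* ℝ, ∀ x, f x = (x : ℝ) := ⟨(cosRing F).val.toRingHom, fun _ => rfl⟩
  have hfi : Function.Injective f := fun x y h => Subtype.ext (by rw [← hf, ← hf, h])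
  refine ⟨((Matrix.toLinAlgEquiv (Finsupp.basisSingleOne (R := ℝ) (ι := B)) :
    Matrix B B ℝ ≃ₐ[ℝ] Module.End ℝ (B →₀ ℝ)) : Matrix B B ℝ →* Module.End ℝ (B →₀ ℝ)).comp
      (f.mapMatrix : Matrix B B (cosRing F) →+* Matrix B B ℝ).toMonoidHom, ?_, ?_⟩
  · intro X Y h
    have h1 : f.mapMatrix X = f.mapMatrix Y :=
      (Matrix.toLinAlgEquiv (Finsupp.basisSingleOne (R := ℝ) (ι := B))).injective h
    ext i j
    have h2 : f (X i j) = f (Y i j) := congrFun (congrFun h1 i) j
    exact congrArg _ (hfi h2)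
  · intro A l
    have h1 := Matrix.toLin_self (Finsupp.basisSingleOne (R := ℝ) (ι := B))
      (Finsupp.basisSingleOne (R := ℝ) (ι := B)) (f.mapMatrix A) l
    simp only [Finsupp.coe_basisSingleOne, RingHom.mapMatrix_apply, Matrix.map_apply, hf] at h1
    exact h1

theorem cox_mem (hC : Inherits C) (hGL : ∀ n : ℕ, C (GL (Fin n) ℤ)) (B : Type) [Finite B]
    (M : CoxeterMatrix B) : C M.Group := by
  classical
  let _ : Fintype B := Fintype.ofFinite B
  obtain ⟨F, hF⟩ : ∃ F : Finset ℕ, ∀ i j, M i j ∈ F :=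
    ⟨Finset.univ.image fun p : B × B => M p.1 p.2, fun i j =>
      Finset.mem_image.2 ⟨(i, j), Finset.mem_univ _, rfl⟩⟩
  have hc : ∀ i j, ∃ x : cosRing F, (x : ℝ) = if M i j = 0 then 2 else 2 * Real.cos (Real.pi / M i j) := by
    intro i j
    by_cases h : M i j = 0
    · refine ⟨2, ?_⟩
      rw [if_pos h]
      rfl
    · refine ⟨⟨_, mem_cosRing (hF i j)⟩, ?_⟩
      rw [if_neg h]
  choose c hc using hc
  obtain ⟨Φ, hΦi, hΦ⟩ := exists_phi F B
  obtain ⟨A, hA⟩ : ∃ A : B → Matrix B B (cosRing F), ∀ i k l, A i k l =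
      (if k = l then 1 else 0) + (if k = i then c i l else 0) :=
    ⟨fun i => Matrix.of fun k l => (if k = l then 1 else 0) + (if k = i then c i l else 0), fun _ _ _ => rfl⟩
  have hΦA : ∀ i, Φ (A i) = grefl M i := by
    intro i
    refine (Finsupp.basisSingleOne (R := ℝ) (ι := B)).ext fun l => ?_
    rw [Finsupp.coe_basisSingleOne, hΦ, c1_grefl_apply, c1_gform_single]
    have h1 : ∀ k, ((A i k l : cosRing F) : ℝ) • Finsupp.single k (1 : ℝ) =
        (if k = l then Finsupp.single k (1 : ℝ) else 0) +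
          (if k = i then (c i l : ℝ) • Finsupp.single k (1 : ℝ) else 0) := by
      intro k
      rw [hA]
      push_cast
      rw [add_smul]
      congr 1
      · split_ifs
        · rw [Subalgebra.coe_one, one_smul]
        · rw [Subalgebra.coe_zero, zero_smul]
      · split_ifs
        · rfl
        · rw [Subalgebra.coe_zero, zero_smul]
    rw [Finset.sum_congr rfl fun k _ => h1 k, Finset.sum_add_distrib, Finset.sum_ite_eq', Finset.sum_ite_eq',
      if_pos (Finset.mem_univ _), if_pos (Finset.mem_univ _), hc, sub_eq_add_neg, ← neg_smul]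
    congr 2
    split_ifs
    · norm_num
    · ring
  have hlift : M.IsLiftable A := by
    intro i j
    apply hΦi
    rw [map_pow, map_mul, map_one, hΦA, hΦA]
    exact grefl_liftable M i j
  obtain ⟨r, hr⟩ : ∃ r : M.Group →* Matrix B B (cosRing F), ∀ i, r (M.toCoxeterSystem.simple i) = A i :=
    ⟨M.toCoxeterSystem.lift ⟨A, hlift⟩, fun i => M.toCoxeterSystem.lift_apply_simple hlift i⟩
  have hcomp : Φ.comp r = rho M.toCoxeterSystem := by
    refine M.toCoxeterSystem.ext_simple fun i => ?_
    rw [MonoidHom.comp_apply, hr, hΦA, rho_simple]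
  have hri : Function.Injective r := by
    intro x y h
    refine rho_inj M.toCoxeterSystem ?_
    rw [← hcomp, MonoidHom.comp_apply, MonoidHom.comp_apply, h]
  refine hC.of_injective (H := GL B (cosRing F)) (r.toHomUnits) ?_ (gl_cosRing hC hGL F B)
  intro x y h
  refine hri ?_
  have h1 := congrArg Units.val h
  exact h1

end Pool.Agent.H75.INF
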