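import Pool.Agent.H75.INF.Step
import Pool.Agent.H75.INF.Lib

/-!
# [H75 INF MAIN] induction and the infinite case

`fin_mem`: strong induction on `Nat.card B` for all `B`, `M`. If there are `s ≠ t` with `M s t = 0`: `step`, `cox_mem`; for `K ≠ univ`:
`ap_of_res` and the induction hypothesis for `↥K` (`Nat.card K < Nat.card B`) and `resM M K`: a set `L : Set K` with
`resM M K i j ≠ 0` for `i j ∈ L`: `ap_res` and `h (Subtype.val '' L)`. Otherwise `M i j ≠ 0` for all `i j` (`M.diagonal`):
`h Set.univ` and `ap_univ` (`Subgroup.topEquiv`).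
`art_congr`: homomorphisms in both directions by `PAG.lift`, inverse on the generators (`art_ext`).
`inf_mem`: `art_mem_of_finite`; for a finite set `S` apply `fin_mem` to `rst M S`: for `K : Set S` with finite labels: `ap_of_res`, and
`Art (resM (rst M S) K)` is isomorphic to `Art (rst M K')` (`art_congr`), where `K'` is the finite set of the `x.1`, `x ∈ K`.
-/

set_option autoImplicit false

namespace Pool.Agent.H75.INF

open CoxeterSystem Pool.H8.CDW Pool.Agent.H52.PAG Pool.Agent.H98.FJ Pool.Agent.H54.AR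

variable {C : (G : Type) → [Group G] → Prop}

theorem art_congr {B B' : Type} (M : CoxeterMatrix B) (M' : CoxeterMatrix B') (e : B ≃ B')
    (h : ∀ i j, M' (e i) (e j) = M i j) : Nonempty (Art M ≃* Art M') := by
  have h1 : ∀ i j, M i j ≠ 0 → alt (gen M' (e i)) (gen M' (e j)) (M i j) =
      alt (gen M' (e j)) (gen M' (e i)) (M i j) := by
    intro i j hij
    rw [← h i j] at hij ⊢
    exact gen_rel hij
  have h' : ∀ i j, M (e.symm i) (e.symm j) = M' i j := by
    intro i j
    rw [← h (e.symm i) (e.symm j), e.apply_symm_apply, e.apply_symm_apply]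
  have h2 : ∀ i j, M' i j ≠ 0 → alt (gen M (e.symm i)) (gen M (e.symm j)) (M' i j) =
      alt (gen M (e.symm j)) (gen M (e.symm i)) (M' i j) := by
    intro i j hij
    rw [← h' i j] at hij ⊢
    exact gen_rel hij
  refine ⟨MonoidHom.toMulEquiv (lift (fun i => gen M' (e i)) h1) (lift (fun i => gen M (e.symm i)) h2) ?_ ?_⟩
  · refine art_ext fun i => ?_
    rw [MonoidHom.comp_apply, lift_gen, lift_gen, e.symm_apply_apply]
    rfl
  · refine art_ext fun i => ?_
    rw [MonoidHom.comp_apply, lift_gen, lift_gen, e.apply_symm_apply]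
    rfl

private theorem fin_aux (hC : Inherits C) (hE : Extension C) (hGL : ∀ n : ℕ, C (GL (Fin n) ℤ)) (n : ℕ) :
    ∀ (B : Type) [Finite B] (M : CoxeterMatrix B), Nat.card B = n →
      (∀ K : Set B, (∀ i ∈ K, ∀ j ∈ K, M i j ≠ 0) → C (ap M K)) → C (Art M) := by
  induction n using Nat.strong_induction_on with
  | _ n ih =>
    intro B _ M hn h
    by_cases hex : ∃ s t, s ≠ t ∧ M s t = 0
    · obtain ⟨s, t, hst, h0⟩ := hex
      refine step M hC hE hst h0 (cox_mem hC hGL B M) fun K hK => ap_of_res M hC ?_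
      have hlt : Nat.card K < n := by
        rw [← hn, Nat.card_coe_set_eq, ← Set.ncard_univ]
        exact Set.ncard_lt_ncard (Set.ssubset_univ_iff.2 hK) Set.finite_univ
      refine ih (Nat.card K) hlt K (resM M K) rfl fun L hL => ap_res M hC (h (Subtype.val '' L) ?_)
      rintro _ ⟨i, hi, rfl⟩ _ ⟨j, hj, rfl⟩
      exact hL i hi j hj
    · push Not at hex
      have h1 : ∀ i j, M i j ≠ 0 := by
        intro i j
        by_cases hij : i = j
        · rw [hij, M.diagonal]
          exact one_ne_zero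
        · exact hex i j hij
      have h2 := h Set.univ fun i _ j _ => h1 i j
      rw [ap_univ] at h2
      exact hC.iso _ _ Subgroup.topEquiv h2

theorem fin_mem (hC : Inherits C) (hE : Extension C) (hGL : ∀ n : ℕ, C (GL (Fin n) ℤ)) (B : Type) [Finite B]
    (M : CoxeterMatrix B) (h : ∀ K : Set B, (∀ i ∈ K, ∀ j ∈ K, M i j ≠ 0) → C (ap M K)) : C (Art M) :=
  fin_aux hC hE hGL (Nat.card B) B M rfl h

theorem inf_mem (hC : Inherits C) (hE : Extension C) (hGL : ∀ n : ℕ, C (GL (Fin n) ℤ)) (B : Type)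
    (M : CoxeterMatrix B) (h : ∀ K : Finset B, (∀ i ∈ K, ∀ j ∈ K, M i j ≠ 0) → C (Art (rst M K))) :
    C (Art M) := by
  classical
  refine art_mem_of_finite hC M fun S => fin_mem hC hE hGL S (rst M S) fun K hK => ap_of_res (rst M S) hC ?_
  obtain ⟨K', hK'⟩ : ∃ K' : Finset B, ∀ x, x ∈ K' ↔ ∃ y ∈ K, (y : B) = x :=
    ⟨(Set.toFinite (Subtype.val '' K)).toFinset, fun x => by
      rw [Set.Finite.mem_toFinset]
      rfl⟩
  have hmem : ∀ y : K, ((y : S) : B) ∈ K' := fun y => (hK' _).2 ⟨y.1, y.2, rfl⟩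
  have hbij : Function.Bijective (fun y : K => (⟨((y : S) : B), hmem y⟩ : K')) := by
    constructor
    · intro y z hyz
      have h1 : ((y : S) : B) = ((z : S) : B) := congrArg (Subtype.val : K' → B) hyz
      exact Subtype.ext (Subtype.ext h1)
    · rintro ⟨x, hx⟩
      obtain ⟨y, hy, rfl⟩ := (hK' x).1 hx
      exact ⟨⟨y, hy⟩, rfl⟩
  obtain ⟨e⟩ := art_congr (resM (rst M S) K) (rst M K') (Equiv.ofBijective _ hbij) fun i j => rfl
  refine hC.iso _ _ e.symm (h K' ?_)
  intro i hi j hj
  obtain ⟨y, hy, rfl⟩ := (hK' i).1 hi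
  obtain ⟨z, hz, rfl⟩ := (hK' j).1 hj
  exact hK y hy z hz

end Pool.Agent.H75.INF
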