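import Pool.Agent.H75.INF.Mr

/-!
# [H75 INF NOR] the normaliser of a parabolic subgroup

Let `n = mr m`, `κ = ps m`, `m = κ n`. `n` normalises `par K` (`hm`, `κ ∈ par K`).
(1) For `k ∈ K`: `n s_k n⁻¹ ∈ par K`, so `On cs K n k`; `mr n = n` (`mr_of_isL`, `mr_isL`), so `step_on` gives `σ k = ltr n k ∈ K` with
`n s_k = s_(σ k) n`. `σ : K → K` is injective (`simple_inj`), so a permutation of the finite set `K` (`Finite.injective_iff_bijective`,
`Equiv.ofBijective`).
(2) `mr (n y) = n * mr y`. As `n y = (n ps y n⁻¹) (n mr y)` it suffices (`mr_unique`) that `IsL cs K u` implies `IsL cs K (n u)`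
(lemma `isL_mul`). Suppose `k ∈ K` is a left descent of `n u`. Let `α`, `β` be reduced words of `n`, `u`. `π (α ++ β) = n u`. Let `ω` be a
reduced word of `n u`. `s_k` is a left inversion of `n u`, so it is in `leftInvSeq ω` (the first letter after exchange: take a reduced word
`k :: ω'`, whose `leftInvSeq` begins with `s_k`), with count one (`nodup_leftInvSeq`), and by `count_parity` (`H8/CDW/A1.lean`) its count in
`leftInvSeq (α ++ β) = leftInvSeq α ++ (leftInvSeq β).map (MulAut.conj n)` is odd (prove this formula by induction on `α`). If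
`s_k ∈ leftInvSeq α` then `k` is a left descent of `n` (`isLeftInversion_of_mem_leftInvSeq`), a contradiction. If `s_k = n t n⁻¹`,
`t ∈ leftInvSeq β`, then `t = n⁻¹ s_k n = s_(k')` with `σ k' = k`, `k' ∈ K` a left descent of `u`, a contradiction.
(3) Let `a` be the order of the permutation `σ`, `n' = n ^ a`: `n' s_k = s_k n'` for `k ∈ K` (`n ^ i * s_k = s_(σ ^ i k) * n ^ i`, induction),
`mr (n' y) = n' * mr y` (induction).
(4) For `i : ℤ` take the element `n' ^ i`: it commutes with `s_k` (`Commute.zpow_left`), `mr (n' ^ i y) = n' ^ i mr y`: the set of the `z`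
with `∀ y, mr (z y) = z mr y` is a subgroup. `(m ^ a) ^ i = κ' * n' ^ i` with `κ' ∈ par K`: for all `z : ℤ`
`m ^ z * (n ^ z)⁻¹ ∈ par K`, as `m` and `n` normalise `par K` and have the same image in the quotient of the normaliser by `par K` (or by
induction on `z`: `m ^ (z+1) (n ^ (z+1))⁻¹ = (m ^ z (n ^ z)⁻¹) (n ^ z κ (n ^ z)⁻¹)`).
-/

set_option autoImplicit false

namespace Pool.Agent.H75.INF

open CoxeterSystem Pool.H8.CDW Pool.Agent.H52.PAG

variable {B W : Type*} [Group W] {M : CoxeterMatrix B} (cs : CoxeterSystem M W)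

theorem lis_append (α β : List B) : cs.leftInvSeq (α ++ β) =
    cs.leftInvSeq α ++ (cs.leftInvSeq β).map (MulAut.conj (cs.wordProd α)) := by
  induction α with
  | nil =>
    rw [List.nil_append, leftInvSeq_nil, List.nil_append, wordProd_nil, map_one]
    exact (List.map_id _).symm
  | cons i α ih =>
    rw [List.cons_append]
    change cs.simple i :: List.map (MulAut.conj (cs.simple i)) (cs.leftInvSeq (α ++ β)) =
      (cs.simple i :: List.map (MulAut.conj (cs.simple i)) (cs.leftInvSeq α)) ++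
        (cs.leftInvSeq β).map (MulAut.conj (cs.wordProd (i :: α)))
    rw [ih, List.map_append, List.map_map, wordProd_cons, map_mul, List.cons_append]
    rfl

theorem isL_mul {K : Set B} {n u : W} (hn : IsL cs K n) (hu : IsL cs K u)
    (h : ∀ k ∈ K, ∃ k' ∈ K, cs.simple k * n = n * cs.simple k') : IsL cs K (n * u) := by
  classical
  intro k hk hd
  obtain ⟨α, hα, hnα⟩ := cs.exists_isReduced n
  obtain ⟨β, hβ, huβ⟩ := cs.exists_isReduced u
  obtain ⟨ω', hω', hω'e⟩ := cs.exists_isReduced (cs.simple k * (n * u))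
  have hprod : cs.wordProd (k :: ω') = cs.wordProd (α ++ β) := by
    rw [wordProd_cons, ← hω'e, wordProd_append, ← hnα, ← huβ, simple_mul_simple_cancel_left]
  have hred : cs.IsReduced (k :: ω') := by
    unfold CoxeterSystem.IsReduced
    rw [hprod, wordProd_append, ← hnα, ← huβ, List.length_cons]
    have h1 := cs.isLeftDescent_iff.1 hd
    have h2 : cs.length (cs.wordProd ω') = ω'.length := hω'
    rw [← hω'e] at h2
    omega
  have hpar := count_parity cs hprod (cs.isReflection_simple k)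
  have hc1 : (cs.leftInvSeq (k :: ω')).count (cs.simple k) = 1 := by
    refine List.count_eq_one_of_mem hred.nodup_leftInvSeq ?_
    change cs.simple k ∈ cs.simple k :: List.map (MulAut.conj (cs.simple k)) (cs.leftInvSeq ω')
    exact List.mem_cons_self
  have hc2 : (cs.leftInvSeq (α ++ β)).count (cs.simple k) = 0 := by
    rw [List.count_eq_zero, lis_append, List.mem_append, not_or]
    constructor
    · intro hm
      have h1 := cs.isLeftInversion_of_mem_leftInvSeq hα hm
      rw [← hnα] at h1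
      exact hn k hk ((cs.isLeftInversion_simple_iff_isLeftDescent n k).1 h1)
    · intro hm
      rw [List.mem_map] at hm
      obtain ⟨t, ht, hte⟩ := hm
      rw [← hnα, MulAut.conj_apply] at hte
      obtain ⟨k', hk', hkk⟩ := h k hk
      have h2 : t = cs.simple k' := by
        rw [← hte, inv_mul_cancel_right] at hkk
        exact mul_left_cancel hkk
      rw [h2] at ht
      have h1 := cs.isLeftInversion_of_mem_leftInvSeq hβ ht
      rw [← huβ] at h1
      exact hu k' hk' ((cs.isLeftInversion_simple_iff_isLeftDescent u k').1 h1)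
  rw [hc1, hc2] at hpar
  omega

theorem exists_nor [Finite B] (K : Set B) (m : W) (hm : ∀ x, x ∈ par cs K ↔ m * x * m⁻¹ ∈ par cs K) :
    ∃ a : ℕ, 0 < a ∧ ∀ i : ℤ, ∃ κ ∈ par cs K, ∃ n : W, (m ^ a) ^ i = κ * n ∧
      (∀ k ∈ K, n * cs.simple k = cs.simple k * n) ∧ ∀ y, mr cs K (n * y) = n * mr cs K y := by
  classical
  obtain ⟨n, hn⟩ : ∃ n, n = mr cs K m := ⟨_, rfl⟩
  obtain ⟨κ, hκ⟩ : ∃ κ, κ = ps cs K m := ⟨_, rfl⟩
  have hκm : κ ∈ par cs K := by
    rw [hκ]
    exact ps_mem cs K m
  have hmn : κ * n = m := by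
    rw [hκ, hn]
    exact ps_mul_mr cs K m
  have hnL : IsL cs K n := by
    rw [hn]
    exact mr_isL cs K m
  have hnn : ∀ x, x ∈ par cs K → n * x * n⁻¹ ∈ par cs K := by
    intro x hx
    have h1 : n * x * n⁻¹ = κ⁻¹ * (m * x * m⁻¹) * κ := by
      rw [← hmn]
      group
    rw [h1]
    exact mul_mem (mul_mem (inv_mem hκm) ((hm x).1 hx)) hκm
  have hmrn : mr cs K n = n := (mr_of_isL cs hnL).1
  have hon : ∀ k ∈ K, On cs K n k := fun k hk => hnn _ (simple_mem_par cs hk)
  have hσ : ∀ k : K, ltr cs K n k ∈ K ∧ n * cs.simple k = cs.simple (ltr cs K n k) * n := by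
    intro k
    have h1 := step_on cs (hon k k.2)
    rw [hmrn] at h1
    exact ⟨h1.1, h1.2.1⟩
  obtain ⟨σ, hσd⟩ : ∃ σ : K → K, ∀ k : K, n * cs.simple k = cs.simple (σ k) * n :=
    ⟨fun k => ⟨ltr cs K n k, (hσ k).1⟩, fun k => (hσ k).2⟩
  have hinj : Function.Injective σ := by
    intro k k' hkk
    have h1 := hσd k
    rw [hkk, ← hσd k'] at h1
    exact Subtype.ext (simple_inj cs (mul_left_cancel h1))
  have hbij : Function.Bijective σ := Finite.injective_iff_bijective.1 hinj
  obtain ⟨e, he⟩ : ∃ e : Equiv.Perm K, ∀ k : K, n * cs.simple k = cs.simple (e k) * n :=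
    ⟨Equiv.ofBijective σ hbij, fun k => hσd k⟩
  have hex : ∀ k ∈ K, ∃ k' ∈ K, cs.simple k * n = n * cs.simple k' := by
    intro k hk
    refine ⟨e.symm ⟨k, hk⟩, (e.symm ⟨k, hk⟩).2, ?_⟩
    rw [he, Equiv.apply_symm_apply]
  have hmul : ∀ y, mr cs K (n * y) = n * mr cs K y := by
    intro y
    refine (mr_unique cs (κ := n * ps cs K y * n⁻¹) (hnn _ (ps_mem cs K y))
      (isL_mul cs hnL (mr_isL cs K y) hex) ?_).1
    have h1 : n * ps cs K y * n⁻¹ * (n * mr cs K y) = n * (ps cs K y * mr cs K y) := by group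
    rw [h1, ps_mul_mr]
  -- powers of `n` and the simple reflections
  have hpow : ∀ (i : ℕ) (k : K), n ^ i * cs.simple k = cs.simple ((e ^ i) k) * n ^ i := by
    intro i
    induction i with
    | zero =>
      intro k
      rw [pow_zero, pow_zero, one_mul, mul_one, Equiv.Perm.one_apply]
    | succ i ih =>
      intro k
      rw [pow_succ, mul_assoc, he, ← mul_assoc, ih, pow_succ, Equiv.Perm.mul_apply, mul_assoc]
  have hmrpow : ∀ (i : ℕ) (y : W), mr cs K (n ^ i * y) = n ^ i * mr cs K y := by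
    intro i
    induction i with
    | zero =>
      intro y
      rw [pow_zero, one_mul, one_mul]
    | succ i ih =>
      intro y
      rw [pow_succ, mul_assoc, ih, hmul, mul_assoc]
  have ha : 0 < orderOf e := orderOf_pos e
  have hcomm : ∀ k ∈ K, Commute (n ^ orderOf e) (cs.simple k) := by
    intro k hk
    have h1 := hpow (orderOf e) ⟨k, hk⟩
    rw [pow_orderOf_eq_one, Equiv.Perm.one_apply] at h1
    exact h1
  obtain ⟨S, hS⟩ : ∃ S : Subgroup W, ∀ z, z ∈ S ↔ ∀ y, mr cs K (z * y) = z * mr cs K y := by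
    refine ⟨{ carrier := {z | ∀ y, mr cs K (z * y) = z * mr cs K y}
              mul_mem' := ?_
              one_mem' := ?_
              inv_mem' := ?_ }, fun z => Iff.rfl⟩
    · intro a b ha hb y
      rw [mul_assoc, ha, hb, mul_assoc]
    · intro y
      rw [one_mul, one_mul]
    · intro a ha y
      have h1 := ha (a⁻¹ * y)
      rw [mul_inv_cancel_left] at h1
      rw [h1, inv_mul_cancel_left]
  have hnS : n ^ orderOf e ∈ S := (hS _).2 (hmrpow _)
  -- the difference of the powers of `m` and `n`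
  have hdiff : ∀ z : ℤ, m ^ z * (n ^ z)⁻¹ ∈ par cs K := by
    intro z
    induction z with
    | zero =>
      rw [zpow_zero, zpow_zero, inv_one, mul_one]
      exact one_mem _
    | succ z ih =>
      have h1 : m ^ ((z : ℤ) + 1) * (n ^ ((z : ℤ) + 1))⁻¹ =
          (m * (m ^ (z : ℤ) * (n ^ (z : ℤ))⁻¹) * m⁻¹) * κ := by
        have h2 : κ = m * n⁻¹ := by rw [← hmn, mul_inv_cancel_right]
        rw [h2, add_comm, zpow_one_add, zpow_one_add]
        group
      rw [h1]
      exact mul_mem ((hm _).1 ih) hκm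
    | pred z ih =>
      have h1 : m ^ (-(z : ℤ) - 1) * (n ^ (-(z : ℤ) - 1))⁻¹ =
          (m⁻¹ * (m ^ (-(z : ℤ)) * (n ^ (-(z : ℤ)))⁻¹) * m) * (m⁻¹ * κ⁻¹ * m) := by
        have h2 : κ = m * n⁻¹ := by rw [← hmn, mul_inv_cancel_right]
        have h3 : m ^ (-(z : ℤ) - 1) = m⁻¹ * m ^ (-(z : ℤ)) := by
          rw [sub_eq_add_neg, add_comm, zpow_add, zpow_neg_one]
        have h4 : n ^ (-(z : ℤ) - 1) = n⁻¹ * n ^ (-(z : ℤ)) := by
          rw [sub_eq_add_neg, add_comm, zpow_add, zpow_neg_one]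
        rw [h2, h3, h4]
        group
      rw [h1]
      refine mul_mem ?_ ?_
      · rw [hm]
        have h5 : m * (m⁻¹ * (m ^ (-(z : ℤ)) * (n ^ (-(z : ℤ)))⁻¹) * m) * m⁻¹ =
            m ^ (-(z : ℤ)) * (n ^ (-(z : ℤ)))⁻¹ := by group
        rw [h5]
        exact ih
      · rw [hm]
        have h5 : m * (m⁻¹ * κ⁻¹ * m) * m⁻¹ = κ⁻¹ := by group
        rw [h5]
        exact inv_mem hκm
  refine ⟨orderOf e, ha, fun i => ⟨(m ^ orderOf e) ^ i * ((n ^ orderOf e) ^ i)⁻¹, ?_,
    (n ^ orderOf e) ^ i, ?_, ?_, ?_⟩⟩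
  · have h1 := hdiff ((orderOf e : ℤ) * i)
    rw [zpow_mul, zpow_mul, zpow_natCast, zpow_natCast] at h1
    exact h1
  · rw [inv_mul_cancel_right]
  · intro k hk
    exact ((hcomm k hk).zpow_left i).eq
  · exact (hS _).1 (S.zpow_mem hnS i)

end Pool.Agent.H75.INF
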