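import Pool.Agent.H75.INF.Prj
import Pool.Agent.H75.INF.Vdl

/-!
# [H75 INF PRC] the projection lemma

Let `ω₂ = outs K u ω`, `q = v u⁻¹ ps_K u`, `ω'' = outs J q ω₂`, `ω' = outs J v ω`, `z = (ps_J v)⁻¹ ps_J q`; `outs_proj` with `x = 1`:
`Forall₂` for `ω'`, `ω''`. `wv (gen M) ω₂ = cy K u (wv (gen M) ω) = 1` (`IsCz.word`, `cy_spec`), so
`wv (gen M) ω'' = cy J q (wv (gen M) ω₂) = cy J q 1 = 1`.
Let `L' = {l' ∈ J | ∃ l ∈ J, s_l = z s_l' z⁻¹}` and `f l' = gen M l` for such an `l` (choice), `1` otherwise. `Br M L' f`: for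
`i', j' ∈ L'` with `f i' = gen i`, `f j' = gen j`: `s_i s_j = z s_i' s_j' z⁻¹` has the same order, so `M i j = M i' j'` (`orderOf_mul`,
`MulAut.conj z` or `orderOf` of a conjugate), and `gen_rel` (for `i = j` trivial). So `wv f ω'' = 1` (`vdl_word`). Finally
`wv (gen M) ω' = wv f ω''` by induction on the `Forall₂`: `l = ` the chosen one by `simple_inj`.
`cy J v (wv (gen M) ω) = wv (gen M) ω' = 1`.
-/

set_option autoImplicit false

namespace Pool.Agent.H75.INF

open CoxeterSystem Pool.H8.CDW Pool.Agent.H52.PAG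

variable {B : Type} (M : CoxeterMatrix B)

private theorem prc_map {N : Type*} [Group N] {f g : B → N} {J : Set B} {z : M.Group}
    (hfg : ∀ l ∈ J, ∀ l' ∈ J, M.toCoxeterSystem.simple l = z * M.toCoxeterSystem.simple l' * z⁻¹ →
      g l = f l') {ω ω' : List (B × Bool)}
    (h : List.Forall₂ (fun l l' : B × Bool => l.2 = l'.2 ∧ l.1 ∈ J ∧ l'.1 ∈ J ∧
      M.toCoxeterSystem.simple l.1 = z * M.toCoxeterSystem.simple l'.1 * z⁻¹) ω ω') :
    wv g ω = wv f ω' := by
  induction h with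
  | nil => rfl
  | cons h1 _ ih =>
    rw [wv_cons, wv_cons, ih, h1.1, hfg _ h1.2.1 _ h1.2.2.1 h1.2.2.2]

private theorem prc_mem {J : Set B} {z : M.Group} {ω ω' : List (B × Bool)}
    (h : List.Forall₂ (fun l l' : B × Bool => l.2 = l'.2 ∧ l.1 ∈ J ∧ l'.1 ∈ J ∧
      M.toCoxeterSystem.simple l.1 = z * M.toCoxeterSystem.simple l'.1 * z⁻¹) ω ω') :
    ∀ x ∈ ω', x.1 ∈ {l' | l' ∈ J ∧ ∃ l ∈ J, M.toCoxeterSystem.simple l =
      z * M.toCoxeterSystem.simple l' * z⁻¹} := by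
  induction h with
  | nil => intro x hx; exact absurd hx List.not_mem_nil
  | cons h1 _ ih =>
    intro x hx
    rcases List.mem_cons.1 hx with rfl | hx
    · exact ⟨h1.2.2.1, _, h1.2.1, h1.2.2.2⟩
    · exact ih x hx

theorem proj (K J : Set B) (u v : M.Group) (ω : List (B × Bool))
    (hw : ∀ t ∈ wls M.toCoxeterSystem 1 ω, v * t * v⁻¹ ∈ par M.toCoxeterSystem J →
      u * t * u⁻¹ ∈ par M.toCoxeterSystem K)
    (h : cy M K u (wv (gen M) ω) = 1) : cy M J v (wv (gen M) ω) = 1 := by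
  classical
  have hp := outs_proj M.toCoxeterSystem K J u v
    ((ps M.toCoxeterSystem J (v * 1))⁻¹ * ps M.toCoxeterSystem J
      (v * u⁻¹ * ps M.toCoxeterSystem K (u * 1))) ω 1 (v * u⁻¹ * ps M.toCoxeterSystem K (u * 1))
    rfl rfl hw
  obtain ⟨z, hz⟩ : ∃ z, z = (ps M.toCoxeterSystem J (v * 1))⁻¹ * ps M.toCoxeterSystem J
      (v * u⁻¹ * ps M.toCoxeterSystem K (u * 1)) := ⟨_, rfl⟩
  rw [← hz] at hp
  rw [mul_one, mul_one] at hp
  obtain ⟨q, hq⟩ : ∃ q, q = v * u⁻¹ * ps M.toCoxeterSystem K u := ⟨_, rfl⟩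
  rw [← hq] at hp
  -- the values of the words
  have h2 : wv (gen M) (outs M.toCoxeterSystem K u ω) = 1 := by
    rw [← (cy_spec M K).word u ω, h]
  have h3 : wv (gen M) (outs M.toCoxeterSystem J q (outs M.toCoxeterSystem K u ω)) = 1 := by
    rw [← (cy_spec M J).word q, h2, (cy_spec M J).one]
  -- the letters
  obtain ⟨L, hL⟩ : ∃ L : Set B, L = {l' | l' ∈ J ∧ ∃ l ∈ J, M.toCoxeterSystem.simple l =
      z * M.toCoxeterSystem.simple l' * z⁻¹} := ⟨_, rfl⟩
  obtain ⟨f, hf⟩ : ∃ f : B → Art M, f = fun l' =>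
      if h : ∃ l ∈ J, M.toCoxeterSystem.simple l = z * M.toCoxeterSystem.simple l' * z⁻¹ then
        gen M h.choose else 1 := ⟨_, rfl⟩
  have hfl : ∀ l ∈ J, ∀ l' ∈ J, M.toCoxeterSystem.simple l =
      z * M.toCoxeterSystem.simple l' * z⁻¹ → gen M l = f l' := by
    intro l hl l' _ he
    have hex : ∃ l ∈ J, M.toCoxeterSystem.simple l = z * M.toCoxeterSystem.simple l' * z⁻¹ :=
      ⟨l, hl, he⟩
    rw [hf]
    simp only
    rw [dif_pos hex]
    refine congrArg (gen M) (simple_inj M.toCoxeterSystem ?_)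
    rw [hex.choose_spec.2, he]
  have hbr : Br M L f := by
    intro i' hi j' hj hM
    rw [hL] at hi hj
    obtain ⟨hi1, i, hi2, hi3⟩ := hi
    obtain ⟨hj1, j, hj2, hj3⟩ := hj
    rw [← hfl i hi2 i' hi1 hi3, ← hfl j hj2 j' hj1 hj3]
    have h4 : M i j = M i' j' := by
      rw [← orderOf_mul M.toCoxeterSystem i j, ← orderOf_mul M.toCoxeterSystem i' j', hi3, hj3]
      have h5 : z * M.toCoxeterSystem.simple i' * z⁻¹ * (z * M.toCoxeterSystem.simple j' * z⁻¹) =
          MulAut.conj z (M.toCoxeterSystem.simple i' * M.toCoxeterSystem.simple j') := by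
        rw [MulAut.conj_apply]
        group
      rw [h5]
      exact orderOf_injective (MulAut.conj z).toMonoidHom (MulAut.conj z).injective _
    rw [← h4]
    exact gen_rel (by rw [h4]; exact hM)
  have h6 : wv f (outs M.toCoxeterSystem J q (outs M.toCoxeterSystem K u ω)) = 1 := by
    refine vdl_word M hbr ?_ h3
    rw [hL]
    exact prc_mem M hp
  rw [(cy_spec M J).word v ω, prc_map M hfl hp, h6]

end Pool.Agent.H75.INF
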