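import Pool.Agent.H75.INF.Mr

/-!
# [H75 INF PRJ] projection of a word to a coset of a parabolic subgroup and then to another

`u`, `v` in the Coxeter group; `x` is the current chamber, `q` the position of the second reading: `q = v u⁻¹ ps_K(u x)`. The constant
`z = (ps_J(v x))⁻¹ ps_J(q)`. Induction on `ω` for all `x`. Let `(r, e)` be the first letter, `t = x s_r x⁻¹` its wall, and
`k = ltr_K(u x) r`.
(1) `On K (u x) r` iff `u t u⁻¹ ∈ par K`; `On J (v x) r` iff `v t v⁻¹ ∈ par J`.
(2) `¬ On K (u x) r`: `ps_K(u x s_r) = ps_K(u x)` (`step_off`), `q` does not change and the second reading has no letter. By `hw` also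
`¬ On J (v x) r`, so `ps_J(v x)` does not change. Induction hypothesis for `x s_r`.
(3) `On K (u x) r`: the second reading has the letter `(k, e)`, the new `q' = q s_k` (`step_on`: `ps_K(u x s_r) = ps_K(u x) s_k`), and
`q s_k q⁻¹ = v t v⁻¹`: `s_k = (ps_K(u x))⁻¹ (u t u⁻¹) ps_K(u x)` (`simple_ltr`). So `On J q k` iff `v t v⁻¹ ∈ par J` iff `On J (v x) r`. If not:
no outputs, `ps_J` of `v x` and of `q` do not change: induction hypothesis. If yes: the outputs `l = ltr_J(v x) r`, `l' = ltr_J q k` satisfy
`s_l = (ps_J(v x))⁻¹ (v t v⁻¹) ps_J(v x)`, `s_l' = (ps_J q)⁻¹ (v t v⁻¹) ps_J q` (`simple_ltr`), so `s_l = z s_l' z⁻¹`, and the new constant is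
`(ps_J(v x) s_l)⁻¹ (ps_J q s_l') = s_l z s_l' = z s_l' z⁻¹ z s_l' = z` (`simple_mul_simple_self`). `List.Forall₂.cons`.
It is convenient to state the induction with variables `q`, `z` and the equations `hq`, `hz` as hypotheses, as in `outs_proj`.
-/

set_option autoImplicit false

namespace Pool.Agent.H75.INF

open CoxeterSystem Pool.H8.CDW Pool.Agent.H52.PAG

variable {B W : Type*} [Group W] {M : CoxeterMatrix B} (cs : CoxeterSystem M W)

private theorem outs_on {K : Set B} {y : W} {r : B} (h : On cs K y r) (e : Bool) (ω : List (B × Bool)) :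
    outs cs K y ((r, e) :: ω) = (ltr cs K y r, e) :: outs cs K (y * cs.simple r) ω := by
  rw [outs]
  exact if_pos h

private theorem outs_off {K : Set B} {y : W} {r : B} (h : ¬ On cs K y r) (e : Bool) (ω : List (B × Bool)) :
    outs cs K y ((r, e) :: ω) = outs cs K (y * cs.simple r) ω := by
  rw [outs]
  exact if_neg h

theorem outs_mem {K : Set B} (ω : List (B × Bool)) (y : W) : ∀ l ∈ outs cs K y ω, l.1 ∈ K := by
  induction ω generalizing y with
  | nil =>
    intro l hl
    exact absurd hl List.not_mem_nil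
  | cons a ω ih =>
    obtain ⟨r, e⟩ := a
    intro l hl
    by_cases h : On cs K y r
    · rw [outs_on cs h] at hl
      rcases List.mem_cons.1 hl with rfl | hl
      · exact (step_on cs h).1
      · exact ih _ l hl
    · rw [outs_off cs h] at hl
      exact ih _ l hl

theorem outs_proj (K J : Set B) (u v z : W) (ω : List (B × Bool)) (x q : W)
    (hq : q = v * u⁻¹ * ps cs K (u * x)) (hz : z = (ps cs J (v * x))⁻¹ * ps cs J q)
    (hw : ∀ t ∈ wls cs x ω, v * t * v⁻¹ ∈ par cs J → u * t * u⁻¹ ∈ par cs K) :
    List.Forall₂ (fun l l' : B × Bool => l.2 = l'.2 ∧ l.1 ∈ J ∧ l'.1 ∈ J ∧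
      cs.simple l.1 = z * cs.simple l'.1 * z⁻¹) (outs cs J (v * x) ω) (outs cs J q (outs cs K (u * x) ω)) := by
  induction ω generalizing x q with
  | nil => exact List.Forall₂.nil
  | cons a ω ih =>
    obtain ⟨r, e⟩ := a
    have hwt : ∀ t ∈ wls cs (x * cs.simple r) ω, v * t * v⁻¹ ∈ par cs J → u * t * u⁻¹ ∈ par cs K :=
      fun t ht => hw t (List.mem_cons_of_mem _ ht)
    have hw0 := hw (x * cs.simple r * x⁻¹) List.mem_cons_self
    have eK : u * (x * cs.simple r * x⁻¹) * u⁻¹ = u * x * cs.simple r * (u * x)⁻¹ := by group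
    have eJ : v * (x * cs.simple r * x⁻¹) * v⁻¹ = v * x * cs.simple r * (v * x)⁻¹ := by group
    rw [eK, eJ] at hw0
    have hw1 : On cs J (v * x) r → On cs K (u * x) r := hw0
    have au : u * x * cs.simple r = u * (x * cs.simple r) := mul_assoc _ _ _
    have av : v * x * cs.simple r = v * (x * cs.simple r) := mul_assoc _ _ _
    by_cases hK : On cs K (u * x) r
    · obtain ⟨hk1, hk2, hk3, hk4⟩ := step_on cs hK
      have hk5 := simple_ltr cs hK
      rw [outs_on cs hK]
      generalize ltr cs K (u * x) r = k at hk1 hk2 hk4 hk5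
      have hqt : q * cs.simple k * q⁻¹ = v * x * cs.simple r * (v * x)⁻¹ := by
        rw [hk5, hq]
        group
      have hiff : On cs J q k ↔ On cs J (v * x) r := by
        unfold On
        rw [hqt]
      have hq' : q * cs.simple k = v * u⁻¹ * ps cs K (u * (x * cs.simple r)) := by
        rw [← au, hk4, hq, mul_assoc]
      by_cases hJ : On cs J (v * x) r
      · have hJ' := hiff.2 hJ
        obtain ⟨a1, a2, a3, a4⟩ := step_on cs hJ
        obtain ⟨b1, b2, b3, b4⟩ := step_on cs hJ'
        have a5 := simple_ltr cs hJ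
        have b5 := simple_ltr cs hJ'
        rw [outs_on cs hJ, outs_on cs hJ', au, av]
        have hzz : cs.simple (ltr cs J (v * x) r) = z * cs.simple (ltr cs J q k) * z⁻¹ := by
          rw [a5, b5, hqt, hz]
          group
        refine List.Forall₂.cons ⟨rfl, a1, b1, hzz⟩ ?_
        refine ih (x * cs.simple r) (q * cs.simple k) hq' ?_ hwt
        rw [← av, a4, b4]
        have h1 : (ps cs J (v * x) * cs.simple (ltr cs J (v * x) r))⁻¹ *
            (ps cs J q * cs.simple (ltr cs J q k)) =
            (cs.simple (ltr cs J (v * x) r))⁻¹ * ((ps cs J (v * x))⁻¹ * ps cs J q) *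
              cs.simple (ltr cs J q k) := by group
        rw [h1, ← hz, hzz, mul_inv_rev, mul_inv_rev, inv_inv, cs.inv_simple]
        have h2 : z * (cs.simple (ltr cs J q k) * z⁻¹) * z * cs.simple (ltr cs J q k) =
            z * (cs.simple (ltr cs J q k) * cs.simple (ltr cs J q k)) := by group
        rw [h2, cs.simple_mul_simple_self, mul_one]
      · have hJ' : ¬ On cs J q k := fun h => hJ (hiff.1 h)
        rw [outs_off cs hJ, outs_off cs hJ', au, av]
        refine ih (x * cs.simple r) (q * cs.simple k) hq' ?_ hwt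
        rw [← av, (step_off cs hJ).2, (step_off cs hJ').2]
        exact hz
    · have hJ : ¬ On cs J (v * x) r := fun h => hK (hw1 h)
      rw [outs_off cs hK, outs_off cs hJ, au, av]
      refine ih (x * cs.simple r) q ?_ ?_ hwt
      · rw [← au, (step_off cs hK).2]
        exact hq
      · rw [← av, (step_off cs hJ).2]
        exact hz

end Pool.Agent.H75.INF
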