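import Pool.Agent.H75.INF.Dyw
import Pool.Agent.H75.INF.Psi
import Pool.Agent.H75.INF.Fin
import Pool.Agent.H75.INF.Fam
import Pool.Agent.H75.INF.Cor

/-!
# [H75 INF SEP] a homomorphism which is injective on the stabiliser of an edge

Let `P = {s, t}ᶜ`, `b = toCox a`. `dyw hst h0 w b` gives `m, K, g`; `psi K g (w ^ m)` gives `a' > 0`; `w' = (w ^ m) ^ a'`.
`hfin'`: for `x ∉ pc K g` the set `{j | x ∈ pc P (w' ^ j * b)}` is finite (preimage of a finite set under the injective `j ↦ a' * j`), so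
`fin_cy` gives the hypothesis of `fam_cy` with `w'`, `u = g⁻¹`, `v = b⁻¹`: there is `N₀ : Subgroup (gw M w')`.
`gw_index`: `K' = (gw M w').subgroupOf (gw M w)` is normal (`toCox` of the elements of `gw M w` are powers of `w`, they commute) and of finite
index: for `n > 0` every element of `gw M w` is in the coset of a representative of one of the classes of the exponents modulo `n`: it is
the `comap` under `gw M w → zpowers w` of `(zpowers (w ^ n)).subgroupOf (zpowers w)`, which has finite index (the quotient is the image of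
`Fin n` under `i ↦ w ^ i`). Transport `N₀` to a subgroup of `K'` (`IsKer.comap` for `K' → gw M w'`), `isKer_core` gives `N`. Let `h ∈ N` with
`z = a⁻¹ h a ∈ ap M P`. Then `toCox h = 1`, `cy P b⁻¹ h = 1`, `h = a z a⁻¹`, `toCox z = 1`; `IsCz.conj` with `y = b⁻¹` gives `cy P 1 z = 1`, and
`cy_base` gives `z = 1`.
-/

set_option autoImplicit false

namespace Pool.Agent.H75.INF

open CoxeterSystem Pool.H8.CDW Pool.Agent.H52.PAG Pool.Agent.H93.TR Pool.Agent.H98.FJ

variable {C : (G : Type) → [Group G] → Prop} {B : Type} (M : CoxeterMatrix B)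

private theorem zq_finite {W : Type} [Group W] (w : W) {n : ℕ} (hn : 0 < n) :
    Finite (Subgroup.zpowers w ⧸ (Subgroup.zpowers (w ^ n)).subgroupOf (Subgroup.zpowers w)) := by
  let F : Fin n → Subgroup.zpowers w ⧸ (Subgroup.zpowers (w ^ n)).subgroupOf (Subgroup.zpowers w) :=
    fun i => QuotientGroup.mk ⟨w ^ (i : ℕ), Subgroup.npow_mem_zpowers w i⟩
  refine Finite.of_surjective F ?_
  intro x
  obtain ⟨⟨y, j, rfl⟩, rfl⟩ := QuotientGroup.mk_surjective x
  have hn0 : (0 : ℤ) < n := by exact_mod_cast hn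
  have h1 := Int.emod_nonneg j hn0.ne'
  have h2 := Int.emod_lt_of_pos j hn0
  refine ⟨⟨(j % n).toNat, by omega⟩, ?_⟩
  refine QuotientGroup.eq.2 ?_
  rw [Subgroup.mem_subgroupOf, Subgroup.mem_zpowers_iff]
  refine ⟨j / n, ?_⟩
  show (w ^ n) ^ (j / n) = (w ^ ((j % n).toNat))⁻¹ * w ^ j
  rw [← zpow_natCast w ((j % n).toNat), Int.toNat_of_nonneg h1, ← zpow_natCast w n, ← zpow_mul,
    ← zpow_neg, ← zpow_add]
  congr 1
  have h3 := Int.emod_add_mul_ediv j n
  linarith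

private theorem gen_index {A W : Type} [Group A] [Group W] (f : A →* W) (w : W) {n : ℕ} (hn : 0 < n) :
    (((Subgroup.zpowers (w ^ n)).comap f).subgroupOf ((Subgroup.zpowers w).comap f)).Normal ∧
      (((Subgroup.zpowers (w ^ n)).comap f).subgroupOf ((Subgroup.zpowers w).comap f)).FiniteIndex := by
  constructor
  · constructor
    rintro ⟨k, hk⟩ hk' ⟨g, hg⟩
    obtain ⟨i, hi⟩ := Subgroup.mem_zpowers_iff.1 (Subgroup.mem_comap.1 hg)
    rw [Subgroup.mem_subgroupOf] at hk' ⊢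
    obtain ⟨j, hj⟩ := Subgroup.mem_zpowers_iff.1 (Subgroup.mem_comap.1 hk')
    refine Subgroup.mem_comap.2 (Subgroup.mem_zpowers_iff.2 ⟨j, ?_⟩)
    show (w ^ n) ^ j = f (g * k * g⁻¹)
    have hj' : (w ^ n) ^ j = f k := hj
    rw [map_mul, map_mul, map_inv, ← hi, ← hj', ← zpow_natCast w n, ← zpow_mul, ← zpow_add, ← zpow_neg,
      ← zpow_add]
    congr 1
    ring
  · have := zq_finite w hn
    rw [Subgroup.finiteIndex_iff_finite_quotient]
    let F : ((Subgroup.zpowers w).comap f ⧸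
        ((Subgroup.zpowers (w ^ n)).comap f).subgroupOf ((Subgroup.zpowers w).comap f)) →
        Subgroup.zpowers w ⧸ (Subgroup.zpowers (w ^ n)).subgroupOf (Subgroup.zpowers w) :=
      Quotient.map' (fun h => ⟨f h.1, h.2⟩) (by
        intro a b hab
        rw [QuotientGroup.leftRel_apply] at hab ⊢
        rw [Subgroup.mem_subgroupOf] at hab ⊢
        have h1 : f ((a : A)⁻¹ * (b : A)) ∈ Subgroup.zpowers (w ^ n) := hab
        rw [map_mul, map_inv] at h1
        exact h1)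
    refine Finite.of_injective F ?_
    intro x y hxy
    obtain ⟨a, rfl⟩ := QuotientGroup.mk_surjective x
    obtain ⟨b, rfl⟩ := QuotientGroup.mk_surjective y
    have h1 : (QuotientGroup.mk (⟨f a.1, a.2⟩ : Subgroup.zpowers w) :
        Subgroup.zpowers w ⧸ (Subgroup.zpowers (w ^ n)).subgroupOf (Subgroup.zpowers w)) =
        QuotientGroup.mk ⟨f b.1, b.2⟩ := hxy
    rw [QuotientGroup.eq, Subgroup.mem_subgroupOf] at h1 ⊢
    have h2 : (f a.1)⁻¹ * f b.1 ∈ Subgroup.zpowers (w ^ n) := h1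
    rw [← map_inv, ← map_mul] at h2
    exact h2

theorem gw_index (w : M.Group) {n : ℕ} (hn : 0 < n) :
    ((gw M (w ^ n)).subgroupOf (gw M w)).Normal ∧ ((gw M (w ^ n)).subgroupOf (gw M w)).FiniteIndex :=
  gen_index (toCox M) w hn

private theorem transport (hC : Inherits C) {A W : Type} [Group A] [Group W] (f : A →* W) (w w' : W) {n : ℕ}
    (hn : 0 < n) (hw : w' = w ^ n) (N₀ : Subgroup ((Subgroup.zpowers w').comap f)) (hN : IsKer C N₀) :
    ∃ N : Subgroup ((Subgroup.zpowers w).comap f), IsKer C N ∧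
      ∀ x ∈ N, ∃ y ∈ N₀, (y : A) = x := by
  subst hw
  obtain ⟨h1, h2⟩ := gen_index f w hn
  let ψ : ((Subgroup.zpowers (w ^ n)).comap f).subgroupOf ((Subgroup.zpowers w).comap f) →*
      (Subgroup.zpowers (w ^ n)).comap f :=
    { toFun := fun x => ⟨(x.1 : A), x.2⟩
      map_one' := rfl
      map_mul' := fun _ _ => rfl }
  obtain ⟨N, hN1, hN2⟩ := isKer_core hC _ h1 h2 (N₀.comap ψ) (hN.comap ψ)
  refine ⟨N, hN1, fun x hx => ?_⟩
  obtain ⟨h3, h4⟩ := hN2 x hx
  exact ⟨ψ ⟨x, h3⟩, h4, rfl⟩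

theorem sep (hC : Inherits C) (hE : Extension C) [Finite B] {s t : B} (hst : s ≠ t) (h0 : M s t = 0)
    (hW : C M.Group) (hK : ∀ K : Set B, K ≠ Set.univ → C (ap M K)) (w : M.Group) (a : Art M) :
    ∃ N : Subgroup (gw M w), IsKer C N ∧
      ∀ h ∈ N, a⁻¹ * (h : Art M) * a ∈ ap M ({s, t}ᶜ : Set B) → h = 1 := by
  obtain ⟨m, K, g, hm, hKu, hnor, hfin⟩ := dyw M hst h0 w (toCox M a)
  obtain ⟨e, he, hpsi⟩ := psi M K g (w ^ m) hnor
  have hP : ({s, t}ᶜ : Set B) ≠ Set.univ := by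
    intro h
    have h1 : s ∈ ({s, t}ᶜ : Set B) := by
      rw [h]
      exact Set.mem_univ s
    exact h1 (Or.inl rfl)
  have hfin' : ∀ x, x ∉ pc M.toCoxeterSystem K g →
      {j : ℤ | x ∈ pc M.toCoxeterSystem ({s, t}ᶜ : Set B) (((w ^ m) ^ e) ^ j * toCox M a)}.Finite := by
    intro x hx
    have h1 := hfin x hx
    have hinj : Function.Injective (fun j : ℤ => (e : ℤ) * j) := by
      intro i j hij
      have h2 : (e : ℤ) ≠ 0 := by exact_mod_cast he.ne'
      exact mul_left_cancel₀ h2 hij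
    refine Set.Finite.subset (h1.preimage hinj.injOn) ?_
    intro j hj
    show x ∈ pc M.toCoxeterSystem ({s, t}ᶜ : Set B) ((w ^ m) ^ ((e : ℤ) * j) * toCox M a)
    rw [zpow_mul, zpow_natCast]
    exact hj
  obtain ⟨N₀, hN₀, hN₀'⟩ := fam_cy M hC hE K ({s, t}ᶜ : Set B) (hK K hKu) (hK _ hP) hW ((w ^ m) ^ e)
    g⁻¹ (toCox M a)⁻¹ hpsi (fun h h1 => fin_cy M K ({s, t}ᶜ : Set B) g ((w ^ m) ^ e) (toCox M a) hfin' h h1)
  obtain ⟨N, hN, hN'⟩ := transport hC (toCox M) w ((w ^ m) ^ e) (Nat.mul_pos hm he) (pow_mul w m e).symm N₀ hN₀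
  refine ⟨N, hN, fun h hh hz => ?_⟩
  obtain ⟨y, hy, hyh⟩ := hN' h hh
  obtain ⟨h1, h2⟩ := hN₀' y hy
  have hyh' : ((y : gw M ((w ^ m) ^ e)) : Art M) = (h : Art M) := hyh
  rw [hyh'] at h1 h2
  obtain ⟨z, hzd⟩ : ∃ z : Art M, z = a⁻¹ * (h : Art M) * a := ⟨_, rfl⟩
  rw [← hzd] at hz
  have hhz : (h : Art M) = a * z * a⁻¹ := by
    rw [hzd]
    group
  have h3 : toCox M z = 1 := by
    rw [hzd, map_mul, map_mul, h1, mul_one, map_inv, inv_mul_cancel]
  have h4 := (cy_spec M ({s, t}ᶜ : Set B)).conj (y := (toCox M a)⁻¹) (a := a) (x := z)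
    (by rw [inv_mul_cancel]; exact one_mem _) (by rw [h3]; exact one_mem _)
  rw [← hhz, h2] at h4
  have h5 : cy M ({s, t}ᶜ : Set B) 1 z = 1 := by
    have h6 := congrArg (fun x => (cy M ({s, t}ᶜ : Set B) (toCox M a)⁻¹ a)⁻¹ * x *
      cy M ({s, t}ᶜ : Set B) (toCox M a)⁻¹ a) h4
    simp only [mul_one, inv_mul_cancel] at h6
    rw [h6]
    group
  rw [cy_base hz] at h5
  apply Subtype.ext
  rw [hhz, h5, mul_one, mul_inv_cancel]
  rfl

end Pool.Agent.H75.INF
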