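import Pool.Agent.H75.INF.Sub

/-!
# [H75 INF TRC] the combination theorem with one homomorphism for every edge

`trc_fg` (`G` finitely generated): take `V'`, `X'`, `φ`, `E` from `sub_tree`. For `e ∈ E` let `N e` be the subgroup of `hS e.1 e.2`. The
intersection `N` over the finite type `↥E` is `IsKer` (`IsKer.inf`), i.e. the kernel of `f : G → A`, `C A`. Apply `H93.TR.main` to `X'` and `f`:
the stabiliser of `v : V'` is the stabiliser of `φ v` (`hC.of_injective` or `hC.iso`). `EdgeFree X' f.ker`: let `n ∈ N` fix the adjacent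
`v`, `w`; `φ v = g • e.1`, `φ w = g • e.2`; `g⁻¹ n g` fixes `e.1`, `e.2` and is in `N e` (`IsKer.normal`), so `g⁻¹ n g = 1`.
`trc`: `G` is the directed union of the subgroups `closure F`, `F : Finset G` (`hC.union`), which are finitely generated
(`Subgroup.fg_iff_...`, `Group.fg_iff_subgroup_fg`), act on `X` by restriction; stabilisers: `hC.of_injective`; `N.subgroupOf`: `IsKer.comap`.
-/

set_option autoImplicit false

namespace Pool.Agent.H75.INF

open Pool.Agent.H93.TR Pool.Agent.H98.FJ

variable {C : (G : Type) → [Group G] → Prop}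

theorem trc_fg (hC : Inherits C) (hE : Extension C) {G V : Type} [Group G] [MulAction G V] {X : SimpleGraph V}
    (hX : OnTree G X) (hG : ∀ v : V, C (MulAction.stabilizer G v))
    (hS : ∀ v w : V, X.Adj v w → ∃ N : Subgroup G, IsKer C N ∧ ∀ n ∈ N, n • v = v → n • w = w → n = 1)
    (hfg : Group.FG G) : C G := by
  obtain ⟨V', act, X', φ, E, hX', hφ, hφg, hE1, hE2⟩ := sub_tree hX hfg
  choose N hN hN' using fun e : E => hS e.1.1 e.1.2 (hE1 e.1 e.2)
  obtain ⟨Q, instQ, f, hQ, hk⟩ := IsKer.inf hC N hN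
  refine main hC hE (V := V') (Q := Q) hX' ?_ hQ f ?_
  · intro v
    have hst : ∀ g : MulAction.stabilizer G v, (g : G) ∈ MulAction.stabilizer G (φ v) := by
      intro g
      rw [MulAction.mem_stabilizer_iff, ← hφg]
      exact congrArg φ g.2
    let ψ : MulAction.stabilizer G v →* MulAction.stabilizer G (φ v) :=
      { toFun := fun g => ⟨(g : G), hst g⟩
        map_one' := rfl
        map_mul' := fun _ _ => rfl }
    refine hC.of_injective ψ ?_ (hG (φ v))
    intro a b hab
    exact Subtype.ext (congrArg (fun z : MulAction.stabilizer G (φ v) => (z : G)) hab)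
  · intro n hn v w hvw h1 h2
    obtain ⟨g, e, he, hv, hw⟩ := hE2 v w hvw
    rw [hk, Subgroup.mem_iInf] at hn
    have h3 : n • φ v = φ v := by rw [← hφg, h1]
    have h4 : n • φ w = φ w := by rw [← hφg, h2]
    have h5 : g⁻¹ * n * g ∈ N ⟨e, he⟩ := by
      have h6 := (hN ⟨e, he⟩).normal.conj_mem n (hn ⟨e, he⟩) g⁻¹
      rw [inv_inv] at h6
      exact h6
    have h6 : g⁻¹ * n * g = 1 := by
      refine hN' ⟨e, he⟩ _ h5 ?_ ?_
      · rw [mul_smul, mul_smul, ← hv, h3, hv, inv_smul_smul]
      · rw [mul_smul, mul_smul, ← hw, h4, hw, inv_smul_smul]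
    have h7 : n = g * (g⁻¹ * n * g) * g⁻¹ := by group
    rw [h7, h6, mul_one, mul_inv_cancel]

theorem trc (hC : Inherits C) (hE : Extension C) {G V : Type} [Group G] [MulAction G V] {X : SimpleGraph V}
    (hX : OnTree G X) (hG : ∀ v : V, C (MulAction.stabilizer G v))
    (hS : ∀ v w : V, X.Adj v w → ∃ N : Subgroup G, IsKer C N ∧ ∀ n ∈ N, n • v = v → n • w = w → n = 1) :
    C G := by
  classical
  refine hC.union (ι := Finset G) (fun F => Subgroup.closure (F : Set G))
    (fun F F' h => Subgroup.closure_mono (Finset.coe_subset.2 h))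
    (fun g => ⟨{g}, Subgroup.subset_closure (by simp)⟩) fun F => ?_
  have hfg : Group.FG (Subgroup.closure (F : Set G)) := (Group.fg_iff_subgroup_fg _).2 ⟨F, rfl⟩
  refine trc_fg hC hE (G := Subgroup.closure (F : Set G)) (V := V) (X := X)
    ⟨hX.tree, fun g v w h => hX.adj (g : G) v w h⟩ ?_ ?_ hfg
  · intro v
    let ψ : MulAction.stabilizer (Subgroup.closure (F : Set G)) v →* MulAction.stabilizer G v :=
      { toFun := fun h => ⟨(h.1 : G), h.2⟩
        map_one' := rfl
        map_mul' := fun _ _ => rfl }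
    refine hC.of_injective ψ ?_ (hG v)
    intro a b hab
    have h1 : ((a.1 : Subgroup.closure (F : Set G)) : G) = b.1 :=
      congrArg (fun z : MulAction.stabilizer G v => (z : G)) hab
    exact Subtype.ext (Subtype.ext h1)
  · intro v w hvw
    obtain ⟨N, hN, hN'⟩ := hS v w hvw
    refine ⟨N.comap (Subgroup.closure (F : Set G)).subtype, hN.comap _, ?_⟩
    intro n hn h1 h2
    exact Subtype.ext (hN' (n : G) hn h1 h2)

end Pool.Agent.H75.INF
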