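import Pool.Agent.H75.INF.Sep
import Pool.Agent.H75.INF.Trc

/-!
# [H75 INF STEP] the induction step

Let `X = cg (ap {t}ᶜ) (ap {s}ᶜ)`, `amal_tree (amal_art ..)`: `OnTree (Art M) X`, `ap {t}ᶜ ⊓ ap {s}ᶜ = ap {s,t}ᶜ`. For `w` the subgroup `gw M w` acts
on `X`. The stabiliser of `Sum.inl c` embeds into `ap {t}ᶜ` by `h ↦ c⁻¹ h c` (`QuotientGroup.eq`), `{t}ᶜ ≠ univ`; the same for `Sum.inr`. An
edge is `Sum.inl c, Sum.inr c` (or swapped); an element fixing both vertices has `c⁻¹ n c ∈ ap {s,t}ᶜ`: `sep` with `a = c`. So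
`C (gw M w)` (`trc`). `C (Art M)`: `IsKer.mem_of_bot` and `IsKer.ext hC hE` with `N = ⊥`, `L = pureA M` (the kernel of `toCox M`, `C M.Group`):
for `x : Art M`, `pureA M ⊔ zpowers x ≤ gw M (toCox x)`, so it is in the class (`hC.of_injective`), and `⊥.subgroupOf _ = ⊥` is `IsKer`
(`IsKer.of_mem`).
-/

set_option autoImplicit false

namespace Pool.Agent.H75.INF

open CoxeterSystem Pool.H8.CDW Pool.Agent.H52.PAG Pool.Agent.H93.TR Pool.Agent.H98.FJ

variable {C : (G : Type) → [Group G] → Prop} {B : Type} (M : CoxeterMatrix B)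

private theorem stab_emb (hC : Inherits C) {G : Type} [Group G] {V : Type} [MulAction G V] (S H : Subgroup G)
    (hH : C H) (a : G) (v : V) (hv : ∀ g : G, g • v = v → a⁻¹ * g * a ∈ H) :
    C (MulAction.stabilizer S v) := by
  have hm : ∀ x : MulAction.stabilizer S v,
      ((MulAut.conj a⁻¹).toMonoidHom.comp (S.subtype.comp (MulAction.stabilizer S v).subtype)) x ∈ H := by
    intro x
    have h1 : ((x : S) : G) • v = v := x.2
    have h2 := hv _ h1
    have h3 : ((MulAut.conj a⁻¹).toMonoidHom.comp (S.subtype.comp (MulAction.stabilizer S v).subtype)) x =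
        a⁻¹ * ((x : S) : G) * a := by
      show (MulAut.conj a⁻¹) ((x : S) : G) = _
      rw [MulAut.conj_apply, inv_inv]
    rw [h3]
    exact h2
  refine hC.of_injective (MonoidHom.codRestrict _ H hm) ?_ hH
  intro x y hxy
  have h1 : ((MulAut.conj a⁻¹).toMonoidHom.comp (S.subtype.comp (MulAction.stabilizer S v).subtype)) x =
      ((MulAut.conj a⁻¹).toMonoidHom.comp (S.subtype.comp (MulAction.stabilizer S v).subtype)) y :=
    congrArg Subtype.val hxy
  have h2 : (MulAut.conj a⁻¹) ((x : S) : G) = (MulAut.conj a⁻¹) ((y : S) : G) := h1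
  exact Subtype.ext (Subtype.ext ((MulAut.conj a⁻¹).injective h2))

private theorem fix_inl {G : Type} [Group G] {G₁ G₂ : Subgroup G} {g a : G}
    (h : g • (Sum.inl (a : G ⧸ G₁) : (G ⧸ G₁) ⊕ (G ⧸ G₂)) = Sum.inl (a : G ⧸ G₁)) : a⁻¹ * g * a ∈ G₁ := by
  have h1 : ((g * a : G) : G ⧸ G₁) = (a : G ⧸ G₁) := by
    have h2 : (Sum.inl ((g * a : G) : G ⧸ G₁) : (G ⧸ G₁) ⊕ (G ⧸ G₂)) = Sum.inl (a : G ⧸ G₁) := h
    exact Sum.inl_injective h2
  have h3 := QuotientGroup.eq.1 h1.symm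
  rwa [← mul_assoc] at h3

private theorem fix_inr {G : Type} [Group G] {G₁ G₂ : Subgroup G} {g a : G}
    (h : g • (Sum.inr (a : G ⧸ G₂) : (G ⧸ G₁) ⊕ (G ⧸ G₂)) = Sum.inr (a : G ⧸ G₂)) : a⁻¹ * g * a ∈ G₂ := by
  have h1 : ((g * a : G) : G ⧸ G₂) = (a : G ⧸ G₂) := by
    have h2 : (Sum.inr ((g * a : G) : G ⧸ G₂) : (G ⧸ G₁) ⊕ (G ⧸ G₂)) = Sum.inr (a : G ⧸ G₂) := h
    exact Sum.inr_injective h2
  have h3 := QuotientGroup.eq.1 h1.symm
  rwa [← mul_assoc] at h3

theorem gw_mem (hC : Inherits C) (hE : Extension C) [Finite B] {s t : B} (hst : s ≠ t) (h0 : M s t = 0)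
    (hW : C M.Group) (hK : ∀ K : Set B, K ≠ Set.univ → C (ap M K)) (w : M.Group) : C (gw M w) := by
  obtain ⟨hT, -, hinf⟩ := amal_tree (amal_art M hst h0)
  have hT' : OnTree (gw M w) (cg (ap M ({t}ᶜ : Set B)) (ap M ({s}ᶜ : Set B))) :=
    ⟨hT.tree, fun g v w' h => hT.adj (g : Art M) v w' h⟩
  have hne : ∀ x : B, ({x}ᶜ : Set B) ≠ Set.univ := by
    intro x h
    have h1 : x ∈ ({x}ᶜ : Set B) := by
      rw [h]
      trivial
    exact h1 rfl
  refine trc hC hE hT' ?_ ?_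
  · intro v
    rcases v with c | c
    · induction c using QuotientGroup.induction_on with
      | H a => exact stab_emb hC (gw M w) _ (hK _ (hne t)) a _ fun g hg => fix_inl hg
    · induction c using QuotientGroup.induction_on with
      | H a => exact stab_emb hC (gw M w) _ (hK _ (hne s)) a _ fun g hg => fix_inr hg
  · intro v w' hadj
    obtain ⟨a, ha⟩ := hadj
    obtain ⟨N, hN, hN1⟩ := sep M hC hE hst h0 hW hK w a
    refine ⟨N, hN, fun n hn h1 h2 => hN1 n hn ?_⟩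
    rw [← hinf, Subgroup.mem_inf]
    rcases ha with ⟨rfl, rfl⟩ | ⟨rfl, rfl⟩
    · exact ⟨fix_inl h1, fix_inr h2⟩
    · exact ⟨fix_inl h2, fix_inr h1⟩

theorem step (hC : Inherits C) (hE : Extension C) [Finite B] {s t : B} (hst : s ≠ t) (h0 : M s t = 0)
    (hW : C M.Group) (hK : ∀ K : Set B, K ≠ Set.univ → C (ap M K)) : C (Art M) := by
  have hL : IsKer C (pureA M) := ⟨M.Group, inferInstance, toCox M, hW, rfl⟩
  refine IsKer.mem_of_bot hC (IsKer.ext hC hE inferInstance hL bot_le fun x _ => ?_)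
  have hle : pureA M ⊔ Subgroup.zpowers x ≤ gw M (toCox M x) := by
    refine sup_le ?_ ?_
    · intro h hh
      have h1 : toCox M h = 1 := hh
      rw [mem_gw]
      exact ⟨0, by rw [zpow_zero, h1]⟩
    · intro h hh
      obtain ⟨n, rfl⟩ := Subgroup.mem_zpowers_iff.1 hh
      rw [mem_gw]
      exact ⟨n, by rw [map_zpow]⟩
  rw [Subgroup.bot_subgroupOf]
  exact IsKer.of_mem (hC.of_injective (Subgroup.inclusion hle) (Subgroup.inclusion_injective hle)
    (gw_mem M hC hE hst h0 hW hK (toCox M x)))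

end Pool.Agent.H75.INF
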