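import Pool.Agent.H93.TR.Main

/-!
# [H75 INF SUB] a finitely generated group acting on a tree has an invariant subtree with finitely many orbits of edges

(Mathlib and `OnTree` only.) Let `S` be a finite generating set, `v₀ : V` (the tree is nonempty), for `s ∈ S` let `q s` be a walk from `v₀`
to `s • v₀`. Let `E` be the finite set of the pairs `(d.fst, d.snd)` and `(d.snd, d.fst)` for the darts `d` of the `q s` (`Walk.darts`).
`V' = {v | (∃ g, v = g • v₀) ∨ ∃ g, ∃ e ∈ E, v = g • e.1}` with the restricted action, `X'.Adj v w` iff `∃ g, ∃ e ∈ E, v = g • e.1 ∧ w = g • e.2`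
(`E` is symmetric, so this is symmetric; it is a subgraph of `X`, so loopless).
Acyclic: `X'` maps injectively to `X` (`SimpleGraph.IsAcyclic.comap` or the map of a cycle under an injective homomorphism is a cycle,
`Walk.IsCycle.map`). Connected: `v₀` is connected in `X'` to all vertices of `q s` (induction on a walk all of whose darts are in `E`), in
particular to `s • v₀` and to `e.1` for `e ∈ E`; translate by `g` (the action maps `X'` to `X'`); the set of the `g` such that `g • v₀` is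
connected to `v₀` is a subgroup which contains `S`, so it is everything.
-/

set_option autoImplicit false

namespace Pool.Agent.H75.INF

open Pool.Agent.H93.TR

section sub

variable {G V : Type} [Group G] [MulAction G V] {X : SimpleGraph V}

/-- the graph of the translates of the pairs in `E` -/
private def XE (E : Set (V × V)) (hX : ∀ (g : G) (v w : V), X.Adj v w → X.Adj (g • v) (g • w))
    (hE : ∀ e ∈ E, X.Adj e.1 e.2) (hs : ∀ e ∈ E, (e.2, e.1) ∈ E) : SimpleGraph V where
  Adj v w := ∃ g : G, ∃ e ∈ E, v = g • e.1 ∧ w = g • e.2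
  symm := ⟨fun v w h => by
    obtain ⟨g, e, he, h1, h2⟩ := h
    exact ⟨g, (e.2, e.1), hs e he, h2, h1⟩⟩
  loopless := ⟨fun v h => by
    obtain ⟨g, e, he, h1, h2⟩ := h
    have h3 := hX g e.1 e.2 (hE e he)
    rw [← h1, ← h2] at h3
    exact X.loopless.irrefl v h3⟩

variable {E : Set (V × V)} {hX : ∀ (g : G) (v w : V), X.Adj v w → X.Adj (g • v) (g • w)}
  {hE : ∀ e ∈ E, X.Adj e.1 e.2} {hs : ∀ e ∈ E, (e.2, e.1) ∈ E}

private theorem reach_smul {v w : V} (g : G) (h : (XE (G := G) E hX hE hs).Reachable v w) :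
    (XE (G := G) E hX hE hs).Reachable (g • v) (g • w) := by
  let f : (XE (G := G) E hX hE hs) →g (XE (G := G) E hX hE hs) :=
    { toFun := fun v => g • v
      map_rel' := by
        rintro a b ⟨k, e, he, h1, h2⟩
        exact ⟨g * k, e, he, by rw [h1, mul_smul], by rw [h2, mul_smul]⟩ }
  exact h.map f

private theorem reach_walk {a b : V} (p : X.Walk a b) :
    (∀ d ∈ p.darts, (d.fst, d.snd) ∈ E) → (XE (G := G) E hX hE hs).Reachable a b ∧
      ∀ d ∈ p.darts, (XE (G := G) E hX hE hs).Reachable a d.fst ∧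
        (XE (G := G) E hX hE hs).Reachable a d.snd := by
  induction p with
  | nil => exact fun _ => ⟨SimpleGraph.Reachable.refl _, fun d hd => by simp at hd⟩
  | @cons u v w h p ih =>
    intro hd
    have h1 : (u, v) ∈ E := hd ⟨(u, v), h⟩ (by simp [SimpleGraph.Walk.darts_cons])
    have h2 : (XE (G := G) E hX hE hs).Adj u v :=
      ⟨1, (u, v), h1, (one_smul G u).symm, (one_smul G v).symm⟩
    obtain ⟨h3, h4⟩ := ih fun d hd' => hd d (by
      rw [SimpleGraph.Walk.darts_cons]
      exact List.mem_cons_of_mem _ hd')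
    refine ⟨h2.reachable.trans h3, fun d hd' => ?_⟩
    rw [SimpleGraph.Walk.darts_cons, List.mem_cons] at hd'
    rcases hd' with rfl | hd'
    · exact ⟨SimpleGraph.Reachable.refl _, h2.reachable⟩
    · exact ⟨h2.reachable.trans (h4 d hd').1, h2.reachable.trans (h4 d hd').2⟩

private theorem reach_lift {W : Set V} (hW : ∀ v w : V, (XE (G := G) E hX hE hs).Adj v w → w ∈ W)
    {v w : V} (p : (XE (G := G) E hX hE hs).Walk v w) : ∀ hv : v ∈ W, ∃ hw : w ∈ W,
      ((XE (G := G) E hX hE hs).comap (Subtype.val : W → V)).Reachable ⟨v, hv⟩ ⟨w, hw⟩ := by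
  induction p with
  | nil => exact fun hv => ⟨hv, SimpleGraph.Reachable.refl _⟩
  | @cons a b c h p ih =>
    intro ha
    have hb : b ∈ W := hW a b h
    obtain ⟨hc, h1⟩ := ih hb
    have h2 : ((XE (G := G) E hX hE hs).comap (Subtype.val : W → V)).Adj ⟨a, ha⟩ ⟨b, hb⟩ := h
    exact ⟨hc, h2.reachable.trans h1⟩

end sub

theorem sub_tree {G V : Type} [Group G] [MulAction G V] {X : SimpleGraph V} (hX : OnTree G X) (hG : Group.FG G) :
    ∃ (V' : Type) (_ : MulAction G V') (X' : SimpleGraph V') (φ : V' → V) (E : Finset (V × V)),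
      OnTree G X' ∧ Function.Injective φ ∧ (∀ (g : G) (v : V'), φ (g • v) = g • φ v) ∧
      (∀ e ∈ E, X.Adj e.1 e.2) ∧
      ∀ v w : V', X'.Adj v w → ∃ g : G, ∃ e ∈ E, φ v = g • e.1 ∧ φ w = g • e.2 := by
  classical
  obtain ⟨S, hS⟩ := hG.out
  obtain ⟨v0⟩ := hX.tree.connected.nonempty
  have hq : ∀ s : G, ∃ _ : X.Walk v0 (s • v0), True := fun s => by
    obtain ⟨q⟩ := hX.tree.connected.preconnected v0 (s • v0)
    exact ⟨q, trivial⟩
  choose q _ using hq
  let E : Finset (V × V) := S.biUnion fun s =>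
    ((q s).darts.map fun d => (d.fst, d.snd)).toFinset ∪
      ((q s).darts.map fun d => (d.snd, d.fst)).toFinset
  have hmem : ∀ e : V × V, e ∈ E ↔ ∃ s ∈ S, ∃ d ∈ (q s).darts,
      (d.fst, d.snd) = e ∨ (d.snd, d.fst) = e := by
    intro e
    simp only [E, Finset.mem_biUnion, Finset.mem_union, List.mem_toFinset, List.mem_map]
    constructor
    · rintro ⟨s, hs, ⟨d, hd, h⟩ | ⟨d, hd, h⟩⟩
      · exact ⟨s, hs, d, hd, Or.inl h⟩
      · exact ⟨s, hs, d, hd, Or.inr h⟩
    · rintro ⟨s, hs, d, hd, h | h⟩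
      · exact ⟨s, hs, Or.inl ⟨d, hd, h⟩⟩
      · exact ⟨s, hs, Or.inr ⟨d, hd, h⟩⟩
  have hE : ∀ e ∈ (E : Set (V × V)), X.Adj e.1 e.2 := by
    intro e he
    obtain ⟨s, _, d, _, h | h⟩ := (hmem e).1 he
    · rw [← h]; exact d.adj
    · rw [← h]; exact d.adj.symm
  have hs : ∀ e ∈ (E : Set (V × V)), (e.2, e.1) ∈ (E : Set (V × V)) := by
    intro e he
    obtain ⟨s, hs, d, hd, h | h⟩ := (hmem e).1 he
    · exact (hmem _).2 ⟨s, hs, d, hd, Or.inr (by rw [← h])⟩
    · exact (hmem _).2 ⟨s, hs, d, hd, Or.inl (by rw [← h])⟩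
  let Y : SimpleGraph V := XE (G := G) (E : Set (V × V)) hX.adj hE hs
  let W : Set V := {v | (∃ g : G, v = g • v0) ∨ ∃ g : G, ∃ e ∈ E, v = g • e.1}
  have hW : ∀ v w : V, Y.Adj v w → w ∈ W := by
    rintro v w ⟨g, e, he, -, h2⟩
    exact Or.inr ⟨g, (e.2, e.1), hs e he, h2⟩
  have hWG : ∀ (g : G) (v : V), v ∈ W → g • v ∈ W := by
    rintro g v (⟨k, rfl⟩ | ⟨k, e, he, rfl⟩)
    · exact Or.inl ⟨g * k, (mul_smul g k v0).symm⟩
    · exact Or.inr ⟨g * k, e, he, (mul_smul g k e.1).symm⟩
  -- reachability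
  have hwalk : ∀ s ∈ S, Y.Reachable v0 (s • v0) ∧ ∀ d ∈ (q s).darts,
      Y.Reachable v0 d.fst ∧ Y.Reachable v0 d.snd := fun s hs' =>
    reach_walk (q s) fun d hd => (hmem _).2 ⟨s, hs', d, hd, Or.inl rfl⟩
  have hgen : ∀ g : G, Y.Reachable v0 (g • v0) := by
    intro g
    have hg : g ∈ Subgroup.closure (S : Set G) := by rw [hS]; trivial
    induction hg using Subgroup.closure_induction with
    | mem s hs' => exact (hwalk s hs').1
    | one => rw [one_smul]
    | mul a b _ _ ha hb =>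
      rw [mul_smul]
      exact ha.trans (reach_smul a hb)
    | inv a _ ha =>
      have h1 := reach_smul a⁻¹ ha
      rw [inv_smul_smul] at h1
      exact h1.symm
  have hall : ∀ w ∈ W, Y.Reachable v0 w := by
    rintro w (⟨g, rfl⟩ | ⟨g, e, he, rfl⟩)
    · exact hgen g
    · refine (hgen g).trans (reach_smul g ?_)
      obtain ⟨s, hs', d, hd, h | h⟩ := (hmem e).1 he
      · rw [← h]; exact ((hwalk s hs').2 d hd).1
      · rw [← h]; exact ((hwalk s hs').2 d hd).2
  have hv0 : v0 ∈ W := Or.inl ⟨1, (one_smul G v0).symm⟩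
  letI act : MulAction G W :=
    { smul := fun g v => ⟨g • v.1, hWG g v.1 v.2⟩
      one_smul := fun v => Subtype.ext (one_smul G v.1)
      mul_smul := fun g h v => Subtype.ext (mul_smul g h v.1) }
  have hval : ∀ (g : G) (v : W), ((g • v : W) : V) = g • (v : V) := fun g v => rfl
  have hY : ∀ v w : V, Y.Adj v w → X.Adj v w := by
    rintro v w ⟨g, e, he, rfl, rfl⟩
    exact hX.adj g _ _ (hE e he)
  refine ⟨W, act, Y.comap (Subtype.val : W → V), Subtype.val, E, ⟨⟨?_, ?_⟩, ?_⟩,
    Subtype.val_injective, hval, hE, ?_⟩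
  · haveI : Nonempty W := ⟨⟨v0, hv0⟩⟩
    refine SimpleGraph.Connected.mk fun v w => ?_
    have h1 : ∀ v : W, (Y.comap (Subtype.val : W → V)).Reachable ⟨v0, hv0⟩ v := by
      intro v
      obtain ⟨p⟩ := hall v.1 v.2
      obtain ⟨_, h2⟩ := reach_lift hW p hv0
      exact h2
    exact (h1 v).symm.trans (h1 w)
  · let f : (Y.comap (Subtype.val : W → V)) →g X :=
      { toFun := Subtype.val
        map_rel' := fun {a b} h => hY a.1 b.1 h }
    exact hX.tree.isAcyclic.comap f Subtype.val_injective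
  · rintro g v w ⟨k, e, he, h1, h2⟩
    exact ⟨g * k, e, he, by rw [hval, h1, mul_smul], by rw [hval, h2, mul_smul]⟩
  · rintro v w ⟨g, e, he, h1, h2⟩
    exact ⟨g, e, he, h1, h2⟩

end Pool.Agent.H75.INF
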